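import Mathlib

/-!
# Averaging over the diagonal group
-/

set_option autoImplicit false

open MeasureTheory Real Finset Filter Topology

namespace Pool.Agent.Helper22.Opp

noncomputable section

variable {m : ℕ}

/-- exponents with sum zero -/
def ex (τ : Fin m → ℝ) : Fin (m + 1) → ℝ := Fin.cons (-(∑ i, τ i)) τ

/-- action of the diagonal group -/
def act (τ : Fin m → ℝ) (y : Fin (m + 1) → ℝ) : Fin (m + 1) → ℝ := fun i => Real.exp (ex τ i) * y i

lemma ex_zero (τ : Fin m → ℝ) : ex τ 0 = -(∑ i, τ i) := by simp [ex]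
lemma ex_succ (τ : Fin m → ℝ) (i : Fin m) : ex τ i.succ = τ i := by simp [ex]

lemma sum_ex (τ : Fin m → ℝ) : ∑ i, ex τ i = 0 := by
  rw [Fin.sum_univ_succ]; simp [ex]

lemma prod_act (τ : Fin m → ℝ) (y : Fin (m + 1) → ℝ) : ∏ i, act τ y i = ∏ i, y i := by
  unfold act
  rw [prod_mul_distrib, ← Real.exp_sum, sum_ex, Real.exp_zero, one_mul]

lemma continuous_act (y : Fin (m + 1) → ℝ) : Continuous (fun τ : Fin m → ℝ => act τ y) := by
  refine continuous_pi fun i => ?_
  refine Fin.cases ?_ (fun j => ?_) i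
  · simp only [act, ex_zero]; fun_prop
  · simp only [act, ex_succ]; fun_prop

/-- weights on the diagonal group -/
def wt (ε : ℝ) (τ : Fin m → ℝ) : ℝ := Real.exp (-(ε * ∑ i, |τ i|))

lemma wt_pos (ε : ℝ) (τ : Fin m → ℝ) : 0 < wt ε τ := Real.exp_pos _

lemma wt_le_one {ε : ℝ} (hε : 0 ≤ ε) (τ : Fin m → ℝ) : wt ε τ ≤ 1 := by
  unfold wt
  rw [Real.exp_le_one_iff, neg_nonpos]
  exact mul_nonneg hε (sum_nonneg fun _ _ => abs_nonneg _)

lemma continuous_wt (ε : ℝ) : Continuous (wt ε : (Fin m → ℝ) → ℝ) := by unfold wt; fun_prop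

lemma integrable_exp_abs {ε : ℝ} (hε : 0 < ε) : Integrable (fun s : ℝ => Real.exp (-(ε * |s|))) := by
  rw [← integrableOn_univ, ← Set.Iic_union_Ioi (a := (0 : ℝ)), integrableOn_union]
  constructor
  · refine (integrableOn_exp_mul_Iic hε 0).congr_fun (fun s hs => ?_) measurableSet_Iic
    simp only [Set.mem_Iic] at hs
    simp [abs_of_nonpos hs]
  · refine (integrableOn_exp_mul_Ioi (neg_lt_zero.2 hε) 0).congr_fun (fun s hs => ?_) measurableSet_Ioi
    simp only [Set.mem_Ioi] at hs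
    simp [abs_of_pos hs]

lemma integrable_wt {ε : ℝ} (hε : 0 < ε) : Integrable (wt ε : (Fin m → ℝ) → ℝ) := by
  have h : (wt ε : (Fin m → ℝ) → ℝ) = fun τ => ∏ i, Real.exp (-(ε * |τ i|)) := by
    funext τ
    unfold wt
    rw [← Real.exp_sum, mul_sum, sum_neg_distrib]
  rw [h]
  exact Integrable.fintype_prod (fun _ => integrable_exp_abs hε)

lemma integral_wt_pos {ε : ℝ} (hε : 0 < ε) : 0 < ∫ τ : Fin m → ℝ, wt ε τ := by
  rw [integral_pos_iff_support_of_nonneg (fun s => (wt_pos ε s).le) (integrable_wt hε)]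
  have : (Function.support (wt ε : (Fin m → ℝ) → ℝ)) = Set.univ := by
    ext s; simp [(wt_pos ε s).ne']
  rw [this]
  exact Measure.measure_univ_pos.2 (NeZero.ne _)

lemma wt_diff {ε : ℝ} (hε : 0 < ε) (hε1 : ε ≤ 1) (τ c : Fin m → ℝ) :
    |wt ε τ - wt ε c| ≤ ε * (wt ε τ * Real.exp (2 * ∑ i, |τ i - c i|)) := by
  set D := ∑ i, |τ i - c i| with hD
  have hD0 : 0 ≤ D := sum_nonneg fun _ _ => abs_nonneg _
  set z := ε * (∑ i, |τ i| - ∑ i, |c i|) with hz
  have hzD : |z| ≤ ε * D := by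
    rw [hz, abs_mul, abs_of_pos hε]
    refine mul_le_mul_of_nonneg_left ?_ hε.le
    rw [← sum_sub_distrib]
    exact (abs_sum_le_sum_abs _ _).trans (sum_le_sum fun i _ => abs_abs_sub_abs_le_abs_sub _ _)
  have h1 : wt ε c = wt ε τ * Real.exp z := by
    unfold wt; rw [← Real.exp_add]; congr 1; rw [hz]; ring
  have h2 : |1 - Real.exp z| ≤ ε * Real.exp (2 * D) := by
    have h3 : |1 - Real.exp z| ≤ |z| * Real.exp |z| := by
      rcases le_total 0 z with h | h
      · have h4 := Real.add_one_le_exp (-z)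
        have h5 : Real.exp (-z) * Real.exp z = 1 := by rw [← Real.exp_add]; simp
        have h6 := Real.exp_pos z
        rw [abs_of_nonneg h, abs_sub_comm, abs_of_nonneg (by linarith [Real.one_le_exp h])]
        nlinarith
      · have h4 := Real.add_one_le_exp z
        have h5 : Real.exp z ≤ 1 := Real.exp_le_one_iff.2 h
        rw [abs_of_nonpos h, abs_of_nonneg (by linarith)]
        have h6 : 1 ≤ Real.exp (-z) := Real.one_le_exp (by linarith)
        nlinarith
    have h7 : D ≤ Real.exp D := by linarith [Real.add_one_le_exp D]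
    have h8 : |z| ≤ D := hzD.trans (by nlinarith)
    calc |1 - Real.exp z| ≤ |z| * Real.exp |z| := h3
      _ ≤ (ε * D) * Real.exp D := by
          refine mul_le_mul hzD (Real.exp_le_exp.2 h8) (Real.exp_pos _).le (by positivity)
      _ ≤ (ε * Real.exp D) * Real.exp D := by gcongr
      _ = ε * Real.exp (2 * D) := by rw [mul_assoc, ← Real.exp_add]; congr 2; ring
  have h9 : wt ε τ - wt ε c = wt ε τ * (1 - Real.exp z) := by rw [h1]; ring
  rw [h9, abs_mul, abs_of_pos (wt_pos _ _)]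
  calc wt ε τ * |1 - Real.exp z| ≤ wt ε τ * (ε * Real.exp (2 * D)) :=
        mul_le_mul_of_nonneg_left h2 (wt_pos _ _).le
    _ = _ := by ring

/-- distance to the centre -/
def psi (y : Fin (m + 1) → ℝ) : ℝ := ∑ i : Fin m, |Real.log (|y i.succ|)|

/-- centre of a point -/
def ctr (y : Fin (m + 1) → ℝ) : Fin m → ℝ := fun i => -Real.log (|y i.succ|)

lemma psi_act {y : Fin (m + 1) → ℝ} (hy : ∀ i, y i ≠ 0) (τ : Fin m → ℝ) :
    psi (act τ y) = ∑ i, |τ i - ctr y i| := by
  unfold psi ctr act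
  refine sum_congr rfl fun i _ => ?_
  rw [ex_succ, abs_mul, abs_of_pos (Real.exp_pos _), Real.log_mul (Real.exp_pos _).ne'
    (abs_pos.2 (hy _)).ne', Real.log_exp]
  congr 1; ring

/-- base Gaussian -/
def gq (y : Fin (m + 1) → ℝ) : ℝ := Real.exp (-(π / 4 * ∑ i, y i ^ 2))

lemma gq_pos (y : Fin (m + 1) → ℝ) : 0 < gq y := Real.exp_pos _
lemma gq_le_one (y : Fin (m + 1) → ℝ) : gq y ≤ 1 := by
  unfold gq
  rw [Real.exp_le_one_iff, neg_nonpos]
  have : 0 ≤ ∑ i, y i ^ 2 := sum_nonneg fun _ _ => sq_nonneg _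
  positivity

lemma continuous_gq : Continuous (gq : (Fin (m + 1) → ℝ) → ℝ) := by unfold gq; fun_prop

/-- **Averaging lemma** -/
theorem avg_le {ι : Type*} [Countable ι] {pt : ι → Fin (m + 1) → ℝ} {F : (Fin (m + 1) → ℝ) → ℝ}
    (hF : Continuous F) {C1 C2 : ℝ} (hC1 : 0 ≤ C1)
    (h1 : ∀ y, |F y| ≤ C1 * gq y)
    (h2 : ∀ p τ, |F (act τ (pt p))| * Real.exp (2 * psi (act τ (pt p))) ≤ C1 * gq (act τ (pt p)))
    (h3 : ∀ (τ : Fin m → ℝ) (s : Finset ι), ∑ p ∈ s, gq (act τ (pt p)) ≤ C2)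
    (h4 : ∀ p, Integrable (fun τ : Fin m → ℝ => gq (act τ (pt p))))
    (h5 : ∀ p, ∫ τ : Fin m → ℝ, F (act τ (pt p)) ≤ 0)
    (h6 : ∀ p i, pt p i ≠ 0) {ε : ℝ} (hε : 0 < ε) (hε1 : ε ≤ 1) :
    ∫ τ : Fin m → ℝ, wt ε τ * ∑' p, F (act τ (pt p)) ≤ ε * (C1 * (C2 * ∫ τ : Fin m → ℝ, wt ε τ)) := by
  -- basic integrability
  have iF : ∀ p, Integrable (fun τ : Fin m → ℝ => F (act τ (pt p))) := fun p =>
    ((h4 p).const_mul C1).mono' (hF.comp (continuous_act _)).aestronglyMeasurable
      (Filter.Eventually.of_forall fun τ => by rw [Real.norm_eq_abs]; exact h1 _)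
  have iwg : ∀ p, Integrable (fun τ : Fin m → ℝ => wt ε τ * gq (act τ (pt p))) := fun p =>
    (integrable_wt hε).mono' ((continuous_wt ε).mul (continuous_gq.comp (continuous_act _))).aestronglyMeasurable
      (Filter.Eventually.of_forall fun τ => by
        rw [Real.norm_of_nonneg (mul_pos (wt_pos _ _) (gq_pos _)).le]
        exact mul_le_of_le_one_right (wt_pos _ _).le (gq_le_one _))
  have iwF : ∀ p, Integrable (fun τ : Fin m → ℝ => wt ε τ * F (act τ (pt p))) := fun p =>
    ((iwg p).const_mul C1).mono' ((continuous_wt ε).mul (hF.comp (continuous_act _))).aestronglyMeasurable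
      (Filter.Eventually.of_forall fun τ => by
        rw [Real.norm_eq_abs, abs_mul, abs_of_pos (wt_pos _ _)]
        calc wt ε τ * |F (act τ (pt p))| ≤ wt ε τ * (C1 * gq (act τ (pt p))) :=
              mul_le_mul_of_nonneg_left (h1 _) (wt_pos _ _).le
          _ = _ := by ring)
  -- sums of the Gaussian integrals
  have hsum : ∀ s : Finset ι, ∑ p ∈ s, ∫ τ : Fin m → ℝ, wt ε τ * gq (act τ (pt p)) ≤
      C2 * ∫ τ : Fin m → ℝ, wt ε τ := by
    intro s
    rw [← integral_finsetSum s (fun p _ => iwg p), ← integral_const_mul]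
    refine integral_mono (integrable_finsetSum s fun p _ => iwg p) ((integrable_wt hε).const_mul _) ?_
    intro τ
    simp only
    rw [← mul_sum, mul_comm]
    exact mul_le_mul_of_nonneg_right (h3 τ s) (wt_pos _ _).le
  have hnn : ∀ p, 0 ≤ ∫ τ : Fin m → ℝ, wt ε τ * gq (act τ (pt p)) := fun p =>
    integral_nonneg fun τ => (mul_pos (wt_pos _ _) (gq_pos _)).le
  have hS := summable_of_sum_le hnn hsum
  have hT := hS.tsum_le_of_sum_le hsum
  -- exchange
  have hex : ∫ τ : Fin m → ℝ, wt ε τ * ∑' p, F (act τ (pt p)) =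
      ∑' p, ∫ τ : Fin m → ℝ, wt ε τ * F (act τ (pt p)) := by
    rw [integral_tsum_of_summable_integral_norm iwF]
    · congr 1; funext τ; rw [tsum_mul_left]
    · refine (hS.mul_left C1).of_nonneg_of_le (fun p => integral_nonneg fun _ => norm_nonneg _) fun p => ?_
      rw [← integral_const_mul]
      refine integral_mono (iwF p).norm ((iwg p).const_mul _) ?_
      intro τ
      simp only
      rw [Real.norm_eq_abs, abs_mul, abs_of_pos (wt_pos _ _)]
      calc wt ε τ * |F (act τ (pt p))| ≤ wt ε τ * (C1 * gq (act τ (pt p))) :=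
            mul_le_mul_of_nonneg_left (h1 _) (wt_pos _ _).le
        _ = _ := by ring
  -- each term
  have hterm : ∀ p, ∫ τ : Fin m → ℝ, wt ε τ * F (act τ (pt p)) ≤
      ε * C1 * ∫ τ : Fin m → ℝ, wt ε τ * gq (act τ (pt p)) := by
    intro p
    set c := ctr (pt p) with hc
    have e1 : ∀ τ : Fin m → ℝ, wt ε τ * F (act τ (pt p)) ≤
        wt ε c * F (act τ (pt p)) + ε * C1 * (wt ε τ * gq (act τ (pt p))) := by
      intro τ
      have d1 := wt_diff hε hε1 τ c
      rw [← psi_act (h6 p)] at d1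
      have d2 : (wt ε τ - wt ε c) * F (act τ (pt p)) ≤
          |wt ε τ - wt ε c| * |F (act τ (pt p))| := by
        rw [← abs_mul]; exact le_abs_self _
      have d3 : |wt ε τ - wt ε c| * |F (act τ (pt p))| ≤
          ε * C1 * (wt ε τ * gq (act τ (pt p))) := by
        calc |wt ε τ - wt ε c| * |F (act τ (pt p))|
            ≤ (ε * (wt ε τ * Real.exp (2 * psi (act τ (pt p))))) * |F (act τ (pt p))| :=
              mul_le_mul_of_nonneg_right d1 (abs_nonneg _)
          _ = ε * wt ε τ * (|F (act τ (pt p))| * Real.exp (2 * psi (act τ (pt p)))) := by ring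
          _ ≤ ε * wt ε τ * (C1 * gq (act τ (pt p))) :=
              mul_le_mul_of_nonneg_left (h2 p τ) (mul_pos hε (wt_pos _ _)).le
          _ = _ := by ring
      linarith
    have e2 := integral_mono (iwF p) (((iF p).const_mul (wt ε c)).add ((iwg p).const_mul (ε * C1))) e1
    rw [integral_add' ((iF p).const_mul (wt ε c)) ((iwg p).const_mul (ε * C1)), integral_const_mul,
      integral_const_mul] at e2
    have e3 := mul_nonpos_of_nonneg_of_nonpos (wt_pos ε c).le (h5 p)
    linarith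
  rw [hex]
  have hSF : Summable fun p => ∫ τ : Fin m → ℝ, wt ε τ * F (act τ (pt p)) := by
    refine (hS.mul_left C1).of_norm_bounded fun p => ?_
    rw [← integral_const_mul]
    refine (norm_integral_le_integral_norm _).trans ?_
    refine integral_mono (iwF p).norm ((iwg p).const_mul _) ?_
    intro τ
    simp only
    rw [Real.norm_eq_abs, abs_mul, abs_of_pos (wt_pos _ _)]
    calc wt ε τ * |F (act τ (pt p))| ≤ wt ε τ * (C1 * gq (act τ (pt p))) :=
          mul_le_mul_of_nonneg_left (h1 _) (wt_pos _ _).le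
      _ = _ := by ring
  calc ∑' p, ∫ τ : Fin m → ℝ, wt ε τ * F (act τ (pt p))
      ≤ ∑' p, ε * C1 * ∫ τ : Fin m → ℝ, wt ε τ * gq (act τ (pt p)) :=
        hSF.tsum_le_tsum hterm (hS.mul_left _)
    _ = ε * C1 * ∑' p, ∫ τ : Fin m → ℝ, wt ε τ * gq (act τ (pt p)) := tsum_mul_left
    _ ≤ ε * C1 * (C2 * ∫ τ : Fin m → ℝ, wt ε τ) :=
        mul_le_mul_of_nonneg_left hT (mul_nonneg hε.le hC1)
    _ = _ := by ring

end

end Pool.Agent.Helper22.Opp
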