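import Mathlib

/-!
# Taylor bounds for chains of derivatives
-/

set_option autoImplicit false

open Finset

namespace Pool.Agent.Helper22.Opp

noncomputable section

lemma mono_aux {φ φ' : ℝ → ℝ} {h : ℝ} (hd : ∀ s, HasDerivAt φ (φ' s) s)
    (hn : ∀ s, 0 ≤ s → s ≤ h → 0 ≤ φ' s) {s : ℝ} (h0 : 0 ≤ s) (h1 : s ≤ h) : φ 0 ≤ φ s := by
  have hm : MonotoneOn φ (Set.Icc 0 h) := by
    refine monotoneOn_of_deriv_nonneg (convex_Icc 0 h) (fun t _ => (hd t).continuousAt.continuousWithinAt)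
      (fun t _ => (hd t).differentiableAt.differentiableWithinAt) ?_
    intro t ht
    rw [interior_Icc] at ht
    rw [(hd t).deriv]
    exact hn t ht.1.le ht.2.le
  exact hm ⟨le_rfl, h0.trans h1⟩ ⟨h0, h1⟩ h0

/-- the polynomial `∑ u_l s^l / l!` -/
def tp (M : ℕ) (u : ℕ → ℝ) (s : ℝ) : ℝ := ∑ l ∈ range M, u l * (s ^ l / (l.factorial : ℝ))

lemma tp_zero (M : ℕ) (u : ℕ → ℝ) : tp (M + 1) u 0 = u 0 := by
  unfold tp
  rw [sum_range_succ']
  simp

lemma hasDerivAt_tp (M : ℕ) (u : ℕ → ℝ) (s : ℝ) :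
    HasDerivAt (tp (M + 1) u) (tp M (fun l => u (l + 1)) s) s := by
  have h1 : tp (M + 1) u = fun s => ∑ l ∈ range M, u (l + 1) * (s ^ (l + 1) / ((l + 1).factorial : ℝ)) + u 0 := by
    funext s
    unfold tp
    rw [sum_range_succ']
    simp
  rw [h1]
  refine HasDerivAt.add_const _ ?_
  unfold tp
  refine HasDerivAt.fun_sum fun l _ => ?_
  refine HasDerivAt.const_mul _ ?_
  have h2 := (hasDerivAt_pow (l + 1) s).div_const ((l + 1).factorial : ℝ)
  refine h2.congr_deriv ?_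
  rw [Nat.factorial_succ]
  have h3 : (l.factorial : ℝ) ≠ 0 := by exact_mod_cast l.factorial_ne_zero
  have h4 : ((l : ℝ) + 1) ≠ 0 := by positivity
  push_cast
  field_simp
  try simp

lemma chain_ge {M : ℕ} (x h : ℝ) : ∀ (p : ℕ) (f : ℕ → ℝ → ℝ) (u : ℕ → ℝ)
    (_ : ∀ i < p, ∀ t, HasDerivAt (f i) (f (i + 1) t) t) (_ : ∀ l < p, u l ≤ f l x)
    (_ : ∀ s, 0 ≤ s → s ≤ h → tp M (fun l => u (p + l)) s ≤ f p (x + s)),
    ∀ s, 0 ≤ s → s ≤ h → tp (p + M) u s ≤ f 0 (x + s)
  | 0, f, u, _, _, htop => by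
    intro s h0 h1
    have := htop s h0 h1
    simpa using this
  | p + 1, f, u, hd, hu, htop => by
    intro s h0 h1
    have ih := chain_ge x h p (fun i => f (i + 1)) (fun l => u (l + 1))
      (fun i hi t => hd (i + 1) (by omega) t) (fun l hl => hu (l + 1) (by omega))
      (fun s h0 h1 => by
        have := htop s h0 h1
        have e : (fun l => u (p + 1 + l)) = fun l => u (p + l + 1) := by
          funext l; congr 1; omega
        rw [e] at this
        exact this)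
    have e1 : p + 1 + M = p + M + 1 := by omega
    rw [e1]
    have hφ : ∀ t, HasDerivAt (fun s => f 0 (x + s) - tp (p + M + 1) u s)
        (f 1 (x + t) - tp (p + M) (fun l => u (l + 1)) t) t := by
      intro t
      refine HasDerivAt.sub ?_ (hasDerivAt_tp _ _ _)
      have h2 := hd 0 (by omega) (x + t)
      have h3 := h2.comp_const_add x t
      simpa using h3
    have h2 := mono_aux hφ (h := h) (fun t ht0 ht1 => sub_nonneg.2 (ih t ht0 ht1)) h0 h1
    have h3 : 0 ≤ f 0 (x + 0) - tp (p + M + 1) u 0 := by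
      rw [tp_zero, add_zero]
      exact sub_nonneg.2 (hu 0 (by omega))
    linarith

lemma tp_neg (M : ℕ) (u : ℕ → ℝ) (s : ℝ) : tp M (fun l => -u l) s = -tp M u s := by
  unfold tp
  rw [← sum_neg_distrib]
  exact sum_congr rfl fun l _ => by ring

lemma chain_le {M : ℕ} (x h : ℝ) (p : ℕ) (f : ℕ → ℝ → ℝ) (u : ℕ → ℝ)
    (hd : ∀ i < p, ∀ t, HasDerivAt (f i) (f (i + 1) t) t) (hu : ∀ l < p, f l x ≤ u l)
    (htop : ∀ s, 0 ≤ s → s ≤ h → f p (x + s) ≤ tp M (fun l => u (p + l)) s)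
    (s : ℝ) (h0 : 0 ≤ s) (h1 : s ≤ h) : f 0 (x + s) ≤ tp (p + M) u s := by
  have := chain_ge (M := M) x h p (fun i t => -f i t) (fun l => -u l)
    (fun i hi t => (hd i hi t).neg) (fun l hl => neg_le_neg (hu l hl))
    (fun s h0 h1 => by
      rw [tp_neg M (fun l => u (p + l))]
      exact neg_le_neg (htop s h0 h1)) s h0 h1
  rw [tp_neg] at this
  linarith

/-- Horner form -/
def hor (h : ℝ) : ℕ → ℕ → (ℕ → ℝ) → ℝ → ℝ
  | _, 0, _, t => t
  | i, p + 1, v, t => v 0 + h / (i + 1) * hor h (i + 1) p (fun l => v (l + 1)) t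

lemma hor_eq (h : ℝ) : ∀ (p i : ℕ) (v : ℕ → ℝ) (t : ℝ), hor h i p v t =
    ∑ l ∈ range p, v l * (h ^ l * (i.factorial : ℝ) / ((i + l).factorial : ℝ)) +
      t * (h ^ p * (i.factorial : ℝ) / ((i + p).factorial : ℝ))
  | 0, i, v, t => by
    have : (i.factorial : ℝ) ≠ 0 := by exact_mod_cast i.factorial_ne_zero
    simp [hor, this]
  | p + 1, i, v, t => by
    rw [hor, hor_eq h p (i + 1), sum_range_succ', mul_add, mul_sum]
    have hi : (i.factorial : ℝ) ≠ 0 := by exact_mod_cast i.factorial_ne_zero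
    have hi1 : ((i : ℝ) + 1) ≠ 0 := by positivity
    have e1 : ∀ l, h / (i + 1) * (v (l + 1) * (h ^ l * ((i + 1).factorial : ℝ) / ((i + 1 + l).factorial : ℝ)))
        = v (l + 1) * (h ^ (l + 1) * (i.factorial : ℝ) / ((i + (l + 1)).factorial : ℝ)) := by
      intro l
      have : i + 1 + l = i + (l + 1) := by omega
      rw [this, Nat.factorial_succ i]
      push_cast
      field_simp
      ring
    have e2 : h / (i + 1) * (t * (h ^ p * ((i + 1).factorial : ℝ) / ((i + 1 + p).factorial : ℝ)))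
        = t * (h ^ (p + 1) * (i.factorial : ℝ) / ((i + (p + 1)).factorial : ℝ)) := by
      have : i + 1 + p = i + (p + 1) := by omega
      rw [this, Nat.factorial_succ i]
      push_cast
      field_simp
      ring
    rw [e2]
    simp only [e1]
    simp [hi]
    ring

/-- value of the extended Taylor polynomial in Horner form -/
lemma tp_hor (p M : ℕ) (u : ℕ → ℝ) (h : ℝ) (t : ℝ)
    (ht : t = ∑ k ∈ range M, u (p + k) * (h ^ k * (p.factorial : ℝ) / ((p + k).factorial : ℝ))) :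
    tp (p + M) u h = hor h 0 p u t := by
  rw [hor_eq]
  unfold tp
  rw [sum_range_add, ht]
  have hp : (p.factorial : ℝ) ≠ 0 := by exact_mod_cast p.factorial_ne_zero
  congr 1
  · refine sum_congr rfl fun l _ => ?_
    simp
  · rw [sum_mul]
    refine sum_congr rfl fun k _ => ?_
    have h2 : ((p + k).factorial : ℝ) ≠ 0 := by exact_mod_cast (p + k).factorial_ne_zero
    rw [Nat.zero_add, Nat.factorial_zero, Nat.cast_one, pow_add]
    field_simp

lemma hor_mono {h : ℝ} (hh : 0 ≤ h) : ∀ (p i : ℕ) (v v' : ℕ → ℝ) (t t' : ℝ)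
    (_ : ∀ l < p, v l ≤ v' l) (_ : t ≤ t'), hor h i p v t ≤ hor h i p v' t'
  | 0, i, v, v', t, t', _, ht => by simpa [hor] using ht
  | p + 1, i, v, v', t, t', hv, ht => by
    rw [hor, hor]
    have ih := hor_mono hh p (i + 1) (fun l => v (l + 1)) (fun l => v' (l + 1)) t t'
      (fun l hl => hv (l + 1) (by omega)) ht
    have h1 := hv 0 (by omega)
    have h2 : 0 ≤ h / (i + 1) := by positivity
    have h3 := mul_le_mul_of_nonneg_left ih h2
    linarith

lemma hor_sum {ι : Type*} (h : ℝ) (s : Finset ι) (κ : ι → ℝ) : ∀ (p i : ℕ) (v : ι → ℕ → ℝ) (t : ι → ℝ),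
    hor h i p (fun l => ∑ k ∈ s, κ k * v k l) (∑ k ∈ s, κ k * t k) = ∑ k ∈ s, κ k * hor h i p (v k) (t k)
  | 0, i, v, t => by simp [hor]
  | p + 1, i, v, t => by
    simp only [hor]
    rw [hor_sum h s κ p (i + 1) (fun k l => v k (l + 1)) t, mul_sum, ← sum_add_distrib]
    exact sum_congr rfl fun k _ => by ring

end

end Pool.Agent.Helper22.Opp
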