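import Pool.Agent.Helper22.Opp.Latt

/-!
# The linear programming bound, averaged over the diagonal group
-/

set_option autoImplicit false

open MeasureTheory Real Finset Filter Topology

namespace Pool.Agent.Helper22.Opp

noncomputable section

variable {m : ℕ}

lemma integrable_wt_tsum {ι : Type*} [Countable ι] {pt : ι → Fin (m + 1) → ℝ} {F : (Fin (m + 1) → ℝ) → ℝ}
    (hF : Continuous F) {C1 C2 : ℝ} (hC1 : 0 ≤ C1)
    (h1 : ∀ y, |F y| ≤ C1 * gq y)
    (h3 : ∀ (τ : Fin m → ℝ) (s : Finset ι), ∑ p ∈ s, gq (act τ (pt p)) ≤ C2) {ε : ℝ} (hε : 0 < ε) :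
    Integrable (fun τ : Fin m → ℝ => wt ε τ * ∑' p, F (act τ (pt p))) := by
  have hg : ∀ τ : Fin m → ℝ, Summable (fun p => gq (act τ (pt p))) := fun τ =>
    summable_of_sum_le (fun p => (gq_pos _).le) (h3 τ)
  have hsum : ∀ τ : Fin m → ℝ, Summable (fun p => F (act τ (pt p))) := fun τ =>
    ((hg τ).mul_left C1).of_norm_bounded fun p => by rw [Real.norm_eq_abs]; exact h1 _
  have hmeas : Measurable (fun τ : Fin m → ℝ => ∑' p, F (act τ (pt p))) := by
    refine measurable_of_tendsto_metrizable' (atTop : Filter (Finset ι))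
      (f := fun s (τ : Fin m → ℝ) => ∑ p ∈ s, F (act τ (pt p))) (fun s => ?_) ?_
    · exact Finset.measurable_fun_sum s fun p _ => (hF.comp (continuous_act _)).measurable
    · rw [tendsto_pi_nhds]
      intro τ
      exact (hsum τ).hasSum
  refine ((integrable_wt hε).const_mul (C1 * C2)).mono' ((continuous_wt ε).measurable.mul hmeas).aestronglyMeasurable ?_
  refine Filter.Eventually.of_forall fun τ => ?_
  rw [Real.norm_eq_abs, abs_mul, abs_of_pos (wt_pos _ _), mul_comm]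
  refine mul_le_mul_of_nonneg_right ?_ (wt_pos _ _).le
  have h5 : |∑' p, F (act τ (pt p))| ≤ ∑' p, |F (act τ (pt p))| := by
    have := norm_tsum_le_tsum_norm (f := fun p => F (act τ (pt p))) (hsum τ).norm
    simpa [Real.norm_eq_abs] using this
  refine h5.trans ?_
  calc ∑' p, |F (act τ (pt p))| ≤ ∑' p, C1 * gq (act τ (pt p)) :=
        (hsum τ).abs.tsum_le_tsum (fun p => h1 _) ((hg τ).mul_left C1)
    _ = C1 * ∑' p, gq (act τ (pt p)) := tsum_mul_left
    _ ≤ C1 * C2 := mul_le_mul_of_nonneg_left ((hg τ).tsum_le_of_sum_le (h3 τ)) hC1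

/-- nonzero lattice points -/
def pts (M : Matrix (Fin (m + 1)) (Fin (m + 1)) ℝ) (p : {p : Fin (m + 1) → ℤ // p ≠ 0}) :
    Fin (m + 1) → ℝ := M.mulVec (zr p.1)

lemma gq_sum_le {M : Matrix (Fin (m + 1)) (Fin (m + 1)) ℝ} {ρ : ℝ} (hρ : 0 < ρ) (h : Unif M ρ)
    (τ : Fin m → ℝ) (s : Finset {p : Fin (m + 1) → ℤ // p ≠ 0}) :
    ∑ p ∈ s, gq (act τ (pts M p)) ≤ packC (m + 1) ρ (π / 4) := by
  unfold gq
  refine pack hρ (by positivity) (fun p => act τ (pts M p)) (fun p p' hpp => ?_) s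
  exact h.sep τ p.1 p'.1 (fun h => hpp (Subtype.ext h))

/-- averaging for a lattice -/
lemma avg_lattice {M : Matrix (Fin (m + 1)) (Fin (m + 1)) ℝ} {ρ : ℝ} (hρ : 0 < ρ) (h : Unif M ρ)
    {F : (Fin (m + 1) → ℝ) → ℝ} (hF : Continuous F) {C0 : ℝ} (hC0 : 0 ≤ C0)
    (hb : ∀ y, |F y| ≤ C0 * Real.exp (-(π / 2 * ∑ i, y i ^ 2)))
    (h5 : ∀ p, ∫ τ : Fin m → ℝ, F (act τ (pts M p)) ≤ 0) :
    ∃ C : ℝ, 0 ≤ C ∧ ∀ ε : ℝ, 0 < ε → ε ≤ 1 →
      Integrable (fun τ : Fin m → ℝ => wt ε τ * ∑' p, F (act τ (pts M p))) ∧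
      ∫ τ : Fin m → ℝ, wt ε τ * ∑' p, F (act τ (pts M p)) ≤ ε * (C * ∫ τ : Fin m → ℝ, wt ε τ) := by
  have hπ := Real.pi_pos
  set ν : ℝ := ρ ^ (m + 1) with hν
  have hν0 : 0 < ν := by positivity
  set Cψ : ℝ := Real.exp ((2 * m * (m + 1)) ^ 2 / π + 2 * m * |Real.log ν|) with hCψ
  have hCψ1 : 1 ≤ Cψ := Real.one_le_exp (by positivity)
  set C1 : ℝ := C0 * Cψ with hC1
  have hC10 : 0 ≤ C1 := mul_nonneg hC0 (by positivity)
  set C2 : ℝ := packC (m + 1) ρ (π / 4) with hC2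
  have hprod : ∀ p : {p : Fin (m + 1) → ℤ // p ≠ 0}, ν ≤ |∏ i, pts M p i| := fun p =>
    h.prod hρ p.1 p.2
  have h1 : ∀ y, |F y| ≤ C1 * gq y := by
    intro y
    refine (hb y).trans ?_
    have h0 : 0 ≤ ∑ i, y i ^ 2 := sum_nonneg fun _ _ => sq_nonneg _
    have h2 : Real.exp (-(π / 2 * ∑ i, y i ^ 2)) ≤ gq y := Real.exp_le_exp.2 (by nlinarith)
    calc C0 * Real.exp (-(π / 2 * ∑ i, y i ^ 2)) ≤ C0 * gq y := mul_le_mul_of_nonneg_left h2 hC0
      _ = C0 * 1 * gq y := by ring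
      _ ≤ C0 * Cψ * gq y := by
          have := gq_pos y
          gcongr
  have h2 : ∀ p (τ : Fin m → ℝ), |F (act τ (pts M p))| * Real.exp (2 * psi (act τ (pts M p))) ≤
      C1 * gq (act τ (pts M p)) := by
    intro p τ
    have e1 := exp_psi_le (y := act τ (pts M p)) hν0 (by rw [prod_act]; exact hprod p)
    have e2 := hb (act τ (pts M p))
    calc |F (act τ (pts M p))| * Real.exp (2 * psi (act τ (pts M p)))
        ≤ (C0 * Real.exp (-(π / 2 * ∑ i, (act τ (pts M p)) i ^ 2))) *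
          (Cψ * Real.exp (π / 4 * ∑ i, (act τ (pts M p)) i ^ 2)) :=
          mul_le_mul e2 e1 (Real.exp_pos _).le (by positivity)
      _ = C1 * (Real.exp (-(π / 2 * ∑ i, (act τ (pts M p)) i ^ 2)) *
          Real.exp (π / 4 * ∑ i, (act τ (pts M p)) i ^ 2)) := by rw [hC1]; ring
      _ = C1 * gq (act τ (pts M p)) := by
          rw [← Real.exp_add]; unfold gq; congr 2; ring
  have h6 : ∀ p i, pts M p i ≠ 0 := by
    intro p i hi
    have := hprod p
    rw [prod_eq_zero (mem_univ i) hi, abs_zero] at this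
    linarith
  refine ⟨C1 * C2, mul_nonneg hC10 (packC_nonneg _ hρ), fun ε hε hε1 => ⟨?_, ?_⟩⟩
  · exact integrable_wt_tsum hF hC10 h1 (gq_sum_le hρ h) hε
  · have := avg_le hF hC10 h1 h2 (gq_sum_le hρ h) (fun p => integrable_gq_act (h6 p)) h5 h6 hε hε1
    rw [mul_assoc]
    exact this

/-- the test function -/
def fF (k : Fin m) (d : ℕ) (c : ℕ → ℝ) (y : Fin (m + 1) → ℝ) : ℝ := ∑ a ∈ range (d + 1), c a * FA (Ak k a) y

/-- its transform -/
def fG (k : Fin m) (d : ℕ) (c : ℕ → ℝ) (y : Fin (m + 1) → ℝ) : ℝ := ∑ a ∈ range (d + 1), c a * FB (Ak k a) y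

/-- primal average -/
def HA (k : Fin m) (d : ℕ) (c : ℕ → ℝ) (x : ℝ) : ℝ :=
  ∑ a ∈ range (d + 1), c a * ∑ j ∈ range (a + 1), (qP a).coeff j * (2 ^ j * Jk k j x)

/-- dual average -/
def HB (k : Fin m) (d : ℕ) (c : ℕ → ℝ) (x : ℝ) : ℝ := ∑ a ∈ range (d + 1), c a * (2 ^ a * Jk k a x)

/-- value of the test function at the origin -/
def HS (d : ℕ) (c : ℕ → ℝ) : ℝ := ∑ a ∈ range (d + 1), c a * (qP a).coeff 0

variable (k : Fin m) (d : ℕ)

lemma continuous_fF (c : ℕ → ℝ) : Continuous (fF k d c) := by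
  unfold fF
  exact continuous_finsetSum _ fun k _ => continuous_const.mul (continuous_FA _)

lemma continuous_fG (c : ℕ → ℝ) : Continuous (fG k d c) := by
  unfold fG
  exact continuous_finsetSum _ fun k _ => continuous_const.mul (continuous_FB _)

/-- bound for the test functions -/
def bF (c : ℕ → ℝ) : ℝ := ∑ a ∈ range (d + 1), |c a| * bcA (Ak k a)

lemma bF_nonneg (c : ℕ → ℝ) : 0 ≤ bF k d c :=
  sum_nonneg fun _ _ => mul_nonneg (abs_nonneg _) (bcA_nonneg _)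

lemma fF_bound (c : ℕ → ℝ) (y : Fin (m + 1) → ℝ) :
    |fF k d c y| ≤ bF k d c * Real.exp (-(π / 2 * ∑ i, y i ^ 2)) := by
  unfold fF bF
  rw [sum_mul]
  refine (abs_sum_le_sum_abs _ _).trans (sum_le_sum fun a _ => ?_)
  rw [abs_mul, mul_assoc]
  exact mul_le_mul_of_nonneg_left (FA_bound _ _) (abs_nonneg _)

lemma fG_bound (c : ℕ → ℝ) (y : Fin (m + 1) → ℝ) :
    |fG k d c y| ≤ bF k d c * Real.exp (-(π / 2 * ∑ i, y i ^ 2)) := by
  unfold fG bF
  rw [sum_mul]
  refine (abs_sum_le_sum_abs _ _).trans (sum_le_sum fun a _ => ?_)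
  rw [abs_mul, mul_assoc]
  exact mul_le_mul_of_nonneg_left (FB_bound _ _) (abs_nonneg _)

lemma integral_fF_act {y : Fin (m + 1) → ℝ} (hy : ∀ i, y i ≠ 0) (c : ℕ → ℝ) :
    ∫ τ : Fin m → ℝ, fF k d c (act τ y) = (2 ^ m)⁻¹ * HA k d c (xof y) := by
  unfold fF HA
  rw [integral_finsetSum _ fun a _ => (integrable_FA_act' hy k a).const_mul _, mul_sum]
  refine sum_congr rfl fun a _ => ?_
  rw [integral_const_mul, integral_FA_act hy]
  ring

lemma integral_fG_act {y : Fin (m + 1) → ℝ} (hy : ∀ i, y i ≠ 0) (c : ℕ → ℝ) :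
    ∫ τ : Fin m → ℝ, fG k d c (act τ y) = (2 ^ m)⁻¹ * HB k d c (xof y) := by
  unfold fG HB
  rw [integral_finsetSum _ fun a _ => (integrable_FB_act hy k a).const_mul _, mul_sum]
  refine sum_congr rfl fun a _ => ?_
  rw [integral_const_mul, integral_FB_act hy]
  ring

lemma fF_zero (c : ℕ → ℝ) : fF k d c 0 = HS d c := by
  unfold fF HS
  refine sum_congr rfl fun a _ => ?_
  have : FA (Ak k a) (0 : Fin (m + 1) → ℝ) = (qP a).coeff 0 := by
    unfold FA hf ga
    rw [Fin.prod_univ_succ, prod_eq_single k]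
    · simp [Ak, qP, Polynomial.coeff_zero_eq_eval_zero]
    · intro i _ hi
      simp [Ak, hi, qP]
    · intro h; exact absurd (mem_univ _) h
  rw [this]

lemma fG_zero (c : ℕ → ℝ) : fG k d c 0 = c 0 := by
  unfold fG
  rw [sum_eq_single_of_mem 0 (by simp)]
  · have : FB (Ak k 0) (0 : Fin (m + 1) → ℝ) = 1 := by
      unfold FB hg ga
      refine prod_eq_one fun i _ => ?_
      have h1 : Ak k 0 i = 0 := by
        refine Fin.cases ?_ (fun j => ?_) i <;> simp [Ak]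
      simp [h1]
    rw [this, mul_one]
  · intro a _ ha0
    have : FB (Ak k a) (0 : Fin (m + 1) → ℝ) = 0 := by
      unfold FB
      refine prod_eq_zero (mem_univ (Fin.succ k)) ?_
      have h1 : Ak k a (Fin.succ k) = a := by simp [Ak]
      rw [h1]
      unfold hg
      simp [ha0]
    rw [this, mul_zero]

lemma summable_of_unif {M : Matrix (Fin (m + 1)) (Fin (m + 1)) ℝ} {ρ : ℝ} (hρ : 0 < ρ) (h : Unif M ρ)
    (τ : Fin m → ℝ) {F : (Fin (m + 1) → ℝ) → ℝ} {C0 : ℝ}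
    (hb : ∀ y, |F y| ≤ C0 * Real.exp (-(π / 2 * ∑ i, y i ^ 2))) :
    Summable (fun p : Fin (m + 1) → ℤ => F (act τ (M.mulVec (zr p)))) :=
  ((pack_summable (c := π / 2) hρ (by positivity) (fun p : Fin (m + 1) → ℤ => act τ (M.mulVec (zr p)))
    (h.sep τ)).mul_left C0).of_norm_bounded fun p => by rw [Real.norm_eq_abs]; exact hb _

lemma split_zero {n : ℕ} {f : (Fin n → ℤ) → ℝ} (hf : Summable f) :
    ∑' p, f p = f 0 + ∑' p : {p : Fin n → ℤ // p ≠ 0}, f p := by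
  classical
  rw [hf.tsum_eq_add_tsum_ite 0]
  congr 1
  have h := tsum_subtype {p : Fin n → ℤ | p ≠ 0} f
  have h2 : ∑' p : {p : Fin n → ℤ // p ≠ 0}, f p = ∑' p : {p : Fin n → ℤ | p ≠ 0}, f p := rfl
  rw [h2, h]
  refine tsum_congr fun p => ?_
  by_cases hp : p = 0
  · simp [hp]
  · rw [if_neg hp, Set.indicator_of_mem (by exact hp)]

lemma wt_neg (ε : ℝ) (τ : Fin m → ℝ) : wt ε (-τ) = wt ε τ := by
  unfold wt; simp

/-- **The linear programming bound averaged over the diagonal group.** -/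
theorem lp_bound {c : ℕ → ℝ} {X : ℝ} (hA : ∀ x ≤ X, HA k d c x ≤ 0) (hB : ∀ x, 0 ≤ HB k d c x)
    (M : Matrix (Fin (m + 1)) (Fin (m + 1)) ℝ) (hM : M.det ≠ 0)
    (hν : ∀ p : Fin (m + 1) → ℤ, p ≠ 0 →
      Real.exp (-X) ≤ π ^ (m + 1) * (∏ i, M.mulVec (zr p) i) ^ 2) :
    c 0 ≤ |M.det| * HS d c := by
  have hπ := Real.pi_pos
  have hdet : 0 < |M.det| := abs_pos.2 hM
  -- the lattice is uniform
  obtain ⟨ρ, hρ, hU⟩ : ∃ ρ : ℝ, 0 < ρ ∧ Unif M ρ := by
    refine unif_of_prod (ν := Real.sqrt (Real.exp (-X) / π ^ (m + 1))) (by positivity) fun p hp => ?_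
    refine Real.sqrt_le_iff.2 ⟨abs_nonneg _, ?_⟩
    rw [sq_abs, div_le_iff₀ (by positivity), mul_comm]
    exact hν p hp
  obtain ⟨ρ', hρ', hU'⟩ := dual_unif hM hρ hU
  set D := (M⁻¹).transpose with hD
  have hne : ∀ (p : {p : Fin (m + 1) → ℤ // p ≠ 0}) i, pts M p i ≠ 0 := by
    intro p i hi
    have := hU.prod hρ p.1 p.2
    unfold pts at hi
    rw [prod_eq_zero (mem_univ i) hi, abs_zero] at this
    have h2 : 0 < ρ ^ (m + 1) := by positivity
    linarith
  have hne' : ∀ (p : {p : Fin (m + 1) → ℤ // p ≠ 0}) i, pts D p i ≠ 0 := by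
    intro p i hi
    have := hU'.prod hρ' p.1 p.2
    unfold pts at hi
    rw [prod_eq_zero (mem_univ i) hi, abs_zero] at this
    have h2 : 0 < ρ' ^ (m + 1) := by positivity
    linarith
  have hC00 : 0 ≤ bF k d c := bF_nonneg k d c
  -- averages
  obtain ⟨C, hC, hav⟩ := avg_lattice hρ hU (continuous_fF k d c) hC00 (fF_bound k d c) (fun p => by
    rw [integral_fF_act k d (hne p)]
    refine mul_nonpos_of_nonneg_of_nonpos (by positivity) (hA _ ?_)
    unfold xof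
    have h1 := hν p.1 p.2
    have h2 : ∏ i, (pts M p i) ^ 2 = (∏ i, M.mulVec (zr p.1) i) ^ 2 := by
      rw [prod_pow]; rfl
    rw [h2]
    have h3 := Real.log_le_log (Real.exp_pos _) h1
    rw [Real.log_exp] at h3
    linarith)
  obtain ⟨C', hC', hav'⟩ := avg_lattice hρ' hU' (F := fun y => -fG k d c y) (continuous_fG k d c).neg hC00
    (fun y => by rw [abs_neg]; exact fG_bound k d c y) (fun p => by
    rw [integral_neg, integral_fG_act k d (hne' p)]
    have := hB (xof (pts D p))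
    have h2 : 0 ≤ ((2 : ℝ) ^ m)⁻¹ * HB k d c (xof (pts D p)) := mul_nonneg (by positivity) this
    linarith)
  -- Poisson
  have hpo : ∀ τ : Fin m → ℝ, ∑' p, fF k d c (act τ (pts M p)) + |M.det|⁻¹ * ∑' p, -fG k d c (act (-τ) (pts D p)) =
      |M.det|⁻¹ * c 0 - HS d c := by
    intro τ
    have s1 := summable_of_unif hρ hU τ (fF_bound k d c)
    have s2 := summable_of_unif hρ' hU' (-τ) (fG_bound k d c)
    have e1 := split_zero s1
    have e2 := split_zero s2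
    have e3 : ∑' p : Fin (m + 1) → ℤ, fF k d c (act τ (M.mulVec (zr p))) =
        |M.det|⁻¹ * ∑' p : Fin (m + 1) → ℤ, fG k d c (act (-τ) (D.mulVec (zr p))) := by
      unfold fF fG
      rw [Summable.tsum_finsetSum, Summable.tsum_finsetSum, mul_sum]
      · refine sum_congr rfl fun a _ => ?_
        rw [tsum_mul_left, tsum_mul_left, poisson_act M hM]
        ring
      · intro a _
        exact (summable_of_unif hρ' hU' (-τ) (FB_bound _)).mul_left _
      · intro a _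
        exact (summable_of_unif hρ hU τ (FA_bound _)).mul_left _
    rw [e1, e2, zr_zero, Matrix.mulVec_zero, Matrix.mulVec_zero, act_zero, act_zero, fF_zero, fG_zero] at e3
    rw [tsum_neg]
    unfold pts
    linarith
  set δ : ℝ := |M.det|⁻¹ * c 0 - HS d c with hδ
  -- the inequality for every ε
  have key : ∀ ε : ℝ, 0 < ε → ε ≤ 1 → δ ≤ ε * (C + |M.det|⁻¹ * C') := by
    intro ε hε hε1
    obtain ⟨i1, a1⟩ := hav ε hε hε1
    obtain ⟨i2, a2⟩ := hav' ε hε hε1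
    have hW := integral_wt_pos (m := m) hε
    have i3 : Integrable (fun τ : Fin m → ℝ => wt ε τ * ∑' p, -fG k d c (act (-τ) (pts D p))) := by
      have := i2.comp_neg
      simp only [wt_neg] at this
      exact this
    have a3 : ∫ τ : Fin m → ℝ, wt ε τ * ∑' p, -fG k d c (act (-τ) (pts D p)) =
        ∫ τ : Fin m → ℝ, wt ε τ * ∑' p, -fG k d c (act τ (pts D p)) := by
      rw [← integral_neg_eq_self (fun τ : Fin m → ℝ => wt ε τ * ∑' p, -fG k d c (act τ (pts D p)))]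
      simp only [wt_neg]
    have e1 : ∫ τ : Fin m → ℝ, (wt ε τ * ∑' p, fF k d c (act τ (pts M p)) +
        |M.det|⁻¹ * (wt ε τ * ∑' p, -fG k d c (act (-τ) (pts D p)))) = δ * ∫ τ : Fin m → ℝ, wt ε τ := by
      rw [← integral_const_mul]
      congr 1
      funext τ
      rw [← hpo τ]; ring
    rw [integral_add i1 (i3.const_mul _), integral_const_mul, a3] at e1
    have h4 : |M.det|⁻¹ * ∫ τ : Fin m → ℝ, wt ε τ * ∑' p, -fG k d c (act τ (pts D p)) ≤
        |M.det|⁻¹ * (ε * (C' * ∫ τ : Fin m → ℝ, wt ε τ)) :=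
      mul_le_mul_of_nonneg_left a2 (by positivity)
    have h5 : δ * ∫ τ : Fin m → ℝ, wt ε τ ≤ (ε * (C + |M.det|⁻¹ * C')) * ∫ τ : Fin m → ℝ, wt ε τ := by
      rw [← e1]
      calc _ ≤ ε * (C * ∫ τ : Fin m → ℝ, wt ε τ) + |M.det|⁻¹ * (ε * (C' * ∫ τ : Fin m → ℝ, wt ε τ)) :=
            add_le_add a1 h4
        _ = _ := by ring
    exact le_of_mul_le_mul_right h5 hW
  have hδ0 : δ ≤ 0 := by
    by_contra hpos
    push Not at hpos
    set E := C + |M.det|⁻¹ * C' with hE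
    have hE0 : 0 ≤ E := add_nonneg hC (mul_nonneg (by positivity) hC')
    have h1 := key (min 1 (δ / (2 * (E + 1)))) (lt_min one_pos (by positivity)) (min_le_left _ _)
    have h2 : min 1 (δ / (2 * (E + 1))) * E ≤ (δ / (2 * (E + 1))) * (E + 1) :=
      mul_le_mul (min_le_right _ _) (by linarith) hE0 (by positivity)
    have h3 : (δ / (2 * (E + 1))) * (E + 1) = δ / 2 := by field_simp
    linarith
  have h6 : |M.det|⁻¹ * c 0 ≤ HS d c := by linarith
  rwa [inv_mul_le_iff₀ hdet] at h6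

end

end Pool.Agent.Helper22.Opp
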