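import Pool.Agent.Helper22.Opp.Reg
import Pool.Agent.Helper22.Opp.LP

/-!
# The averaged test functions as functionals
-/

set_option autoImplicit false

open Finset

namespace Pool.Agent.Helper22.Opp

/-! ### operations on functionals -/

/-- sum -/
def addL : List (ℕ × ℕ) → List (ℕ × ℕ) → List (ℕ × ℕ)
  | [], G => G
  | F, [] => F
  | c :: cs, d :: ds => (c.1 + d.1, c.2 + d.2) :: addL cs ds

/-- multiplication by `p.1 - p.2` -/
def smulP (p : ℕ × ℕ) (F : List (ℕ × ℕ)) : List (ℕ × ℕ) :=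
  F.map fun c => (p.1 * c.1 + p.2 * c.2, p.1 * c.2 + p.2 * c.1)

/-- the moments as functionals -/
def lJ (M : ℕ) : ℕ → List (ℕ × ℕ)
  | 0 => [(1, 0)]
  | j + 1 => (addL (der M (lJ M j)) (smulP (j, 0) (lJ M j))).map nrm

/-- coefficients of the polynomials of the recursion -/
def qc : ℕ → ℕ → ℤ
  | 0, 0 => 1
  | 0, _ + 1 => 0
  | a + 1, 0 => qc a 0 - 2 * qc a 1
  | a + 1, j + 1 => (4 * j + 5) * qc a (j + 1) - qc a j - (j + 2) * (4 * j + 6) * qc a (j + 2)

/-- dual functional -/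
def lB (M : ℕ) : ℕ → List (ℕ × ℕ) → List (ℕ × ℕ)
  | _, [] => []
  | a, c :: cs => addL (smulP c (smulP (2 ^ a, 0) (lJ M a))) (lB M (a + 1) cs)

/-- the polynomial `a` as a functional -/
def lq (M a : ℕ) : ℕ → List (ℕ × ℕ)
  | 0 => []
  | j + 1 => addL (lq M a j) (smulP ((qc a j).toNat, (-(qc a j)).toNat) (smulP (2 ^ j, 0) (lJ M j)))

/-- negative of the primal functional -/
def lA (M : ℕ) : ℕ → List (ℕ × ℕ) → List (ℕ × ℕ)
  | _, [] => []
  | a, c :: cs => addL (smulP (c.2, c.1) (lq M a (a + 1))) (lA M (a + 1) cs)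

/-- value at the origin -/
def lS : ℕ → List (ℕ × ℕ) → ℤ
  | _, [] => 0
  | a, c :: cs => ((c.1 : ℤ) - c.2) * qc a 0 + lS (a + 1) cs

noncomputable section

variable {m : ℕ}

lemma evA_addL (Z : ℕ → ℝ) : ∀ (F G : List (ℕ × ℕ)) (i : ℕ), evA Z i (addL F G) = evA Z i F + evA Z i G
  | [], G, i => by simp [addL, evA]
  | c :: cs, [], i => by simp [addL, evA]
  | c :: cs, d :: ds, i => by
    rw [addL, evA, evA, evA, evA_addL Z cs ds]
    push_cast; ring

lemma evA_smulP (Z : ℕ → ℝ) (p : ℕ × ℕ) : ∀ (F : List (ℕ × ℕ)) (i : ℕ),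
    evA Z i (smulP p F) = ((p.1 : ℝ) - p.2) * evA Z i F
  | [], i => by simp [smulP, evA]
  | c :: cs, i => by
    have ih := evA_smulP Z p cs (i + 1)
    unfold smulP at ih ⊢
    rw [List.map_cons, evA, evA, ih]
    push_cast; ring

lemma evA_lJ (k : Fin m) : ∀ (j : ℕ) (x : ℝ), evA (zz m (K m) x) 0 (lJ (m + 1) j) = Jk k j x
  | 0, x => by
    rw [Jk_zero, lJ]
    simp only [evA]
    rw [zz_small x (show 0 < m + 1 by omega)]
    push_cast; ring
  | j + 1, x => by
    have h1 := hasDerivAt_ev (sol_K m) (lJ (m + 1) j) x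
    have h2 : (fun x => evA (zz m (K m) x) 0 (lJ (m + 1) j)) = Jk k j := funext fun x => evA_lJ k j x
    rw [h2] at h1
    have h3 := h1.unique (hasDerivAt_Jk k j x)
    rw [lJ, evA_nrm, evA_addL, evA_smulP, evA_lJ k j x, h3]
    push_cast; ring

lemma coeff_qP : ∀ (a j : ℕ), (qP a).coeff j = (qc a j : ℝ)
  | 0, 0 => by simp [qP, qc]
  | 0, j + 1 => by
    simp only [qP, qc, Int.cast_zero]
    rw [Polynomial.coeff_one]
    simp
  | a + 1, 0 => by
    rw [qP, qc]
    simp only [Polynomial.coeff_sub, Polynomial.coeff_add, sub_mul, one_mul, mul_assoc,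
      Polynomial.coeff_X_mul_zero, Polynomial.coeff_C_mul, Polynomial.coeff_derivative, coeff_qP a]
    push_cast
    ring_nf
  | a + 1, j + 1 => by
    rw [qP, qc]
    simp only [Polynomial.coeff_sub, Polynomial.coeff_add, sub_mul, one_mul, mul_assoc,
      Polynomial.coeff_X_mul, Polynomial.coeff_C_mul, Polynomial.coeff_derivative, coeff_qP a]
    push_cast
    ring_nf

/-- the coefficients given by a list -/
def cf (cs : List (ℕ × ℕ)) (a : ℕ) : ℝ := ((cs.getD a (0, 0)).1 : ℝ) - (cs.getD a (0, 0)).2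

lemma cf_succ (c : ℕ × ℕ) (cs : List (ℕ × ℕ)) (a : ℕ) : cf (c :: cs) (a + 1) = cf cs a := by simp [cf]
lemma cf_zero (c : ℕ × ℕ) (cs : List (ℕ × ℕ)) : cf (c :: cs) 0 = (c.1 : ℝ) - c.2 := by simp [cf]

lemma evA_lB (k : Fin m) (x : ℝ) : ∀ (cs : List (ℕ × ℕ)) (a : ℕ), evA (zz m (K m) x) 0 (lB (m + 1) a cs) =
    ∑ i ∈ range cs.length, cf cs i * (2 ^ (a + i) * Jk k (a + i) x)
  | [], a => by simp [lB, evA]
  | c :: cs, a => by
    rw [lB, evA_addL, evA_smulP, evA_smulP, evA_lJ k, evA_lB k x cs (a + 1), List.length_cons, sum_range_succ',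
      cf_zero, Nat.add_zero]
    have : ∀ i, cf (c :: cs) (i + 1) * (2 ^ (a + (i + 1)) * Jk k (a + (i + 1)) x) =
        cf cs i * (2 ^ (a + 1 + i) * Jk k (a + 1 + i) x) := by
      intro i
      rw [cf_succ, show a + (i + 1) = a + 1 + i by omega]
    simp only [this]
    push_cast
    ring_nf

lemma toNat_sub (z : ℤ) : ((z.toNat : ℝ) - ((-z).toNat : ℝ)) = (z : ℝ) := by
  have h := Int.toNat_sub_toNat_neg z
  have : (((z.toNat : ℤ) - ((-z).toNat : ℤ) : ℤ) : ℝ) = (z : ℝ) := by rw [h]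
  push_cast at this
  exact this

lemma evA_lq (k : Fin m) (x : ℝ) (a : ℕ) : ∀ n, evA (zz m (K m) x) 0 (lq (m + 1) a n) =
    ∑ j ∈ range n, (qP a).coeff j * (2 ^ j * Jk k j x)
  | 0 => by simp [lq, evA]
  | j + 1 => by
    rw [lq, evA_addL, evA_lq k x a j, evA_smulP, evA_smulP, evA_lJ k, sum_range_succ, coeff_qP, toNat_sub]
    push_cast
    ring

lemma evA_lA (k : Fin m) (x : ℝ) : ∀ (cs : List (ℕ × ℕ)) (a : ℕ), evA (zz m (K m) x) 0 (lA (m + 1) a cs) =
    -∑ i ∈ range cs.length, cf cs i * ∑ j ∈ range (a + i + 1), (qP (a + i)).coeff j * (2 ^ j * Jk k j x)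
  | [], a => by simp [lA, evA]
  | c :: cs, a => by
    rw [lA, evA_addL, evA_smulP, evA_lq k, evA_lA k x cs (a + 1), List.length_cons,
      sum_range_succ' _ cs.length, cf_zero, Nat.add_zero]
    have : ∀ i, cf (c :: cs) (i + 1) * ∑ j ∈ range (a + (i + 1) + 1), (qP (a + (i + 1))).coeff j * (2 ^ j * Jk k j x) =
        cf cs i * ∑ j ∈ range (a + 1 + i + 1), (qP (a + 1 + i)).coeff j * (2 ^ j * Jk k j x) := by
      intro i
      rw [cf_succ, show a + (i + 1) = a + 1 + i by omega]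
    simp only [this]
    ring_nf

lemma lS_eq : ∀ (cs : List (ℕ × ℕ)) (a : ℕ), ((lS a cs : ℤ) : ℝ) =
    ∑ i ∈ range cs.length, cf cs i * (qP (a + i)).coeff 0
  | [], a => by simp [lS]
  | c :: cs, a => by
    rw [lS, Int.cast_add, lS_eq cs (a + 1), List.length_cons, sum_range_succ', cf_zero, Nat.add_zero]
    have : ∀ i, cf (c :: cs) (i + 1) * (qP (a + (i + 1))).coeff 0 = cf cs i * (qP (a + 1 + i)).coeff 0 := by
      intro i
      rw [cf_succ, show a + (i + 1) = a + 1 + i by omega]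
    simp only [this]
    rw [coeff_qP]
    push_cast
    ring_nf

/-- the three identities used for the numerical verification -/
theorem connect (k : Fin m) {d : ℕ} {cs : List (ℕ × ℕ)} (hl : cs.length = d + 1) :
    (∀ x, HA k d (cf cs) x = -evA (zz m (K m) x) 0 (lA (m + 1) 0 cs)) ∧
    (∀ x, HB k d (cf cs) x = evA (zz m (K m) x) 0 (lB (m + 1) 0 cs)) ∧
    HS d (cf cs) = ((lS 0 cs : ℤ) : ℝ) := by
  refine ⟨fun x => ?_, fun x => ?_, ?_⟩
  · rw [evA_lA k, neg_neg, hl]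
    unfold HA
    simp only [Nat.zero_add]
  · rw [evA_lB k, hl]
    unfold HB
    simp only [Nat.zero_add]
  · rw [lS_eq, hl]
    unfold HS
    simp only [Nat.zero_add]

end

end Pool.Agent.Helper22.Opp
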