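import Mathlib

/-!
# The computation (natural numbers only)
-/

set_option autoImplicit false

namespace Pool.Agent.Helper22.Opp

/-- evaluate a number before passing it on -/
def force {α : Type} (a : ℕ) (f : ℕ → α) : α := Nat.rec (f 0) (fun k _ => f (Nat.succ k)) a

/-- evaluate a list of numbers before passing it on -/
def forceL {α : Type} : List ℕ → (List ℕ → α) → α
  | [], f => f []
  | a :: as, f => force a fun a' => forceL as fun as' => f (a' :: as')

theorem force_eq {α : Type} (a : ℕ) (f : ℕ → α) : force a f = f a := by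
  cases a <;> rfl

theorem forceL_eq {α : Type} : ∀ (l : List ℕ) (f : List ℕ → α), forceL l f = f l
  | [], _ => rfl
  | a :: as, f => by
    rw [forceL, force_eq, forceL_eq as]

/-- lower Horner scheme -/
def horLo (H : ℕ) : ℕ → List ℕ → ℕ → ℕ
  | _, [], t => t
  | i, v :: vs, t => v + horLo H (i + 1) vs t / (H * (i + 1))

/-- upper Horner scheme -/
def horUp (H : ℕ) : ℕ → List ℕ → ℕ → ℕ
  | _, [], t => t
  | i, v :: vs, t => v + (horUp H (i + 1) vs t / (H * (i + 1)) + 1)

/-- scalar product -/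
def dot : List ℕ → List ℕ → ℕ
  | t :: ts, v :: vs => t * v + dot ts vs
  | _, _ => 0

/-- lower step on the suffixes -/
def goLo (H WS wl : ℕ) (a : List ℕ) : List (List ℕ) → List ℕ → List ℕ
  | t :: ts, v :: vs => horLo H 0 (v :: vs) (wl * dot t a / WS) :: goLo H WS wl a ts vs
  | _, _ => []

/-- upper step on the suffixes -/
def goUp (H WS wu : ℕ) (b : List ℕ) : List (List ℕ) → List ℕ → List ℕ
  | t :: ts, v :: vs => horUp H 0 (v :: vs) (wu * dot t b / WS + 1) :: goUp H WS wu b ts vs
  | _, _ => []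

/-- lower step -/
def stepLo (H WS : ℕ) (tL : List (List ℕ)) (wl : ℕ) (a : List ℕ) : List ℕ := goLo H WS wl a tL a

/-- upper step -/
def stepUp (H W WS : ℕ) (tU : List (List ℕ)) (wu : ℕ) (b : List ℕ) : List ℕ :=
  force (wu * (2 * horUp H 0 b 0) / W + 1) fun Y => goUp H WS wu (b ++ [Y]) tU b

/-- lower step for the weight -/
def wLo (H w : ℕ) : ℕ :=
  w * (120 * H ^ 5 + 60 * H ^ 3 + 5 * H - (120 * H ^ 4 + 20 * H ^ 2 + 1)) / (120 * H ^ 5)

/-- upper step for the weight -/
def wUp (H w : ℕ) : ℕ :=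
  w * (720 * H ^ 6 + 360 * H ^ 4 + 30 * H ^ 2 + 1 - (720 * H ^ 5 + 120 * H ^ 3 + 6 * H)) /
    (720 * H ^ 6) + 1

/-- a list of columns is forced -/
def forceC {α : Type} : List (List ℕ × List ℕ) → (List (List ℕ × List ℕ) → α) → α
  | [], f => f []
  | c :: cs, f => forceL c.1 fun a => forceL c.2 fun b => forceC cs fun cs' => f ((a, b) :: cs')

theorem forceC_eq {α : Type} : ∀ (l : List (List ℕ × List ℕ)) (f : List (List ℕ × List ℕ) → α),
    forceC l f = f l
  | [], _ => rfl
  | a :: as, f => by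
    rw [forceC, forceL_eq, forceL_eq, forceC_eq as]

/-- one column -/
def stepC (H W WS : ℕ) (tL tU : List (List ℕ)) (wl wu : ℕ) (c : List ℕ × List ℕ) : List ℕ × List ℕ :=
  (stepLo H WS tL wl c.1, stepUp H W WS tU wu c.2)

/-- the state: columns and bounds for the weight -/
structure St where
  cols : List (List ℕ × List ℕ)
  wl : ℕ
  wu : ℕ
deriving DecidableEq

/-- first phase: `N` steps without tests -/
def run1 (H W WS : ℕ) (tL tU : List (List ℕ)) (N : ℕ) : List (List ℕ × List ℕ) → ℕ → ℕ → St :=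
  Nat.rec (fun cs wl wu => ⟨cs, wl, wu⟩)
    (fun _ ih cs wl wu => forceC (cs.map (stepC H W WS tL tU wl wu)) fun cs' =>
      force (wLo H wl) fun wl' => force (wUp H wu) fun wu' => ih cs' wl' wu') N

/-! ### tables -/

/-- one term of a weight of the source, cleared of denominators -/
def svT (n H p l i : ℕ) : ℕ :=
  (i + l).factorial * n.descFactorial (n - i) * H ^ (n - i) * p.factorial *
    (p + n + l).descFactorial (n - i)

/-- common denominator -/
def svD (n H p l : ℕ) : ℕ := H ^ (n + l) * (p + n + l).factorial * (n.factorial * l.factorial)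

/-- sum with alternating signs of the terms `0, …, k - 1` -/
def svS (n H p l : ℕ) : ℕ → ℤ
  | 0 => 0
  | k + 1 => svS n H p l k + (if k % 2 = 0 then (svT n H p l k : ℤ) else -(svT n H p l k : ℤ))

/-- the test for the tables -/
def tabChk (H S m : ℕ) (tL tU : List (List ℕ)) : Bool :=
  (tL.length == m + 1) && (tU.length == m + 1) && (tU.all fun t => t.length == m + 2) &&
  (List.range (m + 1)).all fun j =>
    ((List.range (m + 1)).all fun l =>
      decide ((((tL.getD j []).getD l 0 * svD 5 H (m + 1 - j) l : ℕ) : ℤ) ≤ (S : ℤ) * svS 5 H (m + 1 - j) l 6)) &&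
    ((List.range (m + 2)).all fun l =>
      decide ((S : ℤ) * svS 6 H (m + 1 - j) l 7 ≤ (((tU.getD j []).getD l 0 * svD 6 H (m + 1 - j) l : ℕ) : ℤ)))

/-! ### functionals -/

/-- positive part of a functional -/
def dotP : List (ℕ × ℕ) → List ℕ → ℕ
  | c :: cs, v :: vs => c.1 * v + dotP cs vs
  | _, _ => 0

/-- negative part of a functional -/
def dotN : List (ℕ × ℕ) → List ℕ → ℕ
  | c :: cs, v :: vs => c.2 * v + dotN cs vs
  | _, _ => 0

/-- the derivative of a functional; `M = m + 1` -/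
def derF (M : ℕ) : ℕ → ℕ × ℕ → List (ℕ × ℕ) → List (ℕ × ℕ)
  | _, prev, [] => [prev]
  | i, prev, c :: cs => (prev.1 + i / M * c.2, prev.2 + i / M * c.1) :: derF M (i + 1) c cs

/-- extended lower vector -/
def zLo (W wl : ℕ) : ℕ → List ℕ → List ℕ
  | 0, _ => []
  | R + 1, a => a ++ zLo W wl R (a.map fun v => v * wl / W)

/-- extended upper vector -/
def zUp (W wu : ℕ) : ℕ → List ℕ → List ℕ
  | 0, _ => []
  | R + 1, b => b ++ zUp W wu R (b.map fun v => v * wu / W + 1)

/-- a functional with three derivatives -/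
abbrev Fn : Type := List (ℕ × ℕ) × List (ℕ × ℕ) × List (ℕ × ℕ) × List (ℕ × ℕ)

/-- the test on one cell for one functional with its three derivatives -/
def chk (H : ℕ) (F : Fn) (z1 z2 z3 z4 : List ℕ) : Bool :=
  force (dotP F.1 z1) fun P0 =>
  force (dotN F.1 z2) fun N0 =>
  force (dotP F.2.1 z1) fun P1 =>
  force (dotN F.2.1 z2) fun N1 =>
  force (dotN F.2.2.2 z4 - dotP F.2.2.2 z3) fun D =>
  force (3 * H * dotP F.2.2.1 z1) fun U =>
  force (3 * H * dotN F.2.2.1 z2 + D) fun V =>
  force (6 * (H * H * H) * N0 + (V - U)) fun A =>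
  force (6 * (H * H * H) * P0) fun B =>
  (Nat.ble A B && Nat.ble (A + 6 * (H * H) * N1) (B + 6 * (H * H) * P1)) ||
    (Nat.ble N0 P0 && (Nat.ble V U && Nat.ble (3 * H * ((N1 - P1) * (N1 - P1))) (2 * (P0 - N0) * (U - V))))

/-- second phase: `N` steps with tests -/
def run2 (H W WS : ℕ) (tL tU : List (List ℕ)) (R : ℕ) (Fs : List Fn) (N : ℕ) :
    List ℕ → List ℕ → ℕ → ℕ → Option (List ℕ × List ℕ × ℕ × ℕ) :=
  Nat.rec (fun a b wl wu => some (a, b, wl, wu))
    (fun _ ih a b wl wu =>
      forceL (stepLo H WS tL wl a) fun a' => forceL (stepUp H W WS tU wu b) fun b' =>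
      force (wLo H wl) fun wl' => force (wUp H wu) fun wu' =>
      forceL (zLo W wl R a) fun z1 => forceL (zUp W wu R b) fun z2 =>
      forceL (zLo W wl' R a) fun z3 => forceL (zUp W wu R b') fun z4 =>
      cond (Fs.all fun F => chk H F z1 z2 z3 z4) (ih a' b' wl' wu') none) N

/-- all tests for merging columns -/
def mergeChk (D : ℕ) (cols : List (List ℕ × List ℕ)) (a b : List ℕ) : Bool :=
  cols.all fun c => (List.range a.length).all fun j =>
    Nat.ble (a.getD j 0 * c.2.getD 0 0) (D * c.1.getD j 0) &&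
    Nat.ble (D * c.2.getD j 0) (b.getD j 0 * c.1.getD 0 0)

/-- the columns of `D` times the identity matrix -/
def idCols (D M : ℕ) : List (List ℕ × List ℕ) :=
  (List.range M).map fun k =>
    ((List.range M).map fun i => if i = k then D else 0, (List.range M).map fun i => if i = k then D else 0)

/-- test for the region of large weight; `rs` lists lower bounds for the ratios `z_i / z_{i-1}` -/
def lowChk (E M : ℕ) (rs : List ℕ) : ℕ → ℕ → List (ℕ × ℕ) → Bool
  | _, n, [] => Nat.ble n 0
  | i, n, c :: cs => lowChk E M rs (i + 1) ((c.2 + (n * E / rs.getD (i % M) 1 + 1)) - c.1) cs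

/-- test for the lower bounds of the ratios -/
def lowOk (E M Rn W wl : ℕ) (rs : List ℕ) : Bool :=
  Nat.ble (Rn ^ M * W) (wl * E ^ M) &&
  (List.range M).all fun j =>
    Nat.ble (rs.getD ((j + 1) % M) 1 * M + j * E) (Rn * M) && Nat.ble 1 (rs.getD ((j + 1) % M) 1)

/-- test for the region of small weight; `rs` lists upper bounds for the ratios `z_{i+1} / z_i` -/
def tailN (E M : ℕ) (rs : List ℕ) : ℕ → List (ℕ × ℕ) → ℕ
  | _, [] => 0
  | i, c :: cs => (c.2 + (rs.getD (i % M) 0 * tailN E M rs (i + 1) cs / E + 1)) - c.1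

/-- test for the upper bounds of the ratios -/
def tailOk (E M W wu : ℕ) (rs a b : List ℕ) : Bool :=
  Nat.ble (E * b.getD 1 0 + 1) (rs.getD 0 0 * a.getD 0 0) &&
  Nat.ble (E * wu * b.getD 0 0) (rs.getD (M - 1) 0 * a.getD (M - 1) 0 * W) &&
  Nat.ble (rs.getD 0 0) (rs.getD (M - 1) 0 + E) &&
  (List.range (M - 1)).all fun j =>
    Nat.ble (E * b.getD (j + 1) 0) (rs.getD j 0 * a.getD j 0) && Nat.ble (rs.getD (j + 1) 0) (rs.getD j 0)

end Pool.Agent.Helper22.Opp
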