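import Pool.Agent.Helper22.Opp.Comb

/-!
# Assembly
-/

set_option autoImplicit false

open Finset

namespace Pool.Agent.Helper22.Opp

/-- a segment of the computation: step width `1 / H`, number of steps, tables -/
structure Seg where
  H : ℕ
  N : ℕ
  tL : List (List ℕ)
  tU : List (List ℕ)

/-- first phase with all its tests -/
def ph1 (g : Seg) (W WS D M w0 : ℕ) (a b : List ℕ) (wl wu : ℕ) : Bool :=
  match run1 g.H W WS g.tL g.tU g.N (idCols D M) (W * w0) (W * w0) with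
  | ⟨cols, wl', wu'⟩ => Nat.beq wl' wl && Nat.beq wu' wu && mergeChk D cols a b

/-- second phase -/
def ph2 (g : Seg) (W WS R : ℕ) (Fs : List Fn)
    (a b : List ℕ) (wl wu : ℕ) : Option (List ℕ × List ℕ × ℕ × ℕ) :=
  run2 g.H W WS g.tL g.tU R Fs g.N a b wl wu

noncomputable section

variable {m : ℕ}

/-- all data of a run -/
structure Dat where
  g1 : Seg
  g2 : Seg
  g3 : Seg
  W : ℕ
  S : ℕ
  D : ℕ
  E : ℕ
  R : ℕ
  w0 : ℕ
  Rn : ℕ
  rL : List ℕ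
  rT : List ℕ
  a1 : List ℕ
  b1 : List ℕ
  wl1 : ℕ
  wu1 : ℕ
  a2 : List ℕ
  b2 : List ℕ
  wl2 : ℕ
  wu2 : ℕ
  a3 : List ℕ
  b3 : List ℕ
  wl3 : ℕ
  wu3 : ℕ
  FA : Fn
  FB : Fn

/-- the cheap tests -/
def Dat.ok (d : Dat) (m : ℕ) : Prop :=
  0 < d.g1.H ∧ 0 < d.g2.H ∧ 0 < d.g3.H ∧ 0 < d.W ∧ 0 < d.S ∧ 0 < d.D ∧ 0 < d.E ∧ 0 < d.Rn ∧ 0 < d.w0 ∧
  d.a1.length = m + 1 ∧ d.b1.length = m + 1 ∧
  2 * d.w0 ≤ (m + 1).factorial * d.g1.H ^ (m + 1) ∧
  2 * d.wu1 ≤ (m + 1).factorial * d.g2.H ^ (m + 1) * d.W ∧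
  2 * d.wu2 ≤ (m + 1).factorial * d.g3.H ^ (m + 1) * d.W ∧
  Good (m + 1) d.R d.FA ∧ Good (m + 1) d.R d.FB ∧
  lowOk d.E (m + 1) d.Rn d.W d.wl1 d.rL = true ∧
  lowChk d.E (m + 1) d.rL 0 0 d.FA.1 = true ∧ lowChk d.E (m + 1) d.rL 0 0 d.FB.1 = true ∧
  tailOk d.E (m + 1) d.W d.wu3 d.rT d.a3 d.b3 = true ∧ tailN d.E (m + 1) d.rT 0 d.FB.1 = 0

/-- the tests for the tables -/
def Dat.tabs (d : Dat) (m : ℕ) : Bool :=
  tabChk d.g1.H d.S m d.g1.tL d.g1.tU && tabChk d.g2.H d.S m d.g2.tL d.g2.tU &&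
    tabChk d.g3.H d.S m d.g3.tL d.g3.tU

lemma continuous_ev {y : ℕ → ℝ → ℝ} (hy : Sol m y) (F : List (ℕ × ℕ)) :
    Continuous fun x => evA (zz m y x) 0 F :=
  continuous_iff_continuousAt.2 fun x => (hasDerivAt_ev hy F x).continuousAt

/-- the abscissa of the threshold -/
def Dat.X (d : Dat) : ℝ := -Real.log d.w0 + d.g1.N / d.g1.H + d.g2.N / d.g2.H

theorem numeric (hm : 1 ≤ m) {d : Dat} (ok : d.ok m) (tb : d.tabs m = true)
    (p1 : ph1 d.g1 d.W (d.W * d.S) d.D (m + 1) d.w0 d.a1 d.b1 d.wl1 d.wu1 = true)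
    (p2 : ph2 d.g2 d.W (d.W * d.S) d.R [d.FA, d.FB] d.a1 d.b1 d.wl1 d.wu1 = some (d.a2, d.b2, d.wl2, d.wu2))
    (p3 : ph2 d.g3 d.W (d.W * d.S) d.R [d.FB] d.a2 d.b2 d.wl2 d.wu2 = some (d.a3, d.b3, d.wl3, d.wu3)) :
    (∀ x ≤ d.X, 0 ≤ evA (zz m (K m) x) 0 d.FA.1) ∧ (∀ x, 0 ≤ evA (zz m (K m) x) 0 d.FB.1) ∧
      d.W * Real.exp (-d.X) ≤ d.wu2 := by
  obtain ⟨hH1, hH2, hH3, hW, hS, hD, hE, hRn, hw0, la, lb, hw1, hw2, hw3, gA, gB, lok, lcA, lcB, tok, tn⟩ := ok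
  unfold Dat.tabs at tb
  rw [Bool.and_eq_true, Bool.and_eq_true] at tb
  have T1 := tab_of_chk hH1 tb.1.1
  have T2 := tab_of_chk hH2 tb.1.2
  have T3 := tab_of_chk hH3 tb.2
  have hy := sol_K m
  set x0 : ℝ := -Real.log d.w0 with hx0
  have hw0' : (0 : ℝ) < d.w0 := by exact_mod_cast hw0
  have hW' : (0 : ℝ) < d.W := by exact_mod_cast hW
  have hD' : (0 : ℝ) < d.D := by exact_mod_cast hD
  have hex0 : Real.exp (-x0) = d.w0 := by rw [hx0, neg_neg, Real.exp_log hw0']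
  have hfac : (0 : ℝ) < ((m + 1).factorial : ℝ) := by exact_mod_cast (m + 1).factorial_pos
  -- weight conditions
  have c1 : 2 * ((1 / (d.g1.H : ℝ)) ^ (m + 1) * Real.exp (-x0)) ≤ ((m + 1).factorial : ℝ) := by
    have hH : (0 : ℝ) < d.g1.H := by exact_mod_cast hH1
    have e : ((2 * d.w0 : ℕ) : ℝ) ≤ (((m + 1).factorial * d.g1.H ^ (m + 1) : ℕ) : ℝ) := by exact_mod_cast hw1
    push_cast at e
    rw [hex0, one_div, inv_pow, ← div_eq_inv_mul, ← mul_div_assoc, div_le_iff₀ (by positivity)]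
    exact e
  -- first phase
  set s := run1 d.g1.H d.W (d.W * d.S) d.g1.tL d.g1.tU d.g1.N (idCols d.D (m + 1)) (d.W * d.w0) (d.W * d.w0) with hs
  have I0 : Inv m d.W (K m) (fun k => K m k x0 / d.D) x0 ⟨idCols d.D (m + 1), d.W * d.w0, d.W * d.w0⟩ :=
    inv_init hy hD hex0
  have I1 := run1_sound T1 hS hH1 hW hy d.g1.N x0 _ _ _ I0 c1
  set x1 : ℝ := x0 + d.g1.N / d.g1.H with hx1
  have q1 : s.wl = d.wl1 ∧ s.wu = d.wu1 ∧ mergeChk d.D s.cols d.a1 d.b1 = true := by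
    unfold ph1 at p1
    rw [← hs] at p1
    rcases s with ⟨cols, wl', wu'⟩
    simp only [Bool.and_eq_true] at p1
    exact ⟨Nat.eq_of_beq_eq_true p1.1.1, Nat.eq_of_beq_eq_true p1.1.2, p1.2⟩
  have J1 : Inv1 m d.W (K m) (K m 0 x1 / d.D) x1 d.a1 d.b1 d.wl1 d.wu1 := by
    have := merge_sound hy I1 hD la lb q1.2.2
    rw [← hs, q1.1, q1.2.1] at this
    exact this
  set Y : ℝ := K m 0 x1 / d.D with hY
  have hY0 : 0 < Y := div_pos (hy.pos _ _) hD'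
  -- second phase
  have c2 : 2 * ((1 / (d.g2.H : ℝ)) ^ (m + 1) * Real.exp (-x1)) ≤ ((m + 1).factorial : ℝ) := by
    have hH : (0 : ℝ) < d.g2.H := by exact_mod_cast hH2
    have e : ((2 * d.wu1 : ℕ) : ℝ) ≤ (((m + 1).factorial * d.g2.H ^ (m + 1) * d.W : ℕ) : ℝ) := by exact_mod_cast hw2
    push_cast at e
    have e2 := J1.wu
    rw [one_div, inv_pow, ← div_eq_inv_mul, ← mul_div_assoc, div_le_iff₀ (by positivity)]
    have e3 : (2 * Real.exp (-x1)) * d.W ≤ (((m + 1).factorial : ℝ) * (d.g2.H : ℝ) ^ (m + 1)) * d.W := by linarith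
    exact le_of_mul_le_mul_right e3 hW'
  have g1 : ∀ F ∈ [d.FA, d.FB], Good (m + 1) d.R F := by
    intro F hF
    simp only [List.mem_cons, List.not_mem_nil, or_false] at hF
    rcases hF with rfl | rfl
    · exact gA
    · exact gB
  obtain ⟨J2, r2⟩ := run2_sound T2 hS hH2 hW hy g1 d.g2.N x1 _ _ _ _ _ _ _ _ J1 c2 p2
  set X : ℝ := x1 + d.g2.N / d.g2.H with hX
  have hXX : d.X = X := rfl
  have c3 : 2 * ((1 / (d.g3.H : ℝ)) ^ (m + 1) * Real.exp (-X)) ≤ ((m + 1).factorial : ℝ) := by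
    have hH : (0 : ℝ) < d.g3.H := by exact_mod_cast hH3
    have e : ((2 * d.wu2 : ℕ) : ℝ) ≤ (((m + 1).factorial * d.g3.H ^ (m + 1) * d.W : ℕ) : ℝ) := by exact_mod_cast hw3
    push_cast at e
    have e2 := J2.wu
    rw [one_div, inv_pow, ← div_eq_inv_mul, ← mul_div_assoc, div_le_iff₀ (by positivity)]
    have e3 : (2 * Real.exp (-X)) * d.W ≤ (((m + 1).factorial : ℝ) * (d.g3.H : ℝ) ^ (m + 1)) * d.W := by linarith
    exact le_of_mul_le_mul_right e3 hW'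
  obtain ⟨J3, r3⟩ := run2_sound T3 hS hH3 hW hy (Fs := [d.FB]) (fun F hF => by
    simp only [List.mem_cons, List.not_mem_nil, or_false] at hF
    rw [hF]; exact gB) d.g3.N X _ _ _ _ _ _ _ _ J2 c3 p3
  set xe : ℝ := X + d.g3.N / d.g3.H with hxe
  rw [hXX]
  refine ⟨?_, ?_, J2.wu⟩
  · intro x hx
    rcases le_or_gt x x1 with h | h
    · exact low_region hy hE hW hRn J1.wl lok (fun {R x} hR hx {j} hj => K_amgm hR hx hj) lcA h
    · -- closure
      have hcl : ∀ x, x1 ≤ x → x < X → 0 ≤ evA (zz m (K m) x) 0 d.FA.1 := r2 d.FA (by simp)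
      rcases eq_or_lt_of_le hx with h2 | h2
      · have hmem : x ∈ closure (Set.Ico x1 X) := by
          rw [closure_Ico (show x1 ≠ X from fun he => by rw [he] at h; linarith)]
          exact ⟨h.le, hx⟩
        have : x ∈ {t | 0 ≤ evA (zz m (K m) t) 0 d.FA.1} :=
          closure_minimal (fun t ht => hcl t ht.1 ht.2) (isClosed_le continuous_const (continuous_ev hy _)) hmem
        exact this
      · exact hcl x h.le h2
  · intro x
    rcases le_or_gt x x1 with h | h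
    · exact low_region hy hE hW hRn J1.wl lok (fun {R x} hR hx {j} hj => K_amgm hR hx hj) lcB h
    · rcases lt_or_ge x X with h2 | h2
      · exact r2 d.FB (by simp) x h.le h2
      · rcases lt_or_ge x xe with h3 | h3
        · exact r3 d.FB (by simp) x h2 h3
        · exact tail_region hm hy hE hW hY0 J3 tok tn h3

/-- the lattice statement from the two sign conditions -/
theorem scale_bound (k : Fin m) (d : ℕ) {c : ℕ → ℝ} {X B : ℝ} (hA : ∀ x ≤ X, HA k d c x ≤ 0)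
    (hB : ∀ x, 0 ≤ HB k d c x)
    (hc0 : 0 < c 0) (hS : 0 < HS d c) (hB0 : 0 ≤ B)
    (hX : B ^ 2 * HS d c ^ 2 * Real.exp (-X) ≤ c 0 ^ 2 * Real.pi ^ (m + 1))
    (L : Matrix (Fin (m + 1)) (Fin (m + 1)) ℝ) (hL : L.det ≠ 0) (ν : ℝ)
    (hν : ∀ p : Fin (m + 1) → ℤ, p ≠ 0 → ν ≤ |∏ i, ∑ j, L i j * (p j : ℝ)|) : B * ν ≤ |L.det| := by
  rcases le_or_gt ν 0 with h0 | h0
  · exact (mul_nonpos_of_nonneg_of_nonpos hB0 h0).trans (abs_nonneg _)
  set S := HS d c with hSd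
  have hpi : 0 < Real.pi ^ (m + 1) := by positivity
  set T : ℝ := Real.sqrt (Real.exp (-X) / Real.pi ^ (m + 1)) with hT
  have hT0 : 0 < T := Real.sqrt_pos.2 (by positivity)
  have hT2 : T ^ 2 = Real.exp (-X) / Real.pi ^ (m + 1) := Real.sq_sqrt (by positivity)
  set lam : ℝ := (T / ν) ^ (((m + 1 : ℕ) : ℝ)⁻¹) with hlam
  have hlam0 : 0 < lam := Real.rpow_pos_of_pos (by positivity) _
  have hlamn : lam ^ (m + 1) = T / ν := by
    rw [hlam, Real.rpow_inv_natCast_pow (by positivity) (by omega)]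
  have hdet : (lam • L).det = T / ν * L.det := by
    rw [Matrix.det_smul, Fintype.card_fin, hlamn]
  have hmul : ∀ p : Fin (m + 1) → ℤ, ∏ i, (lam • L).mulVec (zr p) i = T / ν * ∏ i, ∑ j, L i j * (p j : ℝ) := by
    intro p
    rw [← hlamn]
    have : ∀ i, (lam • L).mulVec (zr p) i = lam * ∑ j, L i j * (p j : ℝ) := by
      intro i
      simp only [Matrix.mulVec, dotProduct, Matrix.smul_apply, smul_eq_mul, zr, mul_sum]
      exact sum_congr rfl fun j _ => by ring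
    simp only [this]
    rw [prod_mul_distrib, prod_const, card_univ, Fintype.card_fin]
  have key := lp_bound k d hA hB (lam • L) (by rw [hdet]; exact mul_ne_zero (by positivity) hL) (by
    intro p hp
    rw [hmul p, mul_pow, div_pow, hT2]
    have h1 := hν p hp
    have h2 : ν ^ 2 ≤ (∏ i, ∑ j, L i j * (p j : ℝ)) ^ 2 := by
      rw [← sq_abs (∏ i, ∑ j, L i j * (p j : ℝ))]
      exact pow_le_pow_left₀ h0.le h1 2
    have h3 : Real.pi ^ (m + 1) * (Real.exp (-X) / Real.pi ^ (m + 1) / ν ^ 2 * (∏ i, ∑ j, L i j * (p j : ℝ)) ^ 2) =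
        Real.exp (-X) * ((∏ i, ∑ j, L i j * (p j : ℝ)) ^ 2 / ν ^ 2) := by
      field_simp
    rw [h3]
    have h4 : 1 ≤ (∏ i, ∑ j, L i j * (p j : ℝ)) ^ 2 / ν ^ 2 := by
      rw [one_le_div (by positivity)]; exact h2
    nlinarith [Real.exp_pos (-X)])
  rw [hdet, abs_mul, abs_of_pos (show 0 < T / ν by positivity)] at key
  have hBST : B * S * T ≤ c 0 := by
    have : (B * S * T) ^ 2 ≤ c 0 ^ 2 := by
      rw [mul_pow, mul_pow, hT2, ← mul_div_assoc, div_le_iff₀ hpi]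
      exact hX
    exact (abs_le_of_sq_le_sq' this hc0.le).2
  have h5 : c 0 * ν ≤ T * |L.det| * S := by
    have := mul_le_mul_of_nonneg_right key h0.le
    calc c 0 * ν ≤ T / ν * |L.det| * S * ν := this
      _ = _ := by field_simp
  have h6 : B * S * T * ν ≤ c 0 * ν := mul_le_mul_of_nonneg_right hBST h0.le
  have h7 : (S * T) * (B * ν) ≤ (S * T) * |L.det| := by nlinarith
  exact le_of_mul_le_mul_left h7 (by positivity)

/-- final statement in terms of the data; `cs` lists the coefficients of the test function -/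
theorem final (hm : 1 ≤ m) {d : Dat} (ok : d.ok m) (tb : d.tabs m = true)
    (p1 : ph1 d.g1 d.W (d.W * d.S) d.D (m + 1) d.w0 d.a1 d.b1 d.wl1 d.wu1 = true)
    (p2 : ph2 d.g2 d.W (d.W * d.S) d.R [d.FA, d.FB] d.a1 d.b1 d.wl1 d.wu1 = some (d.a2, d.b2, d.wl2, d.wu2))
    (p3 : ph2 d.g3 d.W (d.W * d.S) d.R [d.FB] d.a2 d.b2 d.wl2 d.wu2 = some (d.a3, d.b3, d.wl3, d.wu3))
    {cs : List (ℕ × ℕ)} {c0 : ℕ} (hcs : cs = (c0, 0) :: cs.tail) (hc0 : 0 < c0)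
    (eA : d.FA.1 = (lA (m + 1) 0 cs).map nrm) (eB : d.FB.1 = (lB (m + 1) 0 cs).map nrm)
    {S : ℕ} (hSe : lS 0 cs = (S : ℤ)) (hS : 0 < S) {B : ℝ} (hB0 : 0 ≤ B)
    (hX : B ^ 2 * (S : ℝ) ^ 2 * d.wu2 ≤ (c0 : ℝ) ^ 2 * Real.pi ^ (m + 1) * d.W)
    (L : Matrix (Fin (m + 1)) (Fin (m + 1)) ℝ) (hL : L.det ≠ 0) (ν : ℝ)
    (hν : ∀ p : Fin (m + 1) → ℤ, p ≠ 0 → ν ≤ |∏ i, ∑ j, L i j * (p j : ℝ)|) : B * ν ≤ |L.det| := by
  obtain ⟨nA, nB, nW⟩ := numeric hm ok tb p1 p2 p3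
  have hW' : (0 : ℝ) < d.W := by exact_mod_cast ok.2.2.2.1
  have hl : cs.length = cs.tail.length + 1 := by
    rw [hcs]; simp
  obtain ⟨h1, h2, h3⟩ := connect (⟨0, hm⟩ : Fin m) hl
  have hS' : (0 : ℝ) < S := by exact_mod_cast hS
  have hc : cf cs 0 = c0 := by rw [hcs, cf_zero]; push_cast; ring
  have hSS : HS cs.tail.length (cf cs) = S := by rw [h3, hSe]; push_cast; ring
  refine scale_bound (⟨0, hm⟩ : Fin m) cs.tail.length (X := d.X) (c := cf cs)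
    (fun x hx => ?_) (fun x => ?_) (by rw [hc]; exact_mod_cast hc0) (by rw [hSS]; exact hS') hB0 ?_ L hL ν hν
  · have := nA x hx
    rw [eA, evA_nrm] at this
    rw [h1]; linarith
  · have := nB x
    rw [eB, evA_nrm] at this
    rw [h2]; exact this
  · rw [hSS, hc]
    have h1 : B ^ 2 * (S : ℝ) ^ 2 * (d.W * Real.exp (-d.X)) ≤ B ^ 2 * (S : ℝ) ^ 2 * d.wu2 :=
      mul_le_mul_of_nonneg_left nW (by positivity)
    have h2 : (B ^ 2 * (S : ℝ) ^ 2 * Real.exp (-d.X)) * d.W ≤ ((c0 : ℝ) ^ 2 * Real.pi ^ (m + 1)) * d.W := by linarith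
    exact le_of_mul_le_mul_right h2 hW'

end

end Pool.Agent.Helper22.Opp
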