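import Mathlib

/-!
# Averages of Gaussians over the diagonal group

`J q x = ∫_{ℝ^m} exp (∑ q_i s_i - ∑ e^{s_i} - e^{-x - ∑ s_i}) ds`.
-/

set_option autoImplicit false

open MeasureTheory Real Finset Filter Topology

namespace Pool.Agent.Helper22.Opp

noncomputable section

variable {m : ℕ}

/-- the phase -/
def ph (q : Fin m → ℝ) (x : ℝ) (s : Fin m → ℝ) : ℝ :=
  ∑ i, q i * s i - ∑ i, Real.exp (s i) - Real.exp (-x - ∑ i, s i)

/-- the integral -/
def J (q : Fin m → ℝ) (x : ℝ) : ℝ := ∫ s : Fin m → ℝ, Real.exp (ph q x s)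

lemma continuous_ph (q : Fin m → ℝ) (x : ℝ) : Continuous (ph q x) := by
  unfold ph; fun_prop

lemma continuous_ph' (q : Fin m → ℝ) (s : Fin m → ℝ) : Continuous (fun x => ph q x s) := by
  unfold ph; fun_prop

lemma one_dim_bound {p : ℝ} (hp : 1 ≤ p) (s : ℝ) :
    Real.exp (p * s - Real.exp s) ≤ Real.exp ((p + 1) ^ 2 / 2) * Real.exp (-|s|) := by
  rw [← Real.exp_add]
  apply Real.exp_le_exp.2
  have h0 := Real.exp_pos s
  rcases le_total 0 s with hs | hs
  · rw [abs_of_nonneg hs]
    have h1 := Real.quadratic_le_exp_of_nonneg hs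
    nlinarith [sq_nonneg (p + 1 - s)]
  · rw [abs_of_nonpos hs]
    nlinarith [sq_nonneg (p + 1)]

lemma integrable_exp_neg_abs' : Integrable (fun s : ℝ => Real.exp (-|s|)) := by
  rw [← integrableOn_univ, ← Set.Iic_union_Ioi (a := (0 : ℝ)), integrableOn_union]
  constructor
  · refine (integrableOn_exp_Iic 0).congr_fun (fun s hs => ?_) measurableSet_Iic
    simp only [Set.mem_Iic] at hs
    simp [abs_of_nonpos hs]
  · refine (integrableOn_exp_neg_Ioi 0).congr_fun (fun s hs => ?_) measurableSet_Ioi
    simp only [Set.mem_Ioi] at hs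
    simp [abs_of_pos hs]

lemma one_dim_integrable {p : ℝ} (hp : 1 ≤ p) :
    Integrable (fun s : ℝ => Real.exp (p * s - Real.exp s)) := by
  refine (integrable_exp_neg_abs'.const_mul (Real.exp ((p + 1) ^ 2 / 2))).mono' ?_ ?_
  · exact (by fun_prop : Continuous (fun s : ℝ => Real.exp (p * s - Real.exp s))).aestronglyMeasurable
  · refine Filter.Eventually.of_forall fun s => ?_
    rw [Real.norm_of_nonneg (Real.exp_pos _).le]
    exact one_dim_bound hp s

lemma exp_neg_le (N : ℕ) (y : ℝ) : Real.exp (-Real.exp y) ≤ (N.factorial : ℝ) * Real.exp (-(N * y)) := by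
  have h := Real.pow_div_factorial_le_exp (Real.exp y) (Real.exp_pos y).le N
  have hf : (0 : ℝ) < N.factorial := by exact_mod_cast N.factorial_pos
  rw [div_le_iff₀ hf, ← Real.exp_nat_mul] at h
  have h1 : Real.exp (-Real.exp y) * Real.exp (Real.exp y) = 1 := by
    rw [← Real.exp_add]; simp
  have h2 : Real.exp (-(N * y)) * Real.exp (N * y) = 1 := by
    rw [← Real.exp_add]; simp
  have p1 := Real.exp_pos (-Real.exp y)
  have p2 := Real.exp_pos (-(N * y) : ℝ)
  calc Real.exp (-Real.exp y) = Real.exp (-Real.exp y) * (Real.exp (-(N * y)) * Real.exp (N * y)) := by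
        rw [h2, mul_one]
    _ = Real.exp (-(N * y)) * (Real.exp (-Real.exp y) * Real.exp (N * y)) := by ring
    _ ≤ Real.exp (-(N * y)) * (Real.exp (-Real.exp y) * (Real.exp (Real.exp y) * N.factorial)) := by
        gcongr
    _ = (N.factorial : ℝ) * Real.exp (-(N * y)) := by
        rw [← mul_assoc (Real.exp (-Real.exp y)), h1]; ring

/-- dominating function -/
def dom (q : Fin m → ℝ) (N : ℕ) (x : ℝ) (s : Fin m → ℝ) : ℝ :=
  (N.factorial : ℝ) * Real.exp (N * x) * ∏ i, Real.exp ((q i + N) * s i - Real.exp (s i))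

lemma exp_ph_le (q : Fin m → ℝ) (N : ℕ) (x : ℝ) (s : Fin m → ℝ) :
    Real.exp (ph q x s) ≤ dom q N x s := by
  unfold ph dom
  have h := exp_neg_le N (-x - ∑ i, s i)
  have e1 : ∏ i, Real.exp ((q i + N) * s i - Real.exp (s i)) =
      Real.exp (∑ i, q i * s i - ∑ i, Real.exp (s i)) * Real.exp (N * ∑ i, s i) := by
    rw [← Real.exp_sum, ← Real.exp_add]
    congr 1
    rw [mul_sum, ← sum_sub_distrib, ← sum_add_distrib]
    exact sum_congr rfl fun i _ => by ring
  rw [e1]
  have e2 : Real.exp (∑ i, q i * s i - ∑ i, Real.exp (s i) - Real.exp (-x - ∑ i, s i)) =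
      Real.exp (∑ i, q i * s i - ∑ i, Real.exp (s i)) * Real.exp (-Real.exp (-x - ∑ i, s i)) := by
    rw [← Real.exp_add]; congr 1
  rw [e2]
  have e3 : (N.factorial : ℝ) * Real.exp (-(N * (-x - ∑ i, s i))) =
      (N.factorial : ℝ) * Real.exp (N * x) * Real.exp (N * ∑ i, s i) := by
    rw [mul_assoc, ← Real.exp_add]; congr 2; ring
  rw [e3] at h
  calc _ ≤ Real.exp (∑ i, q i * s i - ∑ i, Real.exp (s i)) *
        ((N.factorial : ℝ) * Real.exp (N * x) * Real.exp (N * ∑ i, s i)) := by gcongr
    _ = _ := by ring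

lemma integrable_dom (q : Fin m → ℝ) (N : ℕ) (x : ℝ) (hN : ∀ i, 1 ≤ q i + N) :
    Integrable (dom q N x) := by
  unfold dom
  exact (Integrable.fintype_prod (fun i => one_dim_integrable (hN i))).const_mul _

lemma exists_N (q : Fin m → ℝ) : ∃ N : ℕ, ∀ i, 1 ≤ q i + N := by
  obtain ⟨N, hN⟩ := exists_nat_ge (∑ i, |q i| + 1)
  refine ⟨N, fun i => ?_⟩
  have h1 : |q i| ≤ ∑ i, |q i| := single_le_sum (f := fun i => |q i|) (fun j _ => abs_nonneg _) (mem_univ i)
  have h2 := neg_abs_le (q i)
  linarith

lemma integrable_ph (q : Fin m → ℝ) (x : ℝ) : Integrable (fun s => Real.exp (ph q x s)) := by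
  obtain ⟨N, hN⟩ := exists_N q
  refine (integrable_dom q N x hN).mono' (Real.continuous_exp.comp (continuous_ph q x)).aestronglyMeasurable ?_
  refine Filter.Eventually.of_forall fun s => ?_
  rw [Real.norm_of_nonneg (Real.exp_pos _).le]
  exact exp_ph_le q N x s

lemma J_pos (q : Fin m → ℝ) (x : ℝ) : 0 < J q x := by
  unfold J
  rw [integral_pos_iff_support_of_nonneg (fun s => (Real.exp_pos _).le) (integrable_ph q x)]
  have : (Function.support fun s => Real.exp (ph q x s)) = Set.univ := by
    ext s; simp [Real.exp_ne_zero]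
  rw [this]
  exact Measure.measure_univ_pos.2 (NeZero.ne _)

/-- multiplying by `e^{-x-∑s}` lowers all exponents -/
lemma ph_sub_one (q : Fin m → ℝ) (x : ℝ) (s : Fin m → ℝ) :
    Real.exp (ph q x s) * Real.exp (-x - ∑ i, s i) =
      Real.exp (-x) * Real.exp (ph (fun i => q i - 1) x s) := by
  rw [← Real.exp_add, ← Real.exp_add]
  congr 1
  unfold ph
  have : ∑ i, (q i - 1) * s i = ∑ i, q i * s i - ∑ i, s i := by
    rw [← sum_sub_distrib]; exact sum_congr rfl fun i _ => by ring
  rw [this]; ring

lemma hasDerivAt_J (q : Fin m → ℝ) (x : ℝ) :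
    HasDerivAt (J q) (Real.exp (-x) * J (fun i => q i - 1) x) x := by
  obtain ⟨N, hN⟩ := exists_N (fun i => q i - 1)
  have key := hasDerivAt_integral_of_dominated_loc_of_deriv_le (μ := (volume : Measure (Fin m → ℝ)))
    (F := fun x s => Real.exp (ph q x s))
    (F' := fun x s => Real.exp (-x) * Real.exp (ph (fun i => q i - 1) x s))
    (bound := fun s => Real.exp (-(x - 1)) * dom (fun i => q i - 1) N (x + 1) s)
    (x₀ := x) (s := Metric.ball x 1) (Metric.ball_mem_nhds x one_pos)
    (Filter.Eventually.of_forall fun y =>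
      (Real.continuous_exp.comp (continuous_ph q y)).aestronglyMeasurable)
    (integrable_ph q x)
    ((Real.continuous_exp.comp (continuous_ph _ x)).aestronglyMeasurable.const_mul _)
    (Filter.Eventually.of_forall fun s y hy => by
      rw [Metric.mem_ball, Real.dist_eq, abs_lt] at hy
      rw [Real.norm_of_nonneg (by positivity)]
      have h1 : Real.exp (-y) ≤ Real.exp (-(x - 1)) := Real.exp_le_exp.2 (by linarith)
      have h2 : Real.exp (ph (fun i => q i - 1) y s) ≤ dom (fun i => q i - 1) N (x + 1) s := by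
        refine (exp_ph_le _ N y s).trans ?_
        unfold dom
        have : Real.exp (N * y) ≤ Real.exp (N * (x + 1)) :=
          Real.exp_le_exp.2 (mul_le_mul_of_nonneg_left (by linarith) (Nat.cast_nonneg N))
        have h0 : 0 ≤ ∏ i, Real.exp ((q i - 1 + N) * s i - Real.exp (s i)) :=
          prod_nonneg fun i _ => (Real.exp_pos _).le
        exact mul_le_mul_of_nonneg_right (mul_le_mul_of_nonneg_left this (Nat.cast_nonneg _)) h0
      exact mul_le_mul h1 h2 (Real.exp_pos _).le (Real.exp_pos _).le)
    ((integrable_dom _ N _ hN).const_mul _)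
    (Filter.Eventually.of_forall fun s y _ => by
      have h1 : HasDerivAt (fun y : ℝ => ph q y s) (Real.exp (-y - ∑ i, s i)) y := by
        unfold ph
        have h2 : HasDerivAt (fun y : ℝ => Real.exp (-y - ∑ i, s i)) (Real.exp (-y - ∑ i, s i) * (-1)) y := by
          have h3 : HasDerivAt (fun y : ℝ => -y - ∑ i, s i) (-1) y := by
            simpa using (hasDerivAt_id y).neg.sub_const (∑ i, s i)
          exact h3.exp
        have h4 := h2.const_sub (∑ i, q i * s i - ∑ i, Real.exp (s i))
        simpa using h4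
      have h5 := h1.exp
      rw [ph_sub_one] at h5
      exact h5)
  have h := key.2
  rw [integral_const_mul] at h
  exact h

/-- integration by parts in the direction `k` -/
lemma J_add_single (q : Fin m → ℝ) (k : Fin m) (x : ℝ) :
    J (fun i => q i + (if i = k then 1 else 0)) x =
      q k * J q x + Real.exp (-x) * J (fun i => q i - 1) x := by
  classical
  set f : (Fin m → ℝ) → ℝ := fun s => Real.exp (ph q x s) with hf
  set f' : (Fin m → ℝ) → ℝ := fun s => Real.exp (ph q x s) *
    (q k - Real.exp (s k) + Real.exp (-x - ∑ i, s i)) with hf'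
  have e1 : ∀ s : Fin m → ℝ, Real.exp (ph q x s) * Real.exp (s k) =
      Real.exp (ph (fun i => q i + (if i = k then 1 else 0)) x s) := by
    intro s
    rw [← Real.exp_add]
    congr 1
    unfold ph
    have : ∑ i, (q i + (if i = k then (1 : ℝ) else 0)) * s i = ∑ i, q i * s i + s k := by
      simp only [add_mul, sum_add_distrib, ite_mul, one_mul, zero_mul, sum_ite_eq', mem_univ, if_true]
    rw [this]; ring
  have e2 : ∀ s, f' s = q k * Real.exp (ph q x s)
      - Real.exp (ph (fun i => q i + (if i = k then 1 else 0)) x s)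
      + Real.exp (-x) * Real.exp (ph (fun i => q i - 1) x s) := by
    intro s
    rw [hf']
    simp only
    rw [← e1 s, ← ph_sub_one]; ring
  have hi' : Integrable f' := by
    have : f' = fun s => q k * Real.exp (ph q x s)
      - Real.exp (ph (fun i => q i + (if i = k then 1 else 0)) x s)
      + Real.exp (-x) * Real.exp (ph (fun i => q i - 1) x s) := funext e2
    rw [this]
    exact (((integrable_ph q x).const_mul _).sub (integrable_ph _ x)).add
      ((integrable_ph _ x).const_mul _)
  have hd : ∀ s : Fin m → ℝ, HasLineDerivAt ℝ f (f' s) s (Pi.single k 1) := by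
    intro s
    unfold HasLineDerivAt
    have hc : ∀ i, HasDerivAt (fun t : ℝ => (s + t • (Pi.single k (1 : ℝ) : Fin m → ℝ)) i)
        (if i = k then 1 else 0) 0 := by
      intro i
      by_cases h : i = k
      · subst h
        simpa using (hasDerivAt_id (0 : ℝ)).const_add (s i)
      · simp only [Pi.add_apply, Pi.smul_apply, Pi.single_eq_of_ne h, smul_zero, add_zero, if_neg h]
        exact hasDerivAt_const _ _
    have h0 : s + (0 : ℝ) • (Pi.single k (1 : ℝ) : Fin m → ℝ) = s := by simp
    have hsum : HasDerivAt (fun t : ℝ => ∑ i, (s + t • (Pi.single k (1 : ℝ) : Fin m → ℝ)) i) 1 0 := by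
      have := HasDerivAt.fun_sum (u := univ) (fun i _ => hc i)
      simpa using this
    have hq : HasDerivAt (fun t : ℝ => ∑ i, q i * (s + t • (Pi.single k (1 : ℝ) : Fin m → ℝ)) i) (q k) 0 := by
      have := HasDerivAt.fun_sum (u := univ) (fun i _ => (hc i).const_mul (q i))
      simpa using this
    have he : HasDerivAt (fun t : ℝ => ∑ i, Real.exp ((s + t • (Pi.single k (1 : ℝ) : Fin m → ℝ)) i))
        (Real.exp (s k)) 0 := by
      have := HasDerivAt.fun_sum (u := univ) (fun i _ => (hc i).exp)
      simp only [h0] at this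
      simpa using this
    have hl : HasDerivAt (fun t : ℝ => Real.exp (-x - ∑ i, (s + t • (Pi.single k (1 : ℝ) : Fin m → ℝ)) i))
        (Real.exp (-x - ∑ i, s i) * (-1)) 0 := by
      have := (hsum.const_sub (-x)).exp
      simp only [h0] at this
      exact this
    have hph : HasDerivAt (fun t : ℝ => ph q x (s + t • (Pi.single k (1 : ℝ) : Fin m → ℝ)))
        (q k - Real.exp (s k) - Real.exp (-x - ∑ i, s i) * (-1)) 0 := (hq.sub he).sub hl
    have := hph.exp
    simp only [h0] at this
    rw [hf, hf']
    refine HasDerivAt.congr_deriv this ?_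
    simp only
    ring
  have key := integral_bilinear_hasLineDerivAt_right_eq_neg_left_of_integrable
    (μ := (volume : Measure (Fin m → ℝ)))
    (f := f) (f' := f') (g := fun _ => (1 : ℝ)) (g' := fun _ => (0 : ℝ)) (v := Pi.single k 1)
    (B := ContinuousLinearMap.mul ℝ ℝ)
    (by simpa using hi') (by simp) (by simpa using integrable_ph q x)
    (fun s _ => hd s) (fun s _ => by
      unfold HasLineDerivAt
      exact hasDerivAt_const _ _)
  simp only [ContinuousLinearMap.mul_apply', mul_zero, integral_zero, mul_one] at key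
  have h3 : ∫ s, f' s = q k * J q x - J (fun i => q i + (if i = k then 1 else 0)) x
      + Real.exp (-x) * J (fun i => q i - 1) x := by
    have : f' = fun s => q k * Real.exp (ph q x s)
      - Real.exp (ph (fun i => q i + (if i = k then 1 else 0)) x s)
      + Real.exp (-x) * Real.exp (ph (fun i => q i - 1) x s) := funext e2
    have i1 := (integrable_ph q x).const_mul (q k)
    have i2 := integrable_ph (fun i => q i + (if i = k then 1 else 0)) x
    have i3 := (integrable_ph (fun i => q i - 1) x).const_mul (Real.exp (-x))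
    rw [this]
    have h4 := integral_add (i1.sub i2) i3
    have h5 := integral_sub i1 i2
    simp only [Pi.sub_apply] at h4
    rw [h4, h5, integral_const_mul, integral_const_mul]
    rfl
  linarith

end

end Pool.Agent.Helper22.Opp
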