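import Pool.Agent.Helper22.Opp.Jint

/-!
# The functions `K m j`: a solution of the equation `y^{(m+1)} = e^{-x} y` with positive derivatives
-/

set_option autoImplicit false

open MeasureTheory Real Finset Filter Topology

namespace Pool.Agent.Helper22.Opp

noncomputable section

variable {m : ℕ}

/-- indicator exponent -/
def ind (A : Finset (Fin m)) : Fin m → ℝ := fun i => if i ∈ A then 1 else 0

/-- the `j`-th derivative of the basic function, `j ≤ m + 1` -/
def K (m j : ℕ) (x : ℝ) : ℝ :=
  if j ≤ m then J (fun i : Fin m => if (i : ℕ) < j then (1 : ℝ) else 0) x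
  else Real.exp (-x) * J (fun _ : Fin m => (0 : ℝ)) x

lemma K_zero (m : ℕ) (x : ℝ) : K m 0 x = J (fun _ : Fin m => (0 : ℝ)) x := by
  simp [K]

lemma K_last (m : ℕ) (x : ℝ) : K m (m + 1) x = Real.exp (-x) * K m 0 x := by
  rw [K_zero]; simp [K]

lemma K_pos (m j : ℕ) (x : ℝ) : 0 < K m j x := by
  unfold K
  split_ifs
  · exact J_pos _ _
  · exact mul_pos (Real.exp_pos _) (J_pos _ _)

lemma hasDerivAt_K {j : ℕ} (hj : j ≤ m) (x : ℝ) : HasDerivAt (K m j) (K m (j + 1) x) x := by
  have h0 : K m j = J (fun i : Fin m => if (i : ℕ) < j then (1 : ℝ) else 0) := by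
    funext y; simp [K, hj]
  rw [h0]
  have h := hasDerivAt_J (fun i : Fin m => if (i : ℕ) < j then (1 : ℝ) else 0) x
  rcases Nat.lt_or_ge j m with h1 | h1
  · have h2 := J_add_single (fun i : Fin m => if (i : ℕ) < j then (1 : ℝ) else 0) ⟨j, h1⟩ x
    simp only [lt_irrefl, if_false, zero_mul, zero_add] at h2
    rw [← h2] at h
    have h3 : K m (j + 1) x = J (fun i : Fin m => (if (i : ℕ) < j then (1 : ℝ) else 0) +
        (if i = ⟨j, h1⟩ then 1 else 0)) x := by
      have h4 : j + 1 ≤ m := h1
      simp only [K, h4, if_true]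
      congr 1
      funext i
      by_cases h5 : (i : ℕ) < j
      · have h6 : i ≠ ⟨j, h1⟩ := fun h => by rw [h] at h5; exact lt_irrefl _ h5
        rw [if_pos (by omega), if_pos h5, if_neg h6, add_zero]
      · by_cases h6 : i = ⟨j, h1⟩
        · subst h6; simp
        · have h7 : (i : ℕ) ≠ j := fun h => h6 (Fin.ext h)
          rw [if_neg (by omega), if_neg h5, if_neg h6, add_zero]
    rw [h3]
    exact h
  · have h2 : j = m := le_antisymm hj h1
    subst h2
    have h3 : K j (j + 1) x = Real.exp (-x) * J (fun _ : Fin j => (0 : ℝ)) x := by simp [K]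
    rw [h3]
    have h4 : (fun i : Fin j => (if (i : ℕ) < j then (1 : ℝ) else 0) - 1) = fun _ => 0 := by
      funext i; simp [i.2]
    rw [h4] at h
    exact h

lemma J_ind (A : Finset (Fin m)) : ∀ x, J (ind A) x = K m A.card x := by
  classical
  induction A using Finset.induction_on with
  | empty =>
    intro x
    rw [card_empty, K_zero]
    congr 1
  | insert k A hk ih =>
    intro x
    have h1 := J_add_single (ind A) k x
    have h2 : (fun i => ind A i + (if i = k then (1 : ℝ) else 0)) = ind (insert k A) := by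
      funext i
      unfold ind
      by_cases h : i = k
      · subst h; simp [hk]
      · simp [h]
    have h3 : ind A k = 0 := by simp [ind, hk]
    rw [h2, h3, zero_mul, zero_add] at h1
    rw [h1, card_insert_of_notMem hk]
    have h4 := hasDerivAt_J (ind A) x
    have h5 : J (ind A) = K m A.card := funext ih
    rw [h5] at h4
    have hc : A.card ≤ m := by
      have := card_le_univ A
      simpa using this
    exact h4.unique (hasDerivAt_K hc x)

lemma J_ind_sub (A : Finset (Fin m)) (x : ℝ) :
    Real.exp (-x) * J (fun i => ind A i - 1) x = K m (A.card + 1) x := by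
  have h4 := hasDerivAt_J (ind A) x
  have h5 : J (ind A) = K m A.card := funext (J_ind A)
  rw [h5] at h4
  have hc : A.card ≤ m := by
    have := card_le_univ A
    simpa using this
  exact h4.unique (hasDerivAt_K hc x)

/-- arithmetic-geometric mean -/
lemma amgm {R x : ℝ} (hR : 0 < R) (hx : x ≤ -((m : ℝ) + 1) * Real.log R) (s : Fin m → ℝ) :
    ((m : ℝ) + 1) * R ≤ ∑ i, Real.exp (s i) + Real.exp (-x - ∑ i, s i) := by
  have h1 : ∀ y : ℝ, R * (1 + y - Real.log R) ≤ Real.exp y := by
    intro y
    have h2 := Real.add_one_le_exp (y - Real.log R)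
    have h3 : Real.exp y = R * Real.exp (y - Real.log R) := by
      rw [Real.exp_sub, Real.exp_log hR]; field_simp
    rw [h3]
    exact mul_le_mul_of_nonneg_left (by linarith) hR.le
  have h2 : ∑ i, R * (1 + s i - Real.log R) ≤ ∑ i, Real.exp (s i) := sum_le_sum fun i _ => h1 _
  have h3 := h1 (-x - ∑ i, s i)
  have h4 : ∑ i, R * (1 + s i - Real.log R) = R * (m + ∑ i, s i - m * Real.log R) := by
    rw [← mul_sum, sum_sub_distrib, sum_add_distrib]
    simp
  rw [h4] at h2
  have h5 : R * (m + ∑ i, s i - m * Real.log R) + R * (1 + (-x - ∑ i, s i) - Real.log R) =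
      R * (m + 1 + (-x - (m + 1) * Real.log R)) := by ring
  have h6 : ((m : ℝ) + 1) * R ≤ R * (m + 1 + (-x - (m + 1) * Real.log R)) := by
    rw [mul_comm]
    exact mul_le_mul_of_nonneg_left (by linarith) hR.le
  linarith

lemma K_amgm {R x : ℝ} (hR : 0 < R) (hx : x ≤ -((m : ℝ) + 1) * Real.log R) {j : ℕ} (hj : j ≤ m) :
    ((m : ℝ) + 1) * R * K m j x ≤ ((m : ℝ) + 1) * K m (j + 1) x + j * K m j x := by
  classical
  obtain ⟨A, hA⟩ : ∃ A : Finset (Fin m), A.card = j := by
    obtain ⟨A, -, hA⟩ := exists_subset_card_eq (s := (univ : Finset (Fin m))) (n := j) (by simpa using hj)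
    exact ⟨A, hA⟩
  have hint : ∀ k : Fin m, Integrable (fun s : Fin m → ℝ => Real.exp (ph (ind A) x s) * Real.exp (s k)) := by
    intro k
    refine (integrable_ph (fun i => ind A i + (if i = k then 1 else 0)) x).congr
      (Filter.Eventually.of_forall fun s => ?_)
    simp only
    rw [← Real.exp_add]
    congr 1
    unfold ph
    have : ∑ i, (ind A i + (if i = k then (1 : ℝ) else 0)) * s i = ∑ i, ind A i * s i + s k := by
      simp only [add_mul, sum_add_distrib, ite_mul, one_mul, zero_mul, sum_ite_eq', mem_univ, if_true]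
    rw [this]; ring
  have hval : ∀ k : Fin m, ∫ s : Fin m → ℝ, Real.exp (ph (ind A) x s) * Real.exp (s k) =
      ind A k * K m j x + K m (j + 1) x := by
    intro k
    have h1 := J_add_single (ind A) k x
    rw [J_ind, J_ind_sub, hA] at h1
    rw [← h1]
    unfold J
    congr 1
    funext s
    rw [← Real.exp_add]
    congr 1
    unfold ph
    have : ∑ i, (ind A i + (if i = k then (1 : ℝ) else 0)) * s i = ∑ i, ind A i * s i + s k := by
      simp only [add_mul, sum_add_distrib, ite_mul, one_mul, zero_mul, sum_ite_eq', mem_univ, if_true]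
    rw [this]; ring
  have hint0 : Integrable (fun s : Fin m → ℝ => Real.exp (ph (ind A) x s) * Real.exp (-x - ∑ i, s i)) := by
    refine ((integrable_ph (fun i => ind A i - 1) x).const_mul (Real.exp (-x))).congr
      (Filter.Eventually.of_forall fun s => ?_)
    simp only
    rw [ph_sub_one]
  have hval0 : ∫ s : Fin m → ℝ, Real.exp (ph (ind A) x s) * Real.exp (-x - ∑ i, s i) = K m (j + 1) x := by
    rw [← hA, ← J_ind_sub]
    unfold J
    rw [← integral_const_mul]
    congr 1
    funext s
    rw [ph_sub_one]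
  have hle : ∫ s : Fin m → ℝ, ((m : ℝ) + 1) * R * Real.exp (ph (ind A) x s) ≤
      ∫ s : Fin m → ℝ, (∑ k, Real.exp (ph (ind A) x s) * Real.exp (s k) +
        Real.exp (ph (ind A) x s) * Real.exp (-x - ∑ i, s i)) := by
    refine integral_mono ((integrable_ph _ x).const_mul _) ((integrable_finsetSum _ fun k _ => hint k).add hint0) ?_
    intro s
    simp only
    rw [← mul_sum, ← mul_add, mul_comm]
    exact mul_le_mul_of_nonneg_left (amgm hR hx s) (Real.exp_pos _).le
  rw [integral_const_mul, integral_add (integrable_finsetSum _ fun k _ => hint k) hint0,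
    integral_finsetSum _ (fun k _ => hint k), hval0] at hle
  simp only [hval] at hle
  have h9 : ∑ k : Fin m, ind A k = j := by
    unfold ind
    simp [hA]
  rw [sum_add_distrib, ← sum_mul, h9] at hle
  have h10 : ∫ s : Fin m → ℝ, Real.exp (ph (ind A) x s) = K m j x := by
    rw [← hA, ← J_ind]; rfl
  rw [h10] at hle
  simp only [sum_const, card_univ, Fintype.card_fin, nsmul_eq_mul] at hle
  linarith

end

end Pool.Agent.Helper22.Opp
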