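import Pool.Agent.Helper22.Opp.Orb

/-!
# Lattices with nonvanishing norm form: uniform bounds over the diagonal group
-/

set_option autoImplicit false

open MeasureTheory Real Finset Filter Topology

namespace Pool.Agent.Helper22.Opp

noncomputable section

variable {m : ℕ}

lemma act_smul (τ : Fin m → ℝ) (a : ℝ) (y : Fin (m + 1) → ℝ) : act τ (a • y) = a • act τ y := by
  funext i
  unfold act
  simp only [Pi.smul_apply, smul_eq_mul]; ring

lemma act_sub (τ : Fin m → ℝ) (y z : Fin (m + 1) → ℝ) : act τ (y - z) = act τ y - act τ z := by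
  funext i
  unfold act
  simp only [Pi.sub_apply]; ring

lemma act_zero (τ : Fin m → ℝ) : act τ (0 : Fin (m + 1) → ℝ) = 0 := by
  funext i
  unfold act
  simp

lemma zr_zero {n : ℕ} : zr (0 : Fin n → ℤ) = 0 := by funext i; simp [zr]

lemma zr_sub {n : ℕ} (p p' : Fin n → ℤ) : zr p - zr p' = zr (p - p') := by
  funext i; simp [zr]

/-- the product of the coordinates is at most the power of the sup norm -/
lemma prod_le_norm {n : ℕ} (y : Fin n → ℝ) : |∏ i, y i| ≤ ‖y‖ ^ n := by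
  rw [abs_prod]
  calc ∏ i, |y i| ≤ ∏ _i : Fin n, ‖y‖ := prod_le_prod (fun _ _ => abs_nonneg _) fun i _ => norm_le_pi_norm y i
    _ = _ := by simp

lemma norm_ge_of_prod {y : Fin (m + 1) → ℝ} {ρ : ℝ} (h : ρ ^ (m + 1) ≤ |∏ i, y i|) :
    ρ ≤ ‖y‖ := by
  by_contra hlt
  push Not at hlt
  have h1 := prod_le_norm y
  have h2 : ‖y‖ ^ (m + 1) < ρ ^ (m + 1) := pow_lt_pow_left₀ hlt (norm_nonneg _) (by omega)
  linarith

/-- if every translate by the diagonal group is large then so is the product -/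
lemma prod_ge_of_norm {y : Fin (m + 1) → ℝ} {ρ : ℝ} (hρ : 0 < ρ) (h : ∀ τ : Fin m → ℝ, ρ ≤ ‖act τ y‖) :
    ρ ^ (m + 1) ≤ |∏ i, y i| := by
  have key : ∀ η : ℝ, 0 < η → ρ ^ (m + 1) ≤ ∏ i, (|y i| + η) := by
    intro η hη
    set z : Fin (m + 1) → ℝ := fun i => |y i| + η with hz
    have hz0 : ∀ i, 0 < z i := fun i => by have := abs_nonneg (y i); simp only [hz]; linarith
    set ℓ : ℝ := (∑ i, Real.log (z i)) / (m + 1) with hℓ
    have hm : (0 : ℝ) < (m : ℝ) + 1 := by positivity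
    have hℓ' : ∑ i, Real.log (z i) = (m + 1) * ℓ := by rw [hℓ]; field_simp
    set τ : Fin m → ℝ := fun i => ℓ - Real.log (z i.succ) with hτ
    have hex : ∀ i, ex τ i = ℓ - Real.log (z i) := by
      intro i
      refine Fin.cases ?_ (fun j => ?_) i
      · rw [ex_zero, hτ]
        simp only [sum_sub_distrib, sum_const, card_univ, Fintype.card_fin, nsmul_eq_mul]
        rw [Fin.sum_univ_succ] at hℓ'
        linarith
      · rw [ex_succ]
    have hb : ‖act τ y‖ ≤ Real.exp ℓ := by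
      rw [pi_norm_le_iff_of_nonneg (Real.exp_pos _).le]
      intro i
      unfold act
      rw [hex, Real.norm_eq_abs, abs_mul, abs_of_pos (Real.exp_pos _), Real.exp_sub, Real.exp_log (hz0 i),
        div_mul_eq_mul_div, div_le_iff₀ (hz0 i)]
      refine mul_le_mul_of_nonneg_left ?_ (Real.exp_pos _).le
      simp only [hz]; linarith
    have h1 := (h τ).trans hb
    calc ρ ^ (m + 1) ≤ Real.exp ℓ ^ (m + 1) := pow_le_pow_left₀ hρ.le h1 _
      _ = ∏ i, z i := by
          rw [← Real.exp_nat_mul]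
          push_cast
          rw [← hℓ', Real.exp_sum]
          exact prod_congr rfl fun i _ => Real.exp_log (hz0 i)
  have hcont : Continuous (fun η : ℝ => ∏ i, (|y i| + η)) := by fun_prop
  have hlim : Tendsto (fun η : ℝ => ∏ i, (|y i| + η)) (𝓝[>] 0) (𝓝 (∏ i, (|y i| + 0))) :=
    (hcont.tendsto 0).mono_left nhdsWithin_le_nhds
  have h2 := ge_of_tendsto hlim (Filter.eventually_of_mem self_mem_nhdsWithin fun η hη => key η hη)
  rw [abs_prod]
  simpa using h2

/-- exponential of the distance to the centre -/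
lemma exp_psi_le {y : Fin (m + 1) → ℝ} {ν : ℝ} (hν : 0 < ν) (h : ν ≤ |∏ i, y i|) :
    Real.exp (2 * psi y) ≤ Real.exp ((2 * m * (m + 1)) ^ 2 / π + 2 * m * |Real.log ν|) *
      Real.exp (π / 4 * ∑ i, y i ^ 2) := by
  have hne : ∀ i, y i ≠ 0 := by
    intro i hi
    rw [prod_eq_zero (mem_univ i) hi, abs_zero] at h
    linarith
  set r := ‖y‖ with hr
  have hr0 : 0 ≤ r := norm_nonneg _
  have hy : ∀ i, |y i| ≤ r := fun i => norm_le_pi_norm y i
  have hpos : ∀ i, 0 < |y i| := fun i => abs_pos.2 (hne i)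
  have hlog : ∀ i, Real.log (|y i|) ≤ r := fun i => by
    have := Real.log_le_sub_one_of_pos (hpos i)
    linarith [hy i]
  have hlp : Real.log ν ≤ ∑ i, Real.log (|y i|) := by
    rw [← Real.log_prod (fun i _ => (hpos i).ne'), ← abs_prod]
    exact Real.log_le_log hν h
  have hneg : ∀ i, -Real.log (|y i|) ≤ m * r + |Real.log ν| := by
    intro i
    have h1 : ∑ j, Real.log (|y j|) = Real.log (|y i|) + ∑ j ∈ univ.erase i, Real.log (|y j|) :=
      (add_sum_erase univ _ (mem_univ i)).symm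
    have h2 : ∑ j ∈ univ.erase i, Real.log (|y j|) ≤ ∑ _j ∈ univ.erase i, r := sum_le_sum fun j _ => hlog j
    rw [sum_const, card_erase_of_mem (mem_univ i), card_univ, Fintype.card_fin, nsmul_eq_mul] at h2
    simp only [Nat.add_sub_cancel] at h2
    have h3 := neg_abs_le (Real.log ν)
    linarith
  have habs : ∀ i, |Real.log (|y i|)| ≤ (m + 1) * r + |Real.log ν| := by
    intro i
    have h0 := abs_nonneg (Real.log ν)
    have hm : (0 : ℝ) ≤ m := Nat.cast_nonneg m
    have h1 := hlog i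
    have h2 := hneg i
    have h3 : 0 ≤ (m : ℝ) * r := mul_nonneg hm hr0
    rw [abs_le]
    constructor <;> nlinarith
  have hpsi : psi y ≤ m * ((m + 1) * r + |Real.log ν|) := by
    unfold psi
    calc ∑ i : Fin m, |Real.log (|y i.succ|)| ≤ ∑ _i : Fin m, ((m + 1) * r + |Real.log ν|) :=
          sum_le_sum fun i _ => habs _
      _ = _ := by simp only [sum_const, card_univ, Fintype.card_fin, nsmul_eq_mul]
  have hr2 : r ^ 2 ≤ ∑ i, y i ^ 2 := by
    obtain ⟨i, hi⟩ : ∃ i, r = |y i| := by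
      obtain ⟨i, -, hi⟩ := exists_mem_eq_sup' (s := (univ : Finset (Fin (m + 1)))) univ_nonempty (fun i => ‖y i‖₊)
      refine ⟨i, ?_⟩
      rw [hr, Pi.norm_def]
      have : (univ.sup fun b => ‖y b‖₊) = ‖y i‖₊ := by rw [← hi, sup'_eq_sup]
      rw [this]; rfl
    rw [hi, sq_abs]
    exact single_le_sum (f := fun i => y i ^ 2) (fun _ _ => sq_nonneg _) (mem_univ i)
  rw [← Real.exp_add]
  apply Real.exp_le_exp.2
  have hπ := Real.pi_pos
  set k : ℝ := 2 * m * (m + 1) with hk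
  have h5 : k * r ≤ k ^ 2 / π + π / 4 * r ^ 2 := by
    have : 0 ≤ (k - π / 2 * r) ^ 2 / π := by positivity
    have e : (k - π / 2 * r) ^ 2 / π = k ^ 2 / π + π / 4 * r ^ 2 - k * r := by
      field_simp; ring
    linarith
  have h6 : π / 4 * r ^ 2 ≤ π / 4 * ∑ i, y i ^ 2 := by gcongr
  have h7 : 2 * psi y ≤ k * r + 2 * m * |Real.log ν| := by
    calc 2 * psi y ≤ 2 * (m * ((m + 1) * r + |Real.log ν|)) := by linarith
      _ = _ := by rw [hk]; ring
  linarith

/-- the diagonal matrix times `M` -/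
def BM (τ : Fin m → ℝ) (M : Matrix (Fin (m + 1)) (Fin (m + 1)) ℝ) : Matrix (Fin (m + 1)) (Fin (m + 1)) ℝ :=
  Matrix.diagonal (fun i => Real.exp (ex τ i)) * M

lemma BM_mulVec (τ : Fin m → ℝ) (M : Matrix (Fin (m + 1)) (Fin (m + 1)) ℝ) (x : Fin (m + 1) → ℝ) :
    (BM τ M).mulVec x = act τ (M.mulVec x) := by
  unfold BM
  rw [← Matrix.mulVec_mulVec]
  funext i
  rw [Matrix.mulVec_diagonal]
  rfl

lemma BM_det (τ : Fin m → ℝ) (M : Matrix (Fin (m + 1)) (Fin (m + 1)) ℝ) : (BM τ M).det = M.det := by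
  unfold BM
  rw [Matrix.det_mul, Matrix.det_diagonal, ← Real.exp_sum, sum_ex, Real.exp_zero, one_mul]

lemma ex_neg (τ : Fin m → ℝ) (i : Fin (m + 1)) : ex (-τ) i = -ex τ i := by
  refine Fin.cases ?_ (fun j => ?_) i
  · rw [ex_zero, ex_zero]; simp
  · rw [ex_succ, ex_succ]; simp

lemma BM_inv_tr (τ : Fin m → ℝ) (M : Matrix (Fin (m + 1)) (Fin (m + 1)) ℝ) :
    ((BM τ M)⁻¹).transpose = BM (-τ) (M⁻¹).transpose := by
  unfold BM
  rw [Matrix.mul_inv_rev, Matrix.transpose_mul]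
  congr 1
  have h : (Matrix.diagonal (fun i => Real.exp (ex τ i)))⁻¹ =
      Matrix.diagonal (fun i => Real.exp (ex (-τ) i)) := by
    apply Matrix.inv_eq_right_inv
    rw [Matrix.diagonal_mul_diagonal]
    have : (fun i => Real.exp (ex τ i) * Real.exp (ex (-τ) i)) = fun _ => (1 : ℝ) := by
      funext i
      rw [← Real.exp_add, ex_neg]; simp
    rw [this, Matrix.diagonal_one]
  rw [h, Matrix.diagonal_transpose]

/-- Poisson summation for the translates of a lattice -/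
lemma poisson_act (M : Matrix (Fin (m + 1)) (Fin (m + 1)) ℝ) (hM : M.det ≠ 0) (A : Fin (m + 1) → ℕ)
    (τ : Fin m → ℝ) :
    ∑' p : Fin (m + 1) → ℤ, FA A (act τ (M.mulVec (zr p))) =
      |M.det|⁻¹ * ∑' k : Fin (m + 1) → ℤ, FB A (act (-τ) ((M⁻¹).transpose.mulVec (zr k))) := by
  have h := poisson_FA (BM τ M) (by rw [BM_det]; exact hM) A
  simp only [BM_inv_tr, BM_mulVec, BM_det] at h
  exact h

/-- uniform lower bound for the sup norm -/
def Unif (M : Matrix (Fin (m + 1)) (Fin (m + 1)) ℝ) (ρ : ℝ) : Prop :=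
  ∀ (τ : Fin m → ℝ) (p : Fin (m + 1) → ℤ), p ≠ 0 → ρ ≤ ‖act τ (M.mulVec (zr p))‖

lemma Unif.sep {M : Matrix (Fin (m + 1)) (Fin (m + 1)) ℝ} {ρ : ℝ} (h : Unif M ρ) (τ : Fin m → ℝ)
    (p p' : Fin (m + 1) → ℤ) (hp : p ≠ p') :
    ρ ≤ ‖act τ (M.mulVec (zr p)) - act τ (M.mulVec (zr p'))‖ := by
  rw [← act_sub, ← Matrix.mulVec_sub, zr_sub]
  exact h τ _ (sub_ne_zero.2 hp)

lemma Unif.prod {M : Matrix (Fin (m + 1)) (Fin (m + 1)) ℝ} {ρ : ℝ} (hρ : 0 < ρ) (h : Unif M ρ)
    (p : Fin (m + 1) → ℤ) (hp : p ≠ 0) : ρ ^ (m + 1) ≤ |∏ i, M.mulVec (zr p) i| :=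
  prod_ge_of_norm hρ fun τ => h τ p hp

lemma unif_of_prod {M : Matrix (Fin (m + 1)) (Fin (m + 1)) ℝ} {ν : ℝ} (hν : 0 < ν)
    (h : ∀ p : Fin (m + 1) → ℤ, p ≠ 0 → ν ≤ |∏ i, M.mulVec (zr p) i|) :
    ∃ ρ : ℝ, 0 < ρ ∧ Unif M ρ := by
  refine ⟨min ν 1, lt_min hν one_pos, fun τ p hp => norm_ge_of_prod ?_⟩
  rw [prod_act]
  refine le_trans ?_ (h p hp)
  have h0 : 0 ≤ min ν 1 := (lt_min hν one_pos).le
  calc (min ν 1) ^ (m + 1) ≤ min ν 1 := pow_le_of_le_one h0 (min_le_right _ _) (by omega)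
    _ ≤ ν := min_le_left _ _

lemma FA_false {n : ℕ} (y : Fin n → ℝ) : FA (fun _ => 0) y = Real.exp (-(π * ∑ i, y i ^ 2)) := by
  unfold FA
  simp only [hf_false]
  unfold ga
  rw [← Real.exp_sum, sum_neg_distrib, mul_sum]

lemma FB_false {n : ℕ} (y : Fin n → ℝ) : FB (fun _ => 0) y = Real.exp (-(π * ∑ i, y i ^ 2)) := by
  unfold FB
  simp only [hg_false]
  unfold ga
  rw [← Real.exp_sum, sum_neg_distrib, mul_sum]

/-- the dual lattice also stays away from `0` under the diagonal group -/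
lemma dual_unif {M : Matrix (Fin (m + 1)) (Fin (m + 1)) ℝ} (hM : M.det ≠ 0) {ρ : ℝ} (hρ : 0 < ρ)
    (h : Unif M ρ) : ∃ ρ' : ℝ, 0 < ρ' ∧ Unif (M⁻¹).transpose ρ' := by
  set D := (M⁻¹).transpose with hD
  set C := |M.det| * packC (m + 1) ρ π with hC
  have hC0 : 0 ≤ C := mul_nonneg (abs_nonneg _) (packC_nonneg _ hρ)
  have hdet : 0 < |M.det| := abs_pos.2 hM
  -- uniform bound for the dual theta function
  have hb : ∀ τ : Fin m → ℝ, ∑' k : Fin (m + 1) → ℤ, Real.exp (-(π * ∑ i, act τ (D.mulVec (zr k)) i ^ 2)) ≤ C := by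
    intro τ
    have h1 := poisson_act M hM (fun _ => 0) (-τ)
    simp only [FA_false, FB_false, neg_neg] at h1
    have h2 := pack_tsum (c := π) hρ Real.pi_pos (fun p : Fin (m + 1) → ℤ => act (-τ) (M.mulVec (zr p)))
      (h.sep (-τ))
    rw [h1] at h2
    rw [inv_mul_le_iff₀ hdet] at h2
    exact h2
  have hDdet : D.det ≠ 0 := by
    rw [hD, Matrix.det_transpose, Matrix.det_nonsing_inv, Ring.inverse_eq_inv']
    exact inv_ne_zero hM
  obtain ⟨N, hN⟩ := exists_nat_gt (C * Real.exp π)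
  have hN0 : (0 : ℝ) < N := lt_of_le_of_lt (by positivity) hN
  have hm1 : (0 : ℝ) < (m : ℝ) + 1 := by positivity
  refine ⟨1 / (N * (m + 1)), by positivity, fun τ k hk => ?_⟩
  by_contra hlt
  push Not at hlt
  set y := act τ (D.mulVec (zr k)) with hy
  have hsq : ∑ i, y i ^ 2 ≤ 1 / N ^ 2 := by
    have h1 : ∀ i, y i ^ 2 ≤ (1 / (N * (m + 1))) ^ 2 := by
      intro i
      have h2 := (norm_le_pi_norm y i).trans hlt.le
      rw [Real.norm_eq_abs] at h2
      exact sq_le_sq' (by linarith [neg_abs_le (y i)]) (by linarith [le_abs_self (y i)])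
    calc ∑ i, y i ^ 2 ≤ ∑ _i : Fin (m + 1), (1 / (N * (m + 1) : ℝ)) ^ 2 := sum_le_sum fun i _ => h1 i
      _ = (1 / N ^ 2) * (1 / (m + 1)) := by
          simp only [sum_const, card_univ, Fintype.card_fin, nsmul_eq_mul]
          push_cast
          field_simp
      _ ≤ (1 / N ^ 2) * 1 := by
          refine mul_le_mul_of_nonneg_left ?_ (by positivity)
          rw [div_le_one hm1]
          have : (0 : ℝ) ≤ m := Nat.cast_nonneg m
          linarith
      _ = _ := mul_one _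
  -- multiples
  have hinj : Function.Injective (fun j : ℕ => (fun i => (j : ℤ) * k i : Fin (m + 1) → ℤ)) := by
    intro j j' hjj
    obtain ⟨i, hi⟩ := Function.ne_iff.1 hk
    have := congrFun hjj i
    simp only at this
    have h3 := mul_right_cancel₀ hi this
    exact_mod_cast h3
  -- summability of the dual theta series
  have hS : Summable (fun k : Fin (m + 1) → ℤ => Real.exp (-(π * ∑ i, act τ (D.mulVec (zr k)) i ^ 2))) := by
    obtain ⟨b, hb0, hb⟩ := quad_lower (BM τ D) (by rw [BM_det]; exact hDdet)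
    refine (pack_summable (c := π * b) one_pos (by positivity) zr zr_sep).of_nonneg_of_le
      (fun _ => (Real.exp_pos _).le) fun k => ?_
    apply Real.exp_le_exp.2
    have := hb (zr k)
    rw [BM_mulVec] at this
    have hπ := Real.pi_pos
    nlinarith
  have h4 : ∑ j ∈ range N, Real.exp (-(π * ∑ i, act τ (D.mulVec (zr (fun i => (j : ℤ) * k i))) i ^ 2)) ≤ C := by
    have h5 := hS.sum_le_tsum ((range N).map ⟨_, hinj⟩) (fun _ _ => (Real.exp_pos _).le)
    rw [sum_map] at h5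
    exact h5.trans (hb τ)
  have h6 : ∀ j ∈ range N, Real.exp (-π) ≤
      Real.exp (-(π * ∑ i, act τ (D.mulVec (zr (fun i => (j : ℤ) * k i))) i ^ 2)) := by
    intro j hj
    rw [mem_range] at hj
    apply Real.exp_le_exp.2
    have h7 : zr (fun i => (j : ℤ) * k i) = (j : ℝ) • zr k := by
      funext i; simp [zr]
    rw [h7, Matrix.mulVec_smul, act_smul, ← hy]
    have h8 : ∑ i, ((j : ℝ) • y) i ^ 2 = j ^ 2 * ∑ i, y i ^ 2 := by
      rw [mul_sum]
      exact sum_congr rfl fun i _ => by simp only [Pi.smul_apply, smul_eq_mul]; ring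
    rw [h8]
    have h9 : (j : ℝ) ≤ N := by exact_mod_cast hj.le
    have h10 : (j : ℝ) ^ 2 * ∑ i, y i ^ 2 ≤ 1 := by
      calc (j : ℝ) ^ 2 * ∑ i, y i ^ 2 ≤ N ^ 2 * (1 / N ^ 2) := by
            refine mul_le_mul (pow_le_pow_left₀ (Nat.cast_nonneg _) h9 2) hsq
              (sum_nonneg fun _ _ => sq_nonneg _) (by positivity)
        _ = 1 := by field_simp
    nlinarith [Real.pi_pos]
  have h11 := (sum_le_sum h6).trans h4
  rw [sum_const, card_range, nsmul_eq_mul, Real.exp_neg] at h11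
  have h12 : (N : ℝ) ≤ C * Real.exp π := by
    have hp := Real.exp_pos π
    rw [← div_eq_mul_inv, div_le_iff₀ hp] at h11
    exact h11
  linarith

end

end Pool.Agent.Helper22.Opp
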