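import Pool.Agent.Helper22.Opp.Poisson

/-!
# The test functions, their Fourier transforms, and Poisson summation for lattices
-/

set_option autoImplicit false

open MeasureTheory Real Finset Filter Topology
open scoped FourierTransform

namespace Pool.Agent.Helper22.Opp

noncomputable section

/-- the Gaussian -/
def ga (t : ℝ) : ℝ := Real.exp (-(π * t ^ 2))

lemma ga_pos (t : ℝ) : 0 < ga t := Real.exp_pos _

lemma continuous_ga : Continuous ga := by unfold ga; fun_prop

lemma hasDerivAt_ga (t : ℝ) : HasDerivAt ga (-(2 * π * t) * ga t) t := by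
  unfold ga
  have h1 : HasDerivAt (fun t : ℝ => -(π * t ^ 2)) (-(π * (2 * t))) t := by
    have := ((hasDerivAt_pow 2 t).const_mul π).fun_neg
    simpa using this
  have h2 := h1.exp
  refine h2.congr_deriv ?_
  ring

/-- polynomial times Gaussian -/
def gp (p : Polynomial ℝ) (t : ℝ) : ℝ := p.eval t * ga t

/-- the derivative of a polynomial times the Gaussian -/
def dl (p : Polynomial ℝ) : Polynomial ℝ :=
  Polynomial.derivative p - Polynomial.C (2 * π) * Polynomial.X * p

lemma continuous_gp (p : Polynomial ℝ) : Continuous (gp p) := p.continuous.mul continuous_ga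

lemma hasDerivAt_gp (p : Polynomial ℝ) (t : ℝ) : HasDerivAt (gp p) (gp (dl p) t) t := by
  unfold gp dl
  refine ((p.hasDerivAt t).mul (hasDerivAt_ga t)).congr_deriv ?_
  simp only [Polynomial.eval_sub, Polynomial.eval_mul, Polynomial.eval_C, Polynomial.eval_X]
  ring

lemma pow_bound (n : ℕ) (t : ℝ) : |t| ^ n ≤ (1 + (n.factorial : ℝ)) * Real.exp (π / 2 * t ^ 2) := by
  have h0 : 0 ≤ |t| := abs_nonneg t
  have h1 : |t| ^ n ≤ 1 + (t ^ 2) ^ n := by
    rcases le_total |t| 1 with h | h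
    · have := pow_le_one₀ (n := n) h0 h
      have h2 : 0 ≤ (t ^ 2) ^ n := by positivity
      linarith
    · have h2 : |t| ^ n ≤ |t| ^ (2 * n) := pow_le_pow_right₀ h (by omega)
      rw [pow_mul, sq_abs] at h2
      linarith
  have h2 : (t ^ 2) ^ n ≤ (n.factorial : ℝ) * Real.exp (t ^ 2) := by
    have := Real.pow_div_factorial_le_exp (t ^ 2) (sq_nonneg t) n
    rwa [div_le_iff₀ (by exact_mod_cast n.factorial_pos), mul_comm] at this
  have h3 : Real.exp (t ^ 2) ≤ Real.exp (π / 2 * t ^ 2) := by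
    apply Real.exp_le_exp.2
    have := Real.pi_gt_three
    nlinarith [sq_nonneg t]
  have h4 : 1 ≤ Real.exp (π / 2 * t ^ 2) := Real.one_le_exp (by positivity)
  calc |t| ^ n ≤ 1 + (n.factorial : ℝ) * Real.exp (t ^ 2) := by linarith
    _ ≤ Real.exp (π / 2 * t ^ 2) + (n.factorial : ℝ) * Real.exp (π / 2 * t ^ 2) := by
        have : (0 : ℝ) ≤ n.factorial := Nat.cast_nonneg _
        have := mul_le_mul_of_nonneg_left h3 this
        linarith
    _ = _ := by ring

lemma gp_bound (p : Polynomial ℝ) : ∃ C : ℝ, 0 ≤ C ∧ ∀ t, |gp p t| ≤ C * Real.exp (-(π / 2 * t ^ 2)) := by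
  have hp : ∃ C : ℝ, 0 ≤ C ∧ ∀ t, |p.eval t| ≤ C * Real.exp (π / 2 * t ^ 2) := by
    induction p using Polynomial.induction_on' with
    | add p q hp hq =>
      obtain ⟨C, hC, h⟩ := hp
      obtain ⟨C', hC', h'⟩ := hq
      refine ⟨C + C', by positivity, fun t => ?_⟩
      rw [Polynomial.eval_add, add_mul]
      exact (abs_add_le _ _).trans (add_le_add (h t) (h' t))
    | monomial n a =>
      refine ⟨|a| * (1 + (n.factorial : ℝ)), by positivity, fun t => ?_⟩
      rw [Polynomial.eval_monomial, abs_mul, abs_pow, mul_assoc]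
      exact mul_le_mul_of_nonneg_left (pow_bound n t) (abs_nonneg _)
  obtain ⟨C, hC, h⟩ := hp
  refine ⟨C, hC, fun t => ?_⟩
  have h2 : ga t = Real.exp (-(π / 2 * t ^ 2)) * Real.exp (-(π / 2 * t ^ 2)) := by
    unfold ga; rw [← Real.exp_add]; congr 1; ring
  have h3 : Real.exp (π / 2 * t ^ 2) * Real.exp (-(π / 2 * t ^ 2)) = 1 := by
    rw [← Real.exp_add]; simp
  unfold gp
  rw [abs_mul, abs_of_pos (ga_pos t)]
  calc |p.eval t| * ga t ≤ (C * Real.exp (π / 2 * t ^ 2)) * ga t :=
        mul_le_mul_of_nonneg_right (h t) (ga_pos t).le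
    _ = C * (Real.exp (π / 2 * t ^ 2) * Real.exp (-(π / 2 * t ^ 2))) * Real.exp (-(π / 2 * t ^ 2)) := by
        rw [h2]; ring
    _ = _ := by rw [h3]; ring

lemma integrable_of_bound {f : ℝ → ℝ} (hf : Continuous f) {C : ℝ}
    (hb : ∀ t, |f t| ≤ C * Real.exp (-(π / 2 * t ^ 2))) : Integrable f := by
  have h := (integrable_exp_neg_mul_sq (b := π / 2) (by positivity)).const_mul C
  refine h.mono' hf.aestronglyMeasurable (Filter.Eventually.of_forall fun t => ?_)
  rw [Real.norm_eq_abs]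
  refine (hb t).trans (le_of_eq ?_)
  congr 2; ring

lemma integrable_gp (p : Polynomial ℝ) : Integrable (fun t : ℝ => (gp p t : ℂ)) := by
  obtain ⟨C, _, h⟩ := gp_bound p
  exact (integrable_of_bound (continuous_gp p) h).ofReal

lemma fourier_ga (ξ : ℝ) : ∫ t : ℝ, Complex.exp (-(2 * π * Complex.I * ξ * t)) * (ga t : ℂ) = (ga ξ : ℂ) := by
  have h := congrFun (fourier_gaussian_pi (b := 1) (by simp)) ξ
  rw [Real.fourier_real_eq_integral_exp_smul] at h
  have e1 : (fun t : ℝ => Complex.exp (-(2 * π * Complex.I * ξ * t)) * (ga t : ℂ)) =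
      fun t : ℝ => Complex.exp (↑(-2 * π * t * ξ) * Complex.I) • Complex.exp (-π * 1 * (t : ℂ) ^ 2) := by
    funext t
    unfold ga
    push_cast
    rw [smul_eq_mul]
    congr 1 <;> congr 1 <;> ring
  rw [e1, h]
  unfold ga
  push_cast
  simp

lemma fourier_dl (p : Polynomial ℝ) (ξ : ℝ) :
    ∫ t : ℝ, Complex.exp (-(2 * π * Complex.I * ξ * t)) * (gp (dl p) t : ℂ) =
      (2 * π * Complex.I * ξ) * ∫ t : ℝ, Complex.exp (-(2 * π * Complex.I * ξ * t)) * (gp p t : ℂ) := by
  have hd : ∀ t : ℝ, HasDerivAt (fun t : ℝ => (gp p t : ℂ)) (gp (dl p) t : ℂ) t := fun t =>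
    (hasDerivAt_gp p t).ofReal_comp
  have d1 : deriv (fun t : ℝ => (gp p t : ℂ)) = fun t : ℝ => (gp (dl p) t : ℂ) :=
    funext fun t => (hd t).deriv
  have f1 := congrFun (Real.fourier_deriv (integrable_gp p) (fun t => (hd t).differentiableAt)
    (by rw [d1]; exact integrable_gp _)) ξ
  rw [d1, Real.fourier_real_eq_integral_exp_smul, Real.fourier_real_eq_integral_exp_smul] at f1
  have e : ∀ t : ℝ, Complex.exp (↑(-2 * π * t * ξ) * Complex.I) = Complex.exp (-(2 * π * Complex.I * ξ * t)) := by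
    intro t
    congr 1
    push_cast; ring
  simp only [e, smul_eq_mul] at f1
  exact f1

/-- the recursion for the polynomials in `u = 2 π t ^ 2` -/
def qP : ℕ → Polynomial ℝ
  | 0 => 1
  | a + 1 => (1 - Polynomial.X) * qP a + (Polynomial.C 4 * Polynomial.X - Polynomial.C 2) *
      Polynomial.derivative (qP a) - Polynomial.C 4 * Polynomial.X * Polynomial.derivative (Polynomial.derivative (qP a))

/-- `2 π t ^ 2` -/
def uP : Polynomial ℝ := Polynomial.C (2 * π) * Polynomial.X ^ 2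

lemma dl_dl (q : Polynomial ℝ) : dl (dl (q.comp uP)) = Polynomial.C (-(2 * π)) *
    (((1 - Polynomial.X) * q + (Polynomial.C 4 * Polynomial.X - Polynomial.C 2) *
      Polynomial.derivative q - Polynomial.C 4 * Polynomial.X * Polynomial.derivative (Polynomial.derivative q)).comp uP) := by
  apply Polynomial.funext
  intro t
  unfold dl uP
  simp only [Polynomial.derivative_sub, Polynomial.derivative_mul, Polynomial.derivative_comp,
    Polynomial.derivative_C, Polynomial.derivative_X, Polynomial.derivative_X_pow, Polynomial.eval_sub, Polynomial.eval_add,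
    Polynomial.eval_mul, Polynomial.eval_C, Polynomial.eval_X, Polynomial.eval_pow, Polynomial.eval_comp,
    Polynomial.eval_one, Polynomial.eval_zero, Polynomial.sub_comp, Polynomial.add_comp, Polynomial.mul_comp,
    Polynomial.X_comp, Polynomial.C_comp, Polynomial.one_comp]
  norm_num
  ring

/-- one-dimensional factor -/
def hf (a : ℕ) (t : ℝ) : ℝ := (qP a).eval (2 * π * t ^ 2) * ga t

/-- one-dimensional factor of the transform -/
def hg (a : ℕ) (t : ℝ) : ℝ := (2 * π * t ^ 2) ^ a * ga t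

lemma hf_eq (a : ℕ) : hf a = gp ((qP a).comp uP) := by
  funext t
  unfold hf gp uP
  simp [Polynomial.eval_comp]

lemma hg_eq (a : ℕ) : hg a = gp (uP ^ a) := by
  funext t
  unfold hg gp uP
  simp

lemma hf_false (t : ℝ) : hf 0 t = ga t := by simp [hf, qP]
lemma hg_false (t : ℝ) : hg 0 t = ga t := by simp [hg]

lemma continuous_hf (a : ℕ) : Continuous (hf a) := by rw [hf_eq]; exact continuous_gp _
lemma continuous_hg (a : ℕ) : Continuous (hg a) := by rw [hg_eq]; exact continuous_gp _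

lemma fourier_hf : ∀ (a : ℕ) (ξ : ℝ),
    ∫ t : ℝ, Complex.exp (-(2 * π * Complex.I * ξ * t)) * (hf a t : ℂ) = (hg a ξ : ℂ)
  | 0, ξ => by
    simp only [hf_false, hg_false]
    exact fourier_ga ξ
  | a + 1, ξ => by
    have ih := fourier_hf a ξ
    rw [hf_eq] at ih
    have h0 := fourier_dl ((qP a).comp uP) ξ
    have h1 := fourier_dl (dl ((qP a).comp uP)) ξ
    rw [h0, ih, dl_dl] at h1
    have hπ : (π : ℂ) ≠ 0 := by exact_mod_cast Real.pi_ne_zero
    have h2 : ∀ t : ℝ, (gp (Polynomial.C (-(2 * π)) * (((1 - Polynomial.X) * qP a +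
        (Polynomial.C 4 * Polynomial.X - Polynomial.C 2) * Polynomial.derivative (qP a) -
        Polynomial.C 4 * Polynomial.X * Polynomial.derivative (Polynomial.derivative (qP a))).comp uP)) t : ℂ) =
        (-(2 * π) : ℂ) * (hf (a + 1) t : ℂ) := by
      intro t
      rw [hf_eq]
      unfold gp
      rw [Polynomial.eval_mul, Polynomial.eval_C]
      push_cast
      rw [qP]
      ring
    have h3 : (fun t : ℝ => Complex.exp (-(2 * π * Complex.I * ξ * t)) * (gp (Polynomial.C (-(2 * π)) *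
        (((1 - Polynomial.X) * qP a +
        (Polynomial.C 4 * Polynomial.X - Polynomial.C 2) * Polynomial.derivative (qP a) -
        Polynomial.C 4 * Polynomial.X * Polynomial.derivative (Polynomial.derivative (qP a))).comp uP)) t : ℂ)) =
        fun t : ℝ => (-(2 * π) : ℂ) * (Complex.exp (-(2 * π * Complex.I * ξ * t)) * (hf (a + 1) t : ℂ)) := by
      funext t
      rw [h2 t]; ring
    rw [h3, integral_const_mul] at h1
    have h2π : (-(2 * π) : ℂ) ≠ 0 := by
      rw [neg_ne_zero]; exact mul_ne_zero two_ne_zero hπ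
    apply mul_left_cancel₀ h2π
    rw [h1]
    unfold hg
    push_cast
    have hI : Complex.I ^ 2 = -1 := Complex.I_sq
    linear_combination ((2 * π * (ξ : ℂ)) ^ 2 * ((2 * π * (ξ : ℂ) ^ 2) ^ a * (ga ξ : ℂ))) * hI

/-- a common bound for the factors -/
lemma exists_bc (a : ℕ) : ∃ C : ℝ, 0 ≤ C ∧ (∀ t, |hf a t| ≤ C * Real.exp (-(π / 2 * t ^ 2))) ∧
    ∀ t, |hg a t| ≤ C * Real.exp (-(π / 2 * t ^ 2)) := by
  obtain ⟨C, hC, h⟩ := gp_bound ((qP a).comp uP)
  obtain ⟨C', hC', h'⟩ := gp_bound (uP ^ a)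
  rw [← hf_eq] at h
  rw [← hg_eq] at h'
  refine ⟨max C C', le_max_of_le_left hC, fun t => ?_, fun t => ?_⟩
  · exact (h t).trans (mul_le_mul_of_nonneg_right (le_max_left _ _) (Real.exp_pos _).le)
  · exact (h' t).trans (mul_le_mul_of_nonneg_right (le_max_right _ _) (Real.exp_pos _).le)

/-- the bound -/
def bc (a : ℕ) : ℝ := (exists_bc a).choose

lemma bc_nonneg (a : ℕ) : 0 ≤ bc a := (exists_bc a).choose_spec.1
lemma hf_bound (a : ℕ) (t : ℝ) : |hf a t| ≤ bc a * Real.exp (-(π / 2 * t ^ 2)) := (exists_bc a).choose_spec.2.1 t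
lemma hg_bound (a : ℕ) (t : ℝ) : |hg a t| ≤ bc a * Real.exp (-(π / 2 * t ^ 2)) := (exists_bc a).choose_spec.2.2 t

variable {n : ℕ}

/-- product test function -/
def FA (A : Fin n → ℕ) (y : Fin n → ℝ) : ℝ := ∏ i, hf (A i) (y i)

/-- its transform -/
def FB (A : Fin n → ℕ) (y : Fin n → ℝ) : ℝ := ∏ i, hg (A i) (y i)

lemma continuous_FA (A : Fin n → ℕ) : Continuous (FA A) := by
  unfold FA
  exact continuous_finsetProd _ fun i _ => (continuous_hf _).comp (continuous_apply i)

lemma continuous_FB (A : Fin n → ℕ) : Continuous (FB A) := by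
  unfold FB
  exact continuous_finsetProd _ fun i _ => (continuous_hg _).comp (continuous_apply i)

/-- the bound for products -/
def bcA (A : Fin n → ℕ) : ℝ := ∏ i, bc (A i)

lemma bcA_nonneg (A : Fin n → ℕ) : 0 ≤ bcA A := prod_nonneg fun _ _ => bc_nonneg _

lemma prod_gauss (A : Fin n → ℕ) (y : Fin n → ℝ) : ∏ i, (bc (A i) * Real.exp (-(π / 2 * y i ^ 2))) =
    bcA A * Real.exp (-(π / 2 * ∑ i, y i ^ 2)) := by
  rw [prod_mul_distrib, ← Real.exp_sum, mul_sum, sum_neg_distrib]
  rfl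

lemma FA_bound (A : Fin n → ℕ) (y : Fin n → ℝ) :
    |FA A y| ≤ bcA A * Real.exp (-(π / 2 * ∑ i, y i ^ 2)) := by
  unfold FA
  rw [abs_prod, ← prod_gauss]
  exact prod_le_prod (fun _ _ => abs_nonneg _) fun i _ => hf_bound _ _

lemma FB_bound (A : Fin n → ℕ) (y : Fin n → ℝ) :
    |FB A y| ≤ bcA A * Real.exp (-(π / 2 * ∑ i, y i ^ 2)) := by
  unfold FB
  rw [abs_prod, ← prod_gauss]
  exact prod_le_prod (fun _ _ => abs_nonneg _) fun i _ => hg_bound _ _

/-- the Fourier transform of the product test function -/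
lemma fourier_FA (A : Fin n → ℕ) (ξ : Fin n → ℝ) :
    ∫ y : Fin n → ℝ, Complex.exp (-(2 * π * Complex.I * ∑ i, ((ξ i : ℂ) * (y i : ℂ)))) * (FA A y : ℂ)
      = (FB A ξ : ℂ) := by
  have e1 : (fun y : Fin n → ℝ => Complex.exp (-(2 * π * Complex.I * ∑ i, ((ξ i : ℂ) * (y i : ℂ)))) * (FA A y : ℂ))
      = fun y : Fin n → ℝ => ∏ i, (Complex.exp (-(2 * π * Complex.I * ξ i * y i)) * (hf (A i) (y i) : ℂ)) := by
    funext y
    rw [prod_mul_distrib, ← Complex.exp_sum]
    unfold FA
    push_cast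
    congr 1
    congr 1
    rw [mul_sum, ← sum_neg_distrib]
    exact sum_congr rfl fun i _ => by ring
  rw [e1, integral_fintype_prod_volume_eq_prod (𝕜 := ℂ)
    (fun i (t : ℝ) => Complex.exp (-(2 * π * Complex.I * ξ i * t)) * (hf (A i) t : ℂ))]
  unfold FB
  push_cast
  exact prod_congr rfl fun i _ => fourier_hf (A i) (ξ i)

/-- lower bound for a quadratic form -/
lemma quad_lower (B : Matrix (Fin n) (Fin n) ℝ) (hB : B.det ≠ 0) :
    ∃ b : ℝ, 0 < b ∧ ∀ x : Fin n → ℝ, b * ∑ i, x i ^ 2 ≤ ∑ i, (B.mulVec x) i ^ 2 := by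
  set D : ℝ := ∑ i, ∑ j, (B⁻¹ i j) ^ 2 with hD
  have hD0 : 0 ≤ D := sum_nonneg fun _ _ => sum_nonneg fun _ _ => sq_nonneg _
  refine ⟨1 / (D + 1), by positivity, fun x => ?_⟩
  have hx : B⁻¹.mulVec (B.mulVec x) = x := by
    rw [Matrix.mulVec_mulVec, Matrix.nonsing_inv_mul _ (isUnit_iff_ne_zero.2 hB), Matrix.one_mulVec]
  set y := B.mulVec x with hy
  have h1 : ∀ i, x i ^ 2 ≤ (∑ j, (B⁻¹ i j) ^ 2) * ∑ j, y j ^ 2 := by
    intro i
    rw [← hx]
    exact sum_mul_sq_le_sq_mul_sq univ (fun j => B⁻¹ i j) y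
  have h2 : ∑ i, x i ^ 2 ≤ D * ∑ j, y j ^ 2 := by
    rw [hD, sum_mul]
    exact sum_le_sum fun i _ => h1 i
  have h3 : 0 ≤ ∑ j, y j ^ 2 := sum_nonneg fun _ _ => sq_nonneg _
  rw [div_mul_eq_mul_div, one_mul, div_le_iff₀ (by positivity)]
  nlinarith

/-- **Poisson summation** for the test functions on a lattice -/
theorem poisson_FA (B : Matrix (Fin n) (Fin n) ℝ) (hB : B.det ≠ 0) (A : Fin n → ℕ) :
    ∑' p : Fin n → ℤ, FA A (B.mulVec (zr p)) =
      |B.det|⁻¹ * ∑' k : Fin n → ℤ, FB A ((B⁻¹).transpose.mulVec (zr k)) := by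
  have hft : ∀ k : Fin n → ℤ, FT (fun x => (FA A (B.mulVec x) : ℂ)) k =
      ((|B.det|⁻¹ * FB A ((B⁻¹).transpose.mulVec (zr k)) : ℝ) : ℂ) := by
    intro k
    set ξ := (B⁻¹).transpose.mulVec (zr k) with hξ
    have h1 : ∀ x : Fin n → ℝ, ∑ i, ξ i * (B.mulVec x) i = ∑ i, (k i : ℝ) * x i := by
      intro x
      have h2 : ξ ⬝ᵥ (B.mulVec x) = zr k ⬝ᵥ x := by
        rw [hξ, Matrix.mulVec_transpose, ← Matrix.dotProduct_mulVec, Matrix.mulVec_mulVec,
          Matrix.nonsing_inv_mul _ (isUnit_iff_ne_zero.2 hB), Matrix.one_mulVec]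
      exact h2
    have h3 : ∀ x : Fin n → ℝ, chr k x * (FA A (B.mulVec x) : ℂ) =
        (fun y : Fin n → ℝ => Complex.exp (-(2 * π * Complex.I * ∑ i, ((ξ i : ℂ) * (y i : ℂ)))) * (FA A y : ℂ))
          (B.mulVec x) := by
      intro x
      simp only
      unfold chr
      congr 3
      congr 1
      have := h1 x
      have h4 : ((∑ i, ξ i * (B.mulVec x) i : ℝ) : ℂ) = ((∑ i, (k i : ℝ) * x i : ℝ) : ℂ) := by rw [this]
      push_cast at h4
      exact h4.symm
    unfold FT
    simp only [h3]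
    have hmap := Real.map_matrix_volume_pi_eq_smul_volume_pi hB
    set g : (Fin n → ℝ) → ℂ := fun y : Fin n → ℝ =>
      Complex.exp (-(2 * π * Complex.I * ∑ i, ((ξ i : ℂ) * (y i : ℂ)))) * (FA A y : ℂ) with hg
    have hgc : Continuous g := by
      have := continuous_FA A
      rw [hg]
      exact (by fun_prop : Continuous fun y : Fin n → ℝ =>
        Complex.exp (-(2 * π * Complex.I * ∑ i, ((ξ i : ℂ) * (y i : ℂ))))).mul
        (Complex.continuous_ofReal.comp this)
    have h5 : ∫ x, g (B.mulVec x) = ∫ y, g y ∂(Measure.map (Matrix.toLin' B) volume) := by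
      rw [integral_map]
      · rfl
      · exact (LinearMap.continuous_of_finiteDimensional _).measurable.aemeasurable
      · exact hgc.aestronglyMeasurable
    have h6 : (fun x : Fin n → ℝ => g (B.mulVec x)) = fun x => g (B.mulVec x) := rfl
    change ∫ x, g (B.mulVec x) = _
    rw [h5, hmap, integral_smul_measure, hg, fourier_FA, ENNReal.toReal_ofReal (abs_nonneg _), abs_inv]
    push_cast
    rw [Complex.real_smul]
    push_cast
    rfl
  obtain ⟨b, hb0, hb⟩ := quad_lower B hB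
  have hBT : ((B⁻¹).transpose).det ≠ 0 := by
    rw [Matrix.det_transpose, Matrix.det_nonsing_inv, Ring.inverse_eq_inv']
    exact inv_ne_zero hB
  obtain ⟨b', hb0', hb'⟩ := quad_lower (B⁻¹).transpose hBT
  have hsum : Summable (FT (fun x => (FA A (B.mulVec x) : ℂ))) := by
    have h7 : Summable fun k : Fin n → ℤ => |B.det|⁻¹ * (bcA A * Real.exp (-(π / 2 * b' * ∑ i, zr k i ^ 2))) :=
      ((pack_summable one_pos (by positivity) zr zr_sep).mul_left _).mul_left _
    refine h7.of_norm_bounded fun k => ?_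
    rw [hft k, Complex.norm_real, norm_mul, Real.norm_of_nonneg (by positivity : 0 ≤ |B.det|⁻¹)]
    refine mul_le_mul_of_nonneg_left ?_ (by positivity)
    rw [Real.norm_eq_abs]
    refine (FB_bound A _).trans ?_
    refine mul_le_mul_of_nonneg_left (Real.exp_le_exp.2 ?_) (bcA_nonneg A)
    have := hb' (zr k)
    have hπ := Real.pi_pos
    nlinarith
  have hP := poisson (φ := fun x => (FA A (B.mulVec x) : ℂ))
    (Complex.continuous_ofReal.comp ((continuous_FA A).comp (by
      exact (LinearMap.continuous_of_finiteDimensional (Matrix.toLin' B)))))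
    (C := bcA A) (c := π / 2 * b) (bcA_nonneg A) (by positivity) (fun x => by
      rw [Complex.norm_real, Real.norm_eq_abs]
      refine (FA_bound A _).trans ?_
      refine mul_le_mul_of_nonneg_left (Real.exp_le_exp.2 ?_) (bcA_nonneg A)
      have := hb x
      have hπ := Real.pi_pos
      nlinarith) hsum
  have h8 : ∀ k, FT (fun x => (FA A (B.mulVec x) : ℂ)) k =
      ((|B.det|⁻¹ * FB A ((B⁻¹).transpose.mulVec (zr k)) : ℝ) : ℂ) := hft
  simp only [h8] at hP
  rw [← Complex.ofReal_tsum, ← Complex.ofReal_tsum] at hP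
  have h9 := Complex.ofReal_injective hP
  rw [h9, tsum_mul_left]

end

end Pool.Agent.Helper22.Opp
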