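import Pool.Agent.Helper22.Opp.Kap
import Pool.Agent.Helper22.Opp.Test
import Pool.Agent.Helper22.Opp.Avg

/-!
# Integrals of the test functions over orbits of the diagonal group
-/

set_option autoImplicit false

open MeasureTheory Real Finset Filter Topology

namespace Pool.Agent.Helper22.Opp

noncomputable section

variable {m : ℕ}

/-- degree `a` in the coordinate `k + 1` -/
def Ak (k : Fin m) (a : ℕ) : Fin (m + 1) → ℕ := Fin.cons 0 (fun i => if i = k then a else 0)

/-- the corresponding vector of exponents -/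
def jk (k : Fin m) (a : ℕ) : Fin m → ℝ := fun i => if i = k then (a : ℝ) else 0

/-- moments in one direction -/
def Jk (k : Fin m) (a : ℕ) (x : ℝ) : ℝ := J (jk k a) x

lemma Jk_zero (k : Fin m) (x : ℝ) : Jk k 0 x = K m 0 x := by
  rw [K_zero]
  unfold Jk
  congr 1
  funext i
  simp [jk]

lemma hasDerivAt_Jk (k : Fin m) (a : ℕ) (x : ℝ) :
    HasDerivAt (Jk k a) (Jk k (a + 1) x - a * Jk k a x) x := by
  have h1 := hasDerivAt_J (jk k a) x
  have h2 := J_add_single (jk k a) k x
  have h3 : (fun i => jk k a i + (if i = k then (1 : ℝ) else 0)) = jk k (a + 1) := by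
    funext i
    unfold jk
    split_ifs <;> push_cast <;> ring
  rw [h3] at h2
  have h4 : jk k a k = a := by simp [jk]
  rw [h4] at h2
  refine h1.congr_deriv ?_
  unfold Jk
  linarith

/-- the logarithmic norm parameter -/
def xof (y : Fin (m + 1) → ℝ) : ℝ := -Real.log (π ^ (m + 1) * ∏ i, y i ^ 2)

/-- shift -/
def bsh (y : Fin (m + 1) → ℝ) : Fin m → ℝ := fun i => Real.log (π * y i.succ ^ 2)

/-- the new variables -/
def sv (y : Fin (m + 1) → ℝ) (τ : Fin m → ℝ) : Fin m → ℝ := (2 : ℝ) • τ + bsh y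

lemma act_succ_sq {y : Fin (m + 1) → ℝ} (hy : ∀ i, y i ≠ 0) (τ : Fin m → ℝ) (i : Fin m) :
    π * (act τ y i.succ) ^ 2 = Real.exp (sv y τ i) := by
  unfold act sv bsh
  simp only [Pi.add_apply, Pi.smul_apply, smul_eq_mul]
  have h1 : 0 < π * y i.succ ^ 2 := mul_pos Real.pi_pos (pow_pos_of_ne_zero_sq (hy _))
  rw [Real.exp_add, Real.exp_log h1, ex_succ, mul_pow, ← Real.exp_nat_mul]
  push_cast; ring
where
  pow_pos_of_ne_zero_sq {a : ℝ} (h : a ≠ 0) : 0 < a ^ 2 := by positivity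

lemma act_zero_sq {y : Fin (m + 1) → ℝ} (hy : ∀ i, y i ≠ 0) (τ : Fin m → ℝ) :
    π * (act τ y 0) ^ 2 = Real.exp (-xof y - ∑ i, sv y τ i) := by
  have h0 : ∀ i, 0 < y i ^ 2 := fun i => by have := hy i; positivity
  have h1 : ∀ i, 0 < π * y i ^ 2 := fun i => mul_pos Real.pi_pos (h0 i)
  have e1 : Real.exp (-xof y) = ∏ i, (π * y i ^ 2) := by
    unfold xof
    rw [neg_neg, Real.exp_log (mul_pos (pow_pos Real.pi_pos _) (prod_pos fun i _ => h0 i)),
      prod_mul_distrib]
    simp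
  have e2 : Real.exp (∑ i, sv y τ i) = Real.exp (2 * ∑ i, τ i) * ∏ i : Fin m, (π * y i.succ ^ 2) := by
    have : ∑ i, sv y τ i = 2 * ∑ i, τ i + ∑ i : Fin m, Real.log (π * y i.succ ^ 2) := by
      unfold sv bsh
      simp only [Pi.add_apply, Pi.smul_apply, smul_eq_mul]
      rw [sum_add_distrib, ← mul_sum]
    rw [this, Real.exp_add, Real.exp_sum]
    congr 1
    exact prod_congr rfl fun i _ => Real.exp_log (h1 _)
  rw [Real.exp_sub, e1, e2, Fin.prod_univ_succ]
  have h2 : (∏ i : Fin m, (π * y i.succ ^ 2)) ≠ 0 := (prod_pos fun i _ => h1 _).ne'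
  unfold act
  rw [ex_zero, mul_pow, ← Real.exp_nat_mul]
  have e3 : Real.exp (((2 : ℕ) : ℝ) * -(∑ i, τ i)) = (Real.exp (2 * ∑ i, τ i))⁻¹ := by
    rw [← Real.exp_neg]; congr 1; push_cast; ring
  rw [e3]
  field_simp

lemma ga_prod {y : Fin (m + 1) → ℝ} (hy : ∀ i, y i ≠ 0) (τ : Fin m → ℝ) :
    ∏ i, ga (act τ y i) = Real.exp (ph (fun _ : Fin m => (0 : ℝ)) (xof y) (sv y τ)) := by
  unfold ga ph
  rw [← Real.exp_sum, Fin.sum_univ_succ, act_zero_sq hy]
  simp only [act_succ_sq hy]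
  congr 1
  simp only [zero_mul, sum_const_zero, sum_neg_distrib]
  ring

lemma exp_jk (k : Fin m) (a : ℕ) (x : ℝ) (s : Fin m → ℝ) :
    Real.exp (s k) ^ a * Real.exp (ph (fun _ : Fin m => (0 : ℝ)) x s) = Real.exp (ph (jk k a) x s) := by
  rw [← Real.exp_nat_mul, ← Real.exp_add]
  congr 1
  unfold ph jk
  have : ∑ i, (if i = k then (a : ℝ) else 0) * s i = a * s k := by
    simp only [ite_mul, zero_mul, sum_ite_eq', mem_univ, if_true]
  rw [this]
  simp only [zero_mul, sum_const_zero]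
  ring

lemma FB_act {y : Fin (m + 1) → ℝ} (hy : ∀ i, y i ≠ 0) (k : Fin m) (a : ℕ) (τ : Fin m → ℝ) :
    FB (Ak k a) (act τ y) = 2 ^ a * Real.exp (ph (jk k a) (xof y) (sv y τ)) := by
  unfold FB hg
  rw [prod_mul_distrib, ga_prod hy, ← exp_jk, ← mul_assoc, ← mul_pow]
  congr 1
  rw [Fin.prod_univ_succ]
  unfold Ak
  simp only [Fin.cons_zero, pow_zero, one_mul, Fin.cons_succ]
  rw [prod_eq_single k]
  · rw [if_pos rfl, ← act_succ_sq hy]
    ring
  · intro i _ hi
    rw [if_neg hi, pow_zero]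
  · intro h; exact absurd (mem_univ _) h

lemma natDegree_qP : ∀ a : ℕ, (qP a).natDegree ≤ a
  | 0 => by simp [qP]
  | a + 1 => by
    have ih := natDegree_qP a
    rw [qP]
    have h1 : (Polynomial.derivative (qP a)).natDegree ≤ a := (Polynomial.natDegree_derivative_le _).trans (by omega)
    have h2 : (Polynomial.derivative (Polynomial.derivative (qP a))).natDegree ≤ a :=
      (Polynomial.natDegree_derivative_le _).trans (by omega)
    refine (Polynomial.natDegree_sub_le _ _).trans (max_le ((Polynomial.natDegree_add_le _ _).trans (max_le ?_ ?_)) ?_)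
    · refine Polynomial.natDegree_mul_le.trans ?_
      have : (1 - Polynomial.X : Polynomial ℝ).natDegree ≤ 1 :=
        (Polynomial.natDegree_sub_le _ _).trans (by simp)
      omega
    · refine Polynomial.natDegree_mul_le.trans ?_
      have : (Polynomial.C 4 * Polynomial.X - Polynomial.C 2 : Polynomial ℝ).natDegree ≤ 1 :=
        (Polynomial.natDegree_sub_le _ _).trans (by
          simp only [Polynomial.natDegree_C]
          refine max_le ?_ (by omega)
          exact (Polynomial.natDegree_C_mul_le _ _).trans Polynomial.natDegree_X_le)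
      omega
    · refine Polynomial.natDegree_mul_le.trans ?_
      have : (Polynomial.C 4 * Polynomial.X : Polynomial ℝ).natDegree ≤ 1 :=
        (Polynomial.natDegree_C_mul_le _ _).trans Polynomial.natDegree_X_le
      omega

lemma FA_act {y : Fin (m + 1) → ℝ} (hy : ∀ i, y i ≠ 0) (k : Fin m) (a : ℕ) (τ : Fin m → ℝ) :
    FA (Ak k a) (act τ y) =
      ∑ j ∈ range (a + 1), (qP a).coeff j * 2 ^ j * Real.exp (ph (jk k j) (xof y) (sv y τ)) := by
  unfold FA hf
  rw [prod_mul_distrib, ga_prod hy]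
  have h1 : (∏ i, (qP (Ak k a i)).eval (2 * π * act τ y i ^ 2)) = (qP a).eval (2 * Real.exp (sv y τ k)) := by
    rw [Fin.prod_univ_succ]
    unfold Ak
    simp only [Fin.cons_zero, Fin.cons_succ]
    have h0 : (qP 0).eval (2 * π * act τ y 0 ^ 2) = 1 := by simp [qP]
    rw [h0, one_mul, prod_eq_single k]
    · rw [if_pos rfl, ← act_succ_sq hy]
      congr 1; ring
    · intro i _ hi
      rw [if_neg hi]; simp [qP]
    · intro h; exact absurd (mem_univ _) h
  rw [h1, Polynomial.eval_eq_sum_range' (Nat.lt_succ_of_le (natDegree_qP a)), sum_mul]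
  refine sum_congr rfl fun j _ => ?_
  rw [← exp_jk, mul_pow]
  ring

lemma cov (g : (Fin m → ℝ) → ℝ) (y : Fin (m + 1) → ℝ) :
    ∫ τ : Fin m → ℝ, g (sv y τ) = (2 ^ m)⁻¹ * ∫ s, g s := by
  unfold sv
  have h := Measure.integral_comp_smul (volume : Measure (Fin m → ℝ)) (fun z => g (z + bsh y)) (2 : ℝ)
  rw [h, integral_add_right_eq_self]
  simp

lemma cov_int {g : (Fin m → ℝ) → ℝ} (hg : Integrable g) (y : Fin (m + 1) → ℝ) :
    Integrable (fun τ : Fin m → ℝ => g (sv y τ)) := by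
  unfold sv
  exact (hg.comp_add_right (bsh y)).comp_smul two_ne_zero

lemma integrable_FB_act {y : Fin (m + 1) → ℝ} (hy : ∀ i, y i ≠ 0) (k : Fin m) (a : ℕ) :
    Integrable (fun τ : Fin m → ℝ => FB (Ak k a) (act τ y)) := by
  simp only [FB_act hy]
  exact (cov_int (integrable_ph (jk k a) (xof y)) y).const_mul _

lemma integral_FB_act {y : Fin (m + 1) → ℝ} (hy : ∀ i, y i ≠ 0) (k : Fin m) (a : ℕ) :
    ∫ τ : Fin m → ℝ, FB (Ak k a) (act τ y) = (2 ^ m)⁻¹ * (2 ^ a * Jk k a (xof y)) := by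
  simp only [FB_act hy]
  rw [integral_const_mul, cov (fun s => Real.exp (ph (jk k a) (xof y) s)) y]
  unfold Jk J
  ring

lemma integrable_FA_act' {y : Fin (m + 1) → ℝ} (hy : ∀ i, y i ≠ 0) (k : Fin m) (a : ℕ) :
    Integrable (fun τ : Fin m → ℝ => FA (Ak k a) (act τ y)) := by
  simp only [FA_act hy]
  exact integrable_finsetSum _ fun j _ => (cov_int (integrable_ph (jk k j) (xof y)) y).const_mul _

lemma integral_FA_act {y : Fin (m + 1) → ℝ} (hy : ∀ i, y i ≠ 0) (k : Fin m) (a : ℕ) :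
    ∫ τ : Fin m → ℝ, FA (Ak k a) (act τ y) =
      (2 ^ m)⁻¹ * ∑ j ∈ range (a + 1), (qP a).coeff j * (2 ^ j * Jk k j (xof y)) := by
  simp only [FA_act hy]
  rw [integral_finsetSum _ fun j _ => (cov_int (integrable_ph (jk k j) (xof y)) y).const_mul _, mul_sum]
  refine sum_congr rfl fun j _ => ?_
  rw [integral_const_mul, cov (fun s => Real.exp (ph (jk k j) (xof y) s)) y]
  unfold Jk J
  ring

lemma integrable_gq_act {y : Fin (m + 1) → ℝ} (hy : ∀ i, y i ≠ 0) :
    Integrable (fun τ : Fin m → ℝ => gq (act τ y)) := by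
  set y' : Fin (m + 1) → ℝ := (1 / 2 : ℝ) • y with hy'
  have hne : ∀ i, y' i ≠ 0 := fun i => by
    simp only [hy', Pi.smul_apply, smul_eq_mul]; exact mul_ne_zero (by norm_num) (hy i)
  have h := cov_int (integrable_ph (fun _ : Fin m => (0 : ℝ)) (xof y')) y'
  refine h.congr (Filter.Eventually.of_forall fun τ => ?_)
  simp only
  rw [← ga_prod hne]
  unfold gq ga
  rw [← Real.exp_sum]
  congr 1
  rw [sum_neg_distrib, mul_sum]
  congr 1
  refine sum_congr rfl fun i _ => ?_
  unfold act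
  simp only [hy', Pi.smul_apply, smul_eq_mul]
  ring

end

end Pool.Agent.Helper22.Opp
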