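import Mathlib

/-!
# Gaussian sums over separated sets
-/

set_option autoImplicit false

open MeasureTheory Real Finset Filter Topology

namespace Pool.Agent.Helper22.Opp

noncomputable section

variable {n : ℕ}

lemma integrable_gauss (n : ℕ) {c : ℝ} (hc : 0 < c) :
    Integrable (fun z : Fin n → ℝ => Real.exp (-(c * ∑ i, z i ^ 2))) := by
  have h : (fun z : Fin n → ℝ => Real.exp (-(c * ∑ i, z i ^ 2))) =
      fun z : Fin n → ℝ => ∏ i, Real.exp (-c * z i ^ 2) := by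
    funext z
    rw [← Real.exp_sum, ← mul_sum]
    congr 1; ring
  rw [h]
  exact Integrable.fintype_prod (fun _ => integrable_exp_neg_mul_sq hc)

/-- constant in the packing bound -/
def packC (n : ℕ) (ρ c : ℝ) : ℝ :=
  (ρ ^ n)⁻¹ * (Real.exp (c * (n * (ρ / 2) ^ 2)) * ∫ z : Fin n → ℝ, Real.exp (-(c / 2 * ∑ i, z i ^ 2)))

lemma packC_nonneg (n : ℕ) {ρ c : ℝ} (hρ : 0 < ρ) : 0 ≤ packC n ρ c := by
  unfold packC
  have : 0 ≤ ∫ z : Fin n → ℝ, Real.exp (-(c / 2 * ∑ i, z i ^ 2)) :=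
    integral_nonneg fun _ => (Real.exp_pos _).le
  positivity

/-- Gaussian sums over `ρ`-separated finite families are bounded -/
lemma pack {ι : Type*} {ρ c : ℝ} (hρ : 0 < ρ) (hc : 0 < c) (y : ι → Fin n → ℝ)
    (hy : ∀ p p', p ≠ p' → ρ ≤ ‖y p - y p'‖) (s : Finset ι) :
    ∑ p ∈ s, Real.exp (-(c * ∑ i, y p i ^ 2)) ≤ packC n ρ c := by
  classical
  have hρ2 : 0 < ρ / 2 := by linarith
  have hg := integrable_gauss n (c := c / 2) (by linarith)
  have hvol : ∀ a : Fin n → ℝ, (volume : Measure (Fin n → ℝ)).real (Metric.ball a (ρ / 2)) = ρ ^ n := by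
    intro a
    rw [Measure.real, Real.volume_pi_ball a hρ2, ENNReal.toReal_ofReal (by positivity)]
    simp only [Fintype.card_fin]
    congr 1; ring
  have h1 : ∀ p ∈ s, Real.exp (-(c * ∑ i, y p i ^ 2)) * ρ ^ n ≤
      Real.exp (c * (n * (ρ / 2) ^ 2)) * ∫ z in Metric.ball (y p) (ρ / 2),
        Real.exp (-(c / 2 * ∑ i, z i ^ 2)) := by
    intro p _
    rw [← hvol (y p), ← integral_const_mul]
    have h2 : Real.exp (-(c * ∑ i, y p i ^ 2)) * (volume : Measure (Fin n → ℝ)).real (Metric.ball (y p) (ρ / 2))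
        = ∫ z in Metric.ball (y p) (ρ / 2), Real.exp (-(c * ∑ i, y p i ^ 2)) := by
      rw [setIntegral_const, smul_eq_mul, mul_comm]
    rw [h2]
    refine setIntegral_mono_on ?_ ((hg.const_mul _).integrableOn) measurableSet_ball ?_
    · exact integrableOn_const (by rw [Real.volume_pi_ball _ hρ2]; exact ENNReal.ofReal_ne_top)
    · intro z hz
      rw [← Real.exp_add]
      apply Real.exp_le_exp.2
      have h3 : ∀ i, z i ^ 2 ≤ 2 * y p i ^ 2 + 2 * (ρ / 2) ^ 2 := by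
        intro i
        have h4 : |z i - y p i| ≤ ρ / 2 := by
          have h5 := norm_le_pi_norm (z - y p) i
          have h6 : ‖z - y p‖ < ρ / 2 := by rwa [mem_ball_iff_norm] at hz
          rw [Real.norm_eq_abs] at h5
          exact h5.trans h6.le
        have h7 : (z i - y p i) ^ 2 ≤ (ρ / 2) ^ 2 := sq_le_sq' (by linarith [neg_abs_le (z i - y p i)])
          (by linarith [le_abs_self (z i - y p i)])
        nlinarith [sq_nonneg (z i - 2 * y p i)]
      have h8 : ∑ i, z i ^ 2 ≤ 2 * ∑ i, y p i ^ 2 + n * (2 * (ρ / 2) ^ 2) := by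
        calc ∑ i, z i ^ 2 ≤ ∑ i, (2 * y p i ^ 2 + 2 * (ρ / 2) ^ 2) := sum_le_sum fun i _ => h3 i
          _ = _ := by rw [sum_add_distrib, ← mul_sum]; simp
      nlinarith
  have h9 : (∑ p ∈ s, Real.exp (-(c * ∑ i, y p i ^ 2))) * ρ ^ n ≤
      Real.exp (c * (n * (ρ / 2) ^ 2)) * ∫ z : Fin n → ℝ, Real.exp (-(c / 2 * ∑ i, z i ^ 2)) := by
    rw [sum_mul]
    calc _ ≤ ∑ p ∈ s, Real.exp (c * (n * (ρ / 2) ^ 2)) * ∫ z in Metric.ball (y p) (ρ / 2),
        Real.exp (-(c / 2 * ∑ i, z i ^ 2)) := sum_le_sum h1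
      _ = Real.exp (c * (n * (ρ / 2) ^ 2)) * ∫ z in ⋃ p ∈ s, Metric.ball (y p) (ρ / 2),
        Real.exp (-(c / 2 * ∑ i, z i ^ 2)) := by
          rw [← mul_sum]
          congr 1
          rw [integral_biUnion_finset s (fun p _ => measurableSet_ball) ?_ (fun p _ => hg.integrableOn)]
          intro p _ p' _ hpp
          refine Metric.ball_disjoint_ball ?_
          rw [dist_eq_norm]
          have := hy p p' hpp
          linarith
      _ ≤ _ := by
          exact mul_le_mul_of_nonneg_left (setIntegral_le_integral hg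
            (Filter.Eventually.of_forall fun z => (Real.exp_pos _).le)) (Real.exp_pos _).le
  have h10 : 0 < ρ ^ n := by positivity
  unfold packC
  rw [inv_mul_eq_div, le_div_iff₀ h10]
  exact h9

lemma pack_summable {ι : Type*} {ρ c : ℝ} (hρ : 0 < ρ) (hc : 0 < c) (y : ι → Fin n → ℝ)
    (hy : ∀ p p', p ≠ p' → ρ ≤ ‖y p - y p'‖) :
    Summable (fun p => Real.exp (-(c * ∑ i, y p i ^ 2))) :=
  summable_of_sum_le (fun _ => (Real.exp_pos _).le) (pack hρ hc y hy)

lemma pack_tsum {ι : Type*} {ρ c : ℝ} (hρ : 0 < ρ) (hc : 0 < c) (y : ι → Fin n → ℝ)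
    (hy : ∀ p p', p ≠ p' → ρ ≤ ‖y p - y p'‖) :
    ∑' p, Real.exp (-(c * ∑ i, y p i ^ 2)) ≤ packC n ρ c :=
  (pack_summable hρ hc y hy).tsum_le_of_sum_le (pack hρ hc y hy)

end

end Pool.Agent.Helper22.Opp
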