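import Pool.Agent.Helper22.Opp.Pack

/-!
# Poisson summation in several variables for continuous functions of Gaussian decay
-/

set_option autoImplicit false

open MeasureTheory Real Finset Filter Topology

namespace Pool.Agent.Helper22.Opp

noncomputable section

variable {n : ℕ}

/-- an integer point as a real point -/
def zr (p : Fin n → ℤ) : Fin n → ℝ := fun i => (p i : ℝ)

/-- half-open unit cubes -/
def cub (p : Fin n → ℤ) : Set (Fin n → ℝ) := {x | ∀ i, x i ∈ Set.Ioc (p i : ℝ) (p i + 1)}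

lemma measurableSet_cub (p : Fin n → ℤ) : MeasurableSet (cub p) :=
  MeasurableSet.univ_pi' fun _ => measurableSet_Ioc

lemma iUnion_cub : ⋃ p : Fin n → ℤ, cub p = Set.univ := by
  ext x
  simp only [Set.mem_iUnion, Set.mem_univ, iff_true]
  refine ⟨fun i => ⌈x i⌉ - 1, fun i => ⟨?_, ?_⟩⟩
  · have := Int.ceil_lt_add_one (x i)
    push_cast; linarith
  · have := Int.le_ceil (x i)
    push_cast; linarith

lemma cub_disjoint : Pairwise (Function.onFun Disjoint (cub : (Fin n → ℤ) → Set (Fin n → ℝ))) := by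
  intro p p' hpp
  rw [Function.onFun, Set.disjoint_left]
  intro x hx hx'
  apply hpp
  funext i
  have h1 := hx i
  have h2 := hx' i
  rw [Set.mem_Ioc] at h1 h2
  have h3 : (p i : ℝ) < (p' i : ℝ) + 1 := by linarith
  have h4 : (p' i : ℝ) < (p i : ℝ) + 1 := by linarith
  have h5 : p i < p' i + 1 := by exact_mod_cast h3
  have h6 : p' i < p i + 1 := by exact_mod_cast h4
  omega

lemma integral_cub {E : Type*} [NormedAddCommGroup E] [NormedSpace ℝ E] (f : (Fin n → ℝ) → E)
    (p : Fin n → ℤ) : ∫ x in cub p, f x = ∫ x in cub (0 : Fin n → ℤ), f (x + zr p) := by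
  rw [← integral_indicator (measurableSet_cub _), ← integral_indicator (measurableSet_cub _),
    ← integral_add_right_eq_self (Set.indicator (cub p) f) (zr p)]
  congr 1
  funext x
  by_cases h : x ∈ cub (0 : Fin n → ℤ)
  · rw [Set.indicator_of_mem h, Set.indicator_of_mem]
    intro i
    have := h i
    simp only [Set.mem_Ioc, Pi.zero_apply, Int.cast_zero, Pi.add_apply, zr] at this ⊢
    constructor <;> linarith
  · rw [Set.indicator_of_notMem h, Set.indicator_of_notMem]
    intro h'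
    apply h
    intro i
    have := h' i
    simp only [Set.mem_Ioc, Pi.zero_apply, Int.cast_zero, Pi.add_apply, zr] at this ⊢
    constructor <;> linarith

/-- unfolding -/
lemma unfold_int {ψ : (Fin n → ℝ) → ℂ} (hψ : Integrable ψ) :
    ∫ x in cub (0 : Fin n → ℤ), ∑' p : Fin n → ℤ, ψ (x + zr p) = ∫ x, ψ x := by
  have h1 : ∀ p : Fin n → ℤ, Integrable (fun x => ψ (x + zr p)) (volume.restrict (cub (0 : Fin n → ℤ))) :=
    fun p => (hψ.comp_add_right (zr p)).integrableOn
  have h2 : Summable fun p : Fin n → ℤ => ∫ x in cub (0 : Fin n → ℤ), ‖ψ (x + zr p)‖ := by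
    have h3 := (hasSum_integral_iUnion (s := (cub : (Fin n → ℤ) → Set (Fin n → ℝ)))
      (f := fun x => ‖ψ x‖) measurableSet_cub cub_disjoint hψ.norm.integrableOn).summable
    refine h3.congr fun p => ?_
    rw [integral_cub]
  rw [← integral_tsum_of_summable_integral_norm h1 h2]
  have h4 := (hasSum_integral_iUnion (s := (cub : (Fin n → ℤ) → Set (Fin n → ℝ)))
      (f := ψ) measurableSet_cub cub_disjoint hψ.integrableOn).tsum_eq
  rw [iUnion_cub, Measure.restrict_univ] at h4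
  rw [← h4]
  exact tsum_congr fun p => (integral_cub ψ p).symm

lemma zr_sep (p p' : Fin n → ℤ) (h : p ≠ p') : (1 : ℝ) ≤ ‖zr p - zr p'‖ := by
  obtain ⟨i, hi⟩ : ∃ i, p i ≠ p' i := Function.ne_iff.1 h
  refine le_trans ?_ (norm_le_pi_norm (zr p - zr p') i)
  simp only [Pi.sub_apply, zr, Real.norm_eq_abs]
  rw [← Int.cast_sub, ← Int.cast_abs]
  have : (1 : ℤ) ≤ |p i - p' i| := Int.one_le_abs (sub_ne_zero.2 hi)
  exact_mod_cast this

/-- the periodization -/
def per (φ : (Fin n → ℝ) → ℂ) (x : Fin n → ℝ) : ℂ := ∑' p : Fin n → ℤ, φ (x + zr p)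

lemma shift_bound {c R : ℝ} (hc : 0 < c) {x : Fin n → ℝ} (hx : ‖x‖ ≤ R) (p : Fin n → ℤ) :
    Real.exp (-(c * ∑ i, (x + zr p) i ^ 2)) ≤
      Real.exp (c * (n * R ^ 2)) * Real.exp (-(c / 2 * ∑ i, zr p i ^ 2)) := by
  rw [← Real.exp_add]
  apply Real.exp_le_exp.2
  have h1 : ∀ i, zr p i ^ 2 ≤ 2 * (x + zr p) i ^ 2 + 2 * R ^ 2 := by
    intro i
    have h2 : |x i| ≤ R := by
      have := norm_le_pi_norm x i
      rw [Real.norm_eq_abs] at this
      linarith
    have h3 : x i ^ 2 ≤ R ^ 2 := sq_le_sq' (by linarith [neg_abs_le (x i)]) (by linarith [le_abs_self (x i)])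
    simp only [Pi.add_apply]
    nlinarith [sq_nonneg (2 * x i + zr p i)]
  have h4 : ∑ i, zr p i ^ 2 ≤ 2 * ∑ i, (x + zr p) i ^ 2 + n * (2 * R ^ 2) := by
    calc ∑ i, zr p i ^ 2 ≤ ∑ i, (2 * (x + zr p) i ^ 2 + 2 * R ^ 2) := sum_le_sum fun i _ => h1 i
      _ = _ := by rw [sum_add_distrib, ← mul_sum]; simp
  nlinarith

lemma continuous_per {φ : (Fin n → ℝ) → ℂ} (hφ : Continuous φ) {C c : ℝ} (hC : 0 ≤ C) (hc : 0 < c)
    (hb : ∀ x, ‖φ x‖ ≤ C * Real.exp (-(c * ∑ i, x i ^ 2))) : Continuous (per φ) := by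
  rw [continuous_iff_continuousAt]
  intro x₀
  have hs : Summable fun p : Fin n → ℤ => C * (Real.exp (c * (n * (‖x₀‖ + 1) ^ 2)) *
      Real.exp (-(c / 2 * ∑ i, zr p i ^ 2))) :=
    ((pack_summable one_pos (by linarith) zr zr_sep).mul_left _).mul_left _
  have h1 : ContinuousOn (per φ) (Metric.ball x₀ 1) := by
    refine continuousOn_tsum (fun p => (hφ.comp (continuous_id.add continuous_const)).continuousOn) hs ?_
    intro p x hx
    have hx' : ‖x‖ ≤ ‖x₀‖ + 1 := by
      rw [mem_ball_iff_norm] at hx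
      have := norm_le_norm_add_norm_sub' x x₀
      linarith
    exact (hb _).trans (mul_le_mul_of_nonneg_left (shift_bound hc hx' p) hC)
  exact h1.continuousAt (Metric.ball_mem_nhds x₀ one_pos)

lemma per_periodic (φ : (Fin n → ℝ) → ℂ) (x : Fin n → ℝ) (v : Fin n → ℤ) :
    per φ (fun i => x i + (v i : ℝ)) = per φ x := by
  unfold per
  rw [← (Equiv.addLeft v).tsum_eq (fun p : Fin n → ℤ => φ (x + zr p))]
  refine tsum_congr fun p => ?_
  congr 1
  funext i
  simp only [Pi.add_apply, zr, Equiv.coe_addLeft]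
  push_cast; ring

/-- lift of a function on `ℝ^n` to the torus -/
def lift0 (g : (Fin n → ℝ) → ℂ) (t : UnitAddTorus (Fin n)) : ℂ :=
  g (fun i => ((AddCircle.equivIoc (1 : ℝ) 0 (t i)).1))

theorem lift0_mk {g : (Fin n → ℝ) → ℂ}
    (hg : ∀ (x : Fin n → ℝ) (v : Fin n → ℤ), g (fun i => x i + (v i : ℝ)) = g x)
    (x : Fin n → ℝ) : lift0 g (fun i => (x i : UnitAddCircle)) = g x := by
  unfold lift0
  have h1 : ∀ i, ∃ n : ℤ, (AddCircle.equivIoc (1 : ℝ) 0 (x i : UnitAddCircle)).1 = x i + n := by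
    intro i
    have h2 : (((AddCircle.equivIoc (1 : ℝ) 0 (x i : UnitAddCircle)).1 : ℝ) : UnitAddCircle)
        = (x i : UnitAddCircle) := AddCircle.coe_equivIoc
    have h3 : (((AddCircle.equivIoc (1 : ℝ) 0 (x i : UnitAddCircle)).1 - x i : ℝ) : UnitAddCircle)
        = 0 := by
      rw [AddCircle.coe_sub, h2, sub_self]
    obtain ⟨n, hn⟩ := (AddCircle.coe_eq_zero_iff (1 : ℝ)).1 h3
    refine ⟨n, ?_⟩
    rw [zsmul_eq_mul, mul_one] at hn
    linarith
  choose v hv using h1
  have : (fun i => (AddCircle.equivIoc (1 : ℝ) 0 (x i : UnitAddCircle)).1)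
      = fun i => x i + (v i : ℝ) := funext hv
  rw [this, hg]

theorem lift0_continuous {g : (Fin n → ℝ) → ℂ}
    (hg : ∀ (x : Fin n → ℝ) (v : Fin n → ℤ), g (fun i => x i + (v i : ℝ)) = g x)
    (hc : Continuous g) : Continuous (lift0 g) := by
  have h1 : IsOpenQuotientMap (Pi.map fun (_ : Fin n) (x : ℝ) => (x : UnitAddCircle)) :=
    IsOpenQuotientMap.piMap fun _ => QuotientAddGroup.isOpenQuotientMap_mk
  rw [← h1.continuous_comp_iff]
  have : lift0 g ∘ (Pi.map fun (_ : Fin n) (x : ℝ) => (x : UnitAddCircle)) = g := by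
    funext x
    exact lift0_mk hg x
  rw [this]
  exact hc

/-- the character `e(-k·x)` -/
def chr (k : Fin n → ℤ) (x : Fin n → ℝ) : ℂ :=
  Complex.exp (-(2 * π * Complex.I * ∑ i, ((k i : ℂ) * (x i : ℂ))))

lemma mFourier_neg_mk (k : Fin n → ℤ) (x : Fin n → ℝ) :
    UnitAddTorus.mFourier (-k) (fun i => (x i : UnitAddCircle)) = chr k x := by
  unfold UnitAddTorus.mFourier chr
  simp only [ContinuousMap.coe_mk]
  simp only [fourier_coe_apply]
  rw [← Complex.exp_sum]
  congr 1
  rw [Finset.mul_sum, ← Finset.sum_neg_distrib]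
  refine Finset.sum_congr rfl fun i _ => ?_
  push_cast
  simp only [Pi.neg_apply]
  push_cast
  ring

lemma continuous_chr (k : Fin n → ℤ) : Continuous (chr k) := by
  unfold chr
  fun_prop

lemma norm_chr (k : Fin n → ℤ) (x : Fin n → ℝ) : ‖chr k x‖ = 1 := by
  unfold chr
  have : -(2 * π * Complex.I * ∑ i, ((k i : ℂ) * (x i : ℂ))) =
      ((-(2 * π * ∑ i, (k i : ℝ) * x i) : ℝ) : ℂ) * Complex.I := by
    push_cast; ring
  rw [this, Complex.norm_exp_ofReal_mul_I]

lemma chr_shift (k p : Fin n → ℤ) (x : Fin n → ℝ) : chr k (x + zr p) = chr k x := by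
  unfold chr
  have h1 : -(2 * π * Complex.I * ∑ i, ((k i : ℂ) * (((x + zr p) i : ℝ) : ℂ))) =
      -(2 * π * Complex.I * ∑ i, ((k i : ℂ) * (x i : ℂ))) + ((-∑ i, k i * p i : ℤ) : ℂ) * (2 * π * Complex.I) := by
    push_cast
    simp only [Pi.add_apply, zr, Complex.ofReal_add, Complex.ofReal_intCast, mul_add, Finset.sum_add_distrib]
    ring
  rw [h1, Complex.exp_add, Complex.exp_int_mul_two_pi_mul_I, mul_one]

/-- Fourier transform at integer points -/
def FT (φ : (Fin n → ℝ) → ℂ) (k : Fin n → ℤ) : ℂ := ∫ x, chr k x * φ x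

/-- **Poisson summation** -/
theorem poisson {φ : (Fin n → ℝ) → ℂ} (hφ : Continuous φ) {C c : ℝ} (hC : 0 ≤ C) (hc : 0 < c)
    (hb : ∀ x, ‖φ x‖ ≤ C * Real.exp (-(c * ∑ i, x i ^ 2))) (hs : Summable (FT φ)) :
    ∑' p : Fin n → ℤ, φ (zr p) = ∑' k : Fin n → ℤ, FT φ k := by
  have hper := per_periodic φ
  have hcont := continuous_per hφ hC hc hb
  set F : C(UnitAddTorus (Fin n), ℂ) := ⟨lift0 (per φ), lift0_continuous hper hcont⟩ with hF
  have hint : Integrable φ := by
    refine ((integrable_gauss n hc).const_mul C).mono' hφ.aestronglyMeasurable ?_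
    exact Filter.Eventually.of_forall hb
  have hcoef : ∀ k, UnitAddTorus.mFourierCoeff F k = FT φ k := by
    intro k
    rw [UnitAddTorus.mFourierCoeff_eq_integral (F : UnitAddTorus (Fin n) → ℂ) k 0]
    have h1 : {x : Fin n → ℝ | ∀ i, x i ∈ Set.Ioc ((0 : Fin n → ℝ) i) ((0 : Fin n → ℝ) i + 1)} =
        cub (0 : Fin n → ℤ) := by
      ext x; simp [cub]
    rw [h1]
    have h2 : ∀ x : Fin n → ℝ, UnitAddTorus.mFourier (-k) (fun i => (x i : UnitAddCircle)) •
        (F : UnitAddTorus (Fin n) → ℂ) (fun i => (x i : UnitAddCircle)) =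
        ∑' p : Fin n → ℤ, (fun y => chr k y * φ y) (x + zr p) := by
      intro x
      have h3 : (F : UnitAddTorus (Fin n) → ℂ) (fun i => (x i : UnitAddCircle)) = per φ x :=
        lift0_mk hper x
      rw [h3, mFourier_neg_mk, smul_eq_mul]
      unfold per
      rw [← tsum_mul_left]
      refine tsum_congr fun p => ?_
      simp only [chr_shift]
    have hI : Integrable (fun y => chr k y * φ y) := by
      refine (integrable_norm_iff ((continuous_chr k).mul hφ).aestronglyMeasurable).1 ?_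
      have : (fun x => ‖(chr k * φ) x‖) = fun x => ‖φ x‖ := by
        funext x; rw [Pi.mul_apply, norm_mul, norm_chr, one_mul]
      rw [this]
      exact hint.norm
    have h8 := unfold_int hI
    rw [show FT φ k = ∫ x, (fun y => chr k y * φ y) x from rfl, ← h8]
    congr 1
    funext x
    exact h2 x
  have hs' : Summable (UnitAddTorus.mFourierCoeff F) := by
    rw [show UnitAddTorus.mFourierCoeff F = FT φ from funext hcoef]
    exact hs
  have h := (UnitAddTorus.hasSum_mFourier_series_apply_of_summable hs'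
    (fun i => (((0 : Fin n → ℝ) i : ℝ) : UnitAddCircle))).tsum_eq
  have h4 : F (fun i => (((0 : Fin n → ℝ) i : ℝ) : UnitAddCircle)) = per φ 0 := lift0_mk hper 0
  rw [h4] at h
  have h5 : per φ 0 = ∑' p : Fin n → ℤ, φ (zr p) := by
    unfold per
    simp only [zero_add]
  rw [← h5, ← h]
  refine tsum_congr fun k => ?_
  rw [hcoef, smul_eq_mul]
  have h6 : UnitAddTorus.mFourier k (fun i => (((0 : Fin n → ℝ) i : ℝ) : UnitAddCircle)) = 1 := by
    have h7 := mFourier_neg_mk (-k) (0 : Fin n → ℝ)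
    rw [neg_neg] at h7
    rw [h7]
    simp [chr]
  rw [h6, mul_one]

end

end Pool.Agent.Helper22.Opp
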