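import Pool.Agent.Helper22.Opp.Run

/-!
# First phase, merging of columns, and the two unbounded regions
-/

set_option autoImplicit false

open Finset

namespace Pool.Agent.Helper22.Opp

noncomputable section

variable {m : ℕ} {y : ℕ → ℝ → ℝ} {H W S : ℕ} {tL tU : List (List ℕ)}

lemma run1_succ (WS N : ℕ) (cs : List (List ℕ × List ℕ)) (wl wu : ℕ) :
    run1 H W WS tL tU (N + 1) cs wl wu =
      run1 H W WS tL tU N (cs.map (stepC H W WS tL tU wl wu)) (wLo H wl) (wUp H wu) := by
  change (forceC (cs.map (stepC H W WS tL tU wl wu)) fun cs' =>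
      force (wLo H wl) fun wl' => force (wUp H wu) fun wu' => run1 H W WS tL tU N cs' wl' wu') = _
  rw [forceC_eq, force_eq, force_eq]

theorem run1_sound (hT : Tab H S m tL tU) (hS : 0 < S) (hH : 0 < H) (hW : 0 < W) (hy : Sol m y) {κ : ℕ → ℝ} :
    ∀ (N : ℕ) (x : ℝ) (cs : List (List ℕ × List ℕ)) (wl wu : ℕ) (_ : Inv m W y κ x ⟨cs, wl, wu⟩)
    (_ : 2 * ((1 / (H : ℝ)) ^ (m + 1) * Real.exp (-x)) ≤ ((m + 1).factorial : ℝ)),
    Inv m W y κ (x + N / H) (run1 H W (W * S) tL tU N cs wl wu)
  | 0, x, cs, wl, wu, hI, _ => by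
    have : run1 H W (W * S) tL tU 0 cs wl wu = ⟨cs, wl, wu⟩ := rfl
    rw [this]
    simpa using hI
  | N + 1, x, cs, wl, wu, hI, hw => by
    have hH' : (0 : ℝ) < H := by exact_mod_cast hH
    have hI' := hI.step hT hS hH hW hy hw
    have hw' : 2 * ((1 / (H : ℝ)) ^ (m + 1) * Real.exp (-(x + 1 / (H : ℝ)))) ≤ ((m + 1).factorial : ℝ) := by
      refine le_trans ?_ hw
      have : Real.exp (-(x + 1 / (H : ℝ))) ≤ Real.exp (-x) :=
        Real.exp_le_exp.2 (by have : 0 < 1 / (H : ℝ) := by positivity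
                              linarith)
      gcongr
    have := run1_sound hT hS hH hW hy N _ _ _ _ hI' hw'
    rw [run1_succ]
    have e : x + 1 / (H : ℝ) + N / H = x + ((N + 1 : ℕ) : ℝ) / H := by
      push_cast; field_simp; ring
    rw [e] at this
    exact this

lemma idCols_length (D M : ℕ) : (idCols D M).length = M := by simp [idCols]

lemma idCols_getD (D M k : ℕ) (hk : k < M) : (idCols D M).getD k ([], []) =
    ((List.range M).map fun i => if i = k then D else 0, (List.range M).map fun i => if i = k then D else 0) := by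
  unfold idCols
  rw [List.getD_eq_getElem?_getD, List.getElem?_map, List.getElem?_range hk]
  simp

lemma vec_id (D M k j : ℕ) (hj : j < M) :
    vec ((List.range M).map fun i => if i = k then D else 0) j = if j = k then (D : ℝ) else 0 := by
  unfold vec
  rw [List.getD_eq_getElem?_getD, List.getElem?_map, List.getElem?_range hj]
  simp only [Option.map_some, Option.getD_some]
  split_ifs <;> simp

lemma inv_init (hy : Sol m y) {D w0 : ℕ} (hD : 0 < D) {x : ℝ} (hx : Real.exp (-x) = w0) :
    Inv m W y (fun k => y k x / D) x ⟨idCols D (m + 1), W * w0, W * w0⟩ := by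
  have hD' : (0 : ℝ) < D := by exact_mod_cast hD
  refine ⟨fun k => (div_pos (hy.pos _ _) hD').le, ?_, ?_, ?_, ?_, ?_⟩
  · intro c hc
    simp only [idCols, List.mem_map, List.mem_range] at hc
    obtain ⟨k, _, rfl⟩ := hc
    simp
  · rw [hx]; push_cast; exact le_rfl
  · rw [hx]; push_cast; exact le_rfl
  · intro j hj
    rw [idCols_length]
    have : ∀ k ∈ range (m + 1), y k x / D * colLo (idCols D (m + 1)) k j = if j = k then y j x else 0 := by
      intro k hk
      rw [mem_range] at hk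
      unfold colLo
      rw [idCols_getD _ _ _ hk]
      simp only
      rw [vec_id _ _ _ _ (by omega)]
      split_ifs with h
      · subst h; field_simp
      · simp
    rw [sum_congr rfl this, sum_ite_eq, if_pos (by rw [mem_range]; omega)]
  · intro j hj
    rw [idCols_length]
    have : ∀ k ∈ range (m + 1), y k x / D * colUp (idCols D (m + 1)) k j = if j = k then y j x else 0 := by
      intro k hk
      rw [mem_range] at hk
      unfold colUp
      rw [idCols_getD _ _ _ hk]
      simp only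
      rw [vec_id _ _ _ _ (by omega)]
      split_ifs with h
      · subst h; field_simp
      · simp
    rw [sum_congr rfl this, sum_ite_eq, if_pos (by rw [mem_range]; omega)]

/-- merging the columns -/
lemma merge_sound (hy : Sol m y) {κ : ℕ → ℝ} {x : ℝ} {s : St} (hI : Inv m W y κ x s) {D : ℕ} (hD : 0 < D)
    {a b : List ℕ} (la : a.length = m + 1) (lb : b.length = m + 1) (hc : mergeChk D s.cols a b = true) :
    Inv1 m W y (y 0 x / D) x a b s.wl s.wu := by
  have hD' : (0 : ℝ) < D := by exact_mod_cast hD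
  have hmem : ∀ k < s.cols.length, s.cols.getD k ([], []) ∈ s.cols := by
    intro k hk
    rw [List.getD_eq_getElem?_getD, List.getElem?_eq_getElem hk]
    simp
  have hall : ∀ k < s.cols.length, ∀ j ≤ m, vec a j * colUp s.cols k 0 ≤ D * colLo s.cols k j ∧
      D * colUp s.cols k j ≤ vec b j * colLo s.cols k 0 := by
    intro k hk j hj
    unfold mergeChk at hc
    rw [List.all_eq_true] at hc
    have h1 := hc _ (hmem k hk)
    rw [List.all_eq_true] at h1
    have h2 := h1 j (by rw [List.mem_range, la]; omega)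
    rw [Bool.and_eq_true] at h2
    have h3 := Nat.le_of_ble_eq_true h2.1
    have h4 := Nat.le_of_ble_eq_true h2.2
    unfold colUp colLo vec
    exact ⟨by exact_mod_cast h3, by exact_mod_cast h4⟩
  have hy0 : 0 < y 0 x := hy.pos _ _
  refine ⟨(div_pos hy0 hD').le, la, lb, hI.wl, hI.wu, ?_, ?_⟩
  · intro j hj
    have h1 : vec a j * y 0 x ≤ D * y j x := by
      calc vec a j * y 0 x ≤ vec a j * ∑ k ∈ range s.cols.length, κ k * colUp s.cols k 0 :=
            mul_le_mul_of_nonneg_left (hI.up 0 (by omega)) (vec_nonneg _ _)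
        _ = ∑ k ∈ range s.cols.length, κ k * (vec a j * colUp s.cols k 0) := by
            rw [mul_sum]; exact sum_congr rfl fun k _ => by ring
        _ ≤ ∑ k ∈ range s.cols.length, κ k * (D * colLo s.cols k j) :=
            sum_le_sum fun k hk => mul_le_mul_of_nonneg_left (hall k (mem_range.1 hk) j hj).1 (hI.pos k)
        _ = D * ∑ k ∈ range s.cols.length, κ k * colLo s.cols k j := by
            rw [mul_sum]; exact sum_congr rfl fun k _ => by ring
        _ ≤ D * y j x := mul_le_mul_of_nonneg_left (hI.lo j hj) hD'.le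
    rw [div_mul_eq_mul_div, div_le_iff₀ hD']
    linarith
  · intro j hj
    have h1 : D * y j x ≤ vec b j * y 0 x := by
      calc D * y j x ≤ D * ∑ k ∈ range s.cols.length, κ k * colUp s.cols k j :=
            mul_le_mul_of_nonneg_left (hI.up j hj) hD'.le
        _ = ∑ k ∈ range s.cols.length, κ k * (D * colUp s.cols k j) := by
            rw [mul_sum]; exact sum_congr rfl fun k _ => by ring
        _ ≤ ∑ k ∈ range s.cols.length, κ k * (vec b j * colLo s.cols k 0) :=
            sum_le_sum fun k hk => mul_le_mul_of_nonneg_left (hall k (mem_range.1 hk) j hj).2 (hI.pos k)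
        _ = vec b j * ∑ k ∈ range s.cols.length, κ k * colLo s.cols k 0 := by
            rw [mul_sum]; exact sum_congr rfl fun k _ => by ring
        _ ≤ vec b j * y 0 x := mul_le_mul_of_nonneg_left (hI.lo 0 (by omega)) (vec_nonneg _ _)
    rw [div_mul_eq_mul_div, le_div_iff₀ hD']
    linarith

/-! ### ratios -/

lemma zz_succ (hy : Sol m y) (x : ℝ) (i : ℕ) :
    zz m y x (i + 1) = Real.exp (-x) ^ (i / (m + 1)) * y (i % (m + 1) + 1) x := by
  have h4 := Nat.div_add_mod i (m + 1)
  set r := i / (m + 1) with hr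
  set j := i % (m + 1) with hj
  have hjm : j < m + 1 := Nat.mod_lt _ (by omega)
  have e : i + 1 = r * (m + 1) + (j + 1) := by rw [← h4]; ring
  rw [e, zz_add]
  congr 1
  rcases Nat.lt_or_ge (j + 1) (m + 1) with h | h
  · rw [zz_small _ h]
  · have : j = m := by omega
    rw [this, hy.last]
    have := zz_add (m := m) (y := y) x 1 0
    rw [one_mul, add_zero, pow_one, zz_small x (show 0 < m + 1 by omega)] at this
    exact this

lemma zz_ratio (hy : Sol m y) (x : ℝ) (i : ℕ) {α β : ℝ} (h : α * y (i % (m + 1)) x ≤ β * y (i % (m + 1) + 1) x) :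
    α * zz m y x i ≤ β * zz m y x (i + 1) := by
  rw [zz_succ hy]
  unfold zz
  have := mul_le_mul_of_nonneg_left h (pow_pos (Real.exp_pos (-x)) (i / (m + 1))).le
  linarith

lemma zz_ratio' (hy : Sol m y) (x : ℝ) (i : ℕ) {α β : ℝ} (h : β * y (i % (m + 1) + 1) x ≤ α * y (i % (m + 1)) x) :
    β * zz m y x (i + 1) ≤ α * zz m y x i := by
  rw [zz_succ hy]
  unfold zz
  have := mul_le_mul_of_nonneg_left h (pow_pos (Real.exp_pos (-x)) (i / (m + 1))).le
  linarith

/-! ### large weight -/

lemma lowChk_sound {E M : ℕ} {rs : List ℕ} {Z : ℕ → ℝ} (hZ : ∀ i, 0 ≤ Z i)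
    (hr : ∀ i, 0 < rs.getD (i % M) 1) (h : ∀ i, (rs.getD (i % M) 1 : ℝ) * Z i ≤ E * Z (i + 1)) :
    ∀ (cs : List (ℕ × ℕ)) (i n : ℕ) (_ : lowChk E M rs i n cs = true),
      (n : ℝ) * Z i ≤ evA (fun t => Z (t + 1)) i cs
  | [], i, n, hc => by
    have : n ≤ 0 := Nat.le_of_ble_eq_true hc
    have : n = 0 := by omega
    simp [this, evA]
  | c :: cs, i, n, hc => by
    rw [lowChk] at hc
    have ih := lowChk_sound hZ hr h cs (i + 1) _ hc
    rw [evA]
    set r := rs.getD (i % M) 1 with hrd
    have hr' : (0 : ℝ) < r := by exact_mod_cast hr i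
    set n' := (c.2 + (n * E / r + 1)) - c.1 with hn'
    have h1 : (c.2 : ℝ) + ((n * E / r + 1 : ℕ) : ℝ) - c.1 ≤ n' := by
      have : c.2 + (n * E / r + 1) ≤ n' + c.1 := by omega
      have : ((c.2 + (n * E / r + 1) : ℕ) : ℝ) ≤ ((n' + c.1 : ℕ) : ℝ) := by exact_mod_cast this
      push_cast at this ⊢
      linarith
    have h2 : ((n * E : ℕ) : ℝ) / r ≤ ((n * E / r + 1 : ℕ) : ℝ) := cast_div_ge' _ _ (hr i)
    have h3 : (n : ℝ) * Z i ≤ ((n * E : ℕ) : ℝ) / r * Z (i + 1) := by
      have := mul_le_mul_of_nonneg_left (h i) (Nat.cast_nonneg (α := ℝ) n)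
      rw [div_mul_eq_mul_div, le_div_iff₀ hr']
      push_cast
      linarith
    have h4 : (n : ℝ) * Z i ≤ ((n * E / r + 1 : ℕ) : ℝ) * Z (i + 1) :=
      h3.trans (mul_le_mul_of_nonneg_right h2 (hZ _))
    have h5 := mul_le_mul_of_nonneg_right h1 (hZ (i + 1))
    have h6 : (n' : ℝ) * Z (i + 1) ≤ evA (fun t => Z (t + 1)) (i + 1) cs := ih
    nlinarith

lemma low_region (hy : Sol m y) {E Rn wl : ℕ} (hE : 0 < E) (hW : 0 < W) (hRn : 0 < Rn) {rs : List ℕ} {x1 : ℝ}
    (hwl : (wl : ℝ) ≤ W * Real.exp (-x1)) (hok : lowOk E (m + 1) Rn W wl rs = true)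
    (ham : ∀ {R x : ℝ}, 0 < R → x ≤ -((m : ℝ) + 1) * Real.log R → ∀ {j : ℕ}, j ≤ m →
      ((m : ℝ) + 1) * R * y j x ≤ (m + 1) * y (j + 1) x + j * y j x)
    {F : List (ℕ × ℕ)} (hc : lowChk E (m + 1) rs 0 0 F = true) {x : ℝ} (hx : x ≤ x1) :
    0 ≤ evA (zz m y x) 0 F := by
  have hE' : (0 : ℝ) < E := by exact_mod_cast hE
  have hW' : (0 : ℝ) < W := by exact_mod_cast hW
  have hRn' : (0 : ℝ) < Rn := by exact_mod_cast hRn
  unfold lowOk at hok
  rw [Bool.and_eq_true, List.all_eq_true] at hok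
  obtain ⟨h1, h2⟩ := hok
  have h1' : Rn ^ (m + 1) * W ≤ wl * E ^ (m + 1) := Nat.le_of_ble_eq_true h1
  set R : ℝ := (Rn : ℝ) / E with hR
  have hR0 : 0 < R := by positivity
  have hRx : x ≤ -((m : ℝ) + 1) * Real.log R := by
    have e1 : R ^ (m + 1) ≤ Real.exp (-x1) := by
      have e2 : ((Rn ^ (m + 1) * W : ℕ) : ℝ) ≤ ((wl * E ^ (m + 1) : ℕ) : ℝ) := by exact_mod_cast h1'
      push_cast at e2
      have e3 : (wl : ℝ) * (E : ℝ) ^ (m + 1) ≤ W * Real.exp (-x1) * (E : ℝ) ^ (m + 1) :=
        mul_le_mul_of_nonneg_right hwl (by positivity)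
      have e4 : (Rn : ℝ) ^ (m + 1) ≤ Real.exp (-x1) * (E : ℝ) ^ (m + 1) := by
        have : (Rn : ℝ) ^ (m + 1) * W ≤ (Real.exp (-x1) * (E : ℝ) ^ (m + 1)) * W := by linarith
        exact le_of_mul_le_mul_right this hW'
      rw [hR, div_pow, div_le_iff₀ (by positivity)]
      exact e4
    have e5 := Real.log_le_log (by positivity) e1
    rw [Real.log_exp, Real.log_pow] at e5
    push_cast at e5
    linarith
  have hj : ∀ j ≤ m, 0 < rs.getD ((j + 1) % (m + 1)) 1 ∧
      (rs.getD ((j + 1) % (m + 1)) 1 : ℝ) * y j x ≤ E * y (j + 1) x := by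
    intro j hj
    have h3 := h2 j (by rw [List.mem_range]; omega)
    rw [Bool.and_eq_true] at h3
    have h4 := Nat.le_of_ble_eq_true h3.1
    have h5 := Nat.le_of_ble_eq_true h3.2
    refine ⟨h5, ?_⟩
    set r := rs.getD ((j + 1) % (m + 1)) 1
    have h6 : ((r * (m + 1) + j * E : ℕ) : ℝ) ≤ ((Rn * (m + 1) : ℕ) : ℝ) := by exact_mod_cast h4
    push_cast at h6
    have h7 := ham hR0 hRx hj
    have hyj : 0 < y j x := hy.pos _ _
    have h8 : (Rn : ℝ) = R * E := by rw [hR]; field_simp
    have h9 : ((r : ℝ) * (m + 1) + j * E) * y j x ≤ (R * E) * (m + 1) * y j x := by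
      rw [← h8]; exact mul_le_mul_of_nonneg_right h6 hyj.le
    have h10 := mul_le_mul_of_nonneg_left h7 hE'.le
    have h11 : ((m : ℝ) + 1) * ((r : ℝ) * y j x) ≤ ((m : ℝ) + 1) * (E * y (j + 1) x) := by nlinarith
    exact le_of_mul_le_mul_left h11 (by positivity)
  set Z : ℕ → ℝ := fun i => match i with
    | 0 => 0
    | i + 1 => zz m y x i with hZ
  have hpos : ∀ i, 0 < rs.getD (i % (m + 1)) 1 := by
    intro i
    have e : i % (m + 1) = ((i + m) % (m + 1) + 1) % (m + 1) := by
      rw [Nat.mod_add_mod, show i + m + 1 = i + (m + 1) by ring, Nat.add_mod_right]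
    rw [e]
    have : (i + m) % (m + 1) < m + 1 := Nat.mod_lt _ (by omega)
    exact (hj _ (by omega)).1
  have := lowChk_sound (E := E) (M := m + 1) (rs := rs) (Z := Z)
    (fun i => by
      rcases i with _ | i
      · exact le_rfl
      · exact (zz_pos hy x i).le) hpos
    (fun i => by
      rcases i with _ | i
      · simp only [hZ, mul_zero]
        exact mul_nonneg hE'.le (zz_pos hy x 0).le
      · simp only [hZ]
        refine zz_ratio hy x i ?_
        have hlt : i % (m + 1) < m + 1 := Nat.mod_lt _ (by omega)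
        have := (hj (i % (m + 1)) (by omega)).2
        rw [Nat.mod_add_mod] at this
        exact this) F 0 0 hc
  simpa [hZ] using this

/-! ### small weight -/

lemma tailN_sound {E M : ℕ} {rs : List ℕ} {Z : ℕ → ℝ} (hE : 0 < E) (hZ : ∀ i, 0 ≤ Z i)
    (h : ∀ i, E * Z (i + 1) ≤ (rs.getD (i % M) 0 : ℝ) * Z i) :
    ∀ (cs : List (ℕ × ℕ)) (i : ℕ), -((tailN E M rs i cs : ℕ) : ℝ) * Z i ≤ evA Z i cs
  | [], i => by simp [tailN, evA]
  | c :: cs, i => by
    have ih := tailN_sound hE hZ h cs (i + 1)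
    rw [evA, tailN]
    have hE' : (0 : ℝ) < E := by exact_mod_cast hE
    set r := rs.getD (i % M) 0 with hrd
    set t := tailN E M rs (i + 1) cs with ht
    set n' := (c.2 + (r * t / E + 1)) - c.1 with hn'
    have h1 : (c.2 : ℝ) + ((r * t / E + 1 : ℕ) : ℝ) - c.1 ≤ n' := by
      have : c.2 + (r * t / E + 1) ≤ n' + c.1 := by omega
      have : ((c.2 + (r * t / E + 1) : ℕ) : ℝ) ≤ ((n' + c.1 : ℕ) : ℝ) := by exact_mod_cast this
      push_cast at this ⊢
      linarith
    have h2 : ((r * t : ℕ) : ℝ) / E ≤ ((r * t / E + 1 : ℕ) : ℝ) := cast_div_ge' _ _ hE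
    have h3 : (t : ℝ) * Z (i + 1) ≤ ((r * t : ℕ) : ℝ) / E * Z i := by
      have := mul_le_mul_of_nonneg_left (h i) (Nat.cast_nonneg (α := ℝ) t)
      rw [div_mul_eq_mul_div, le_div_iff₀ hE']
      push_cast
      linarith
    have h4 : (t : ℝ) * Z (i + 1) ≤ ((r * t / E + 1 : ℕ) : ℝ) * Z i :=
      h3.trans (mul_le_mul_of_nonneg_right h2 (hZ _))
    have h5 := mul_le_mul_of_nonneg_right h1 (hZ i)
    nlinarith

/-- the ratio bounds are kept as the weight decreases -/
theorem tail_inv (hy : Sol m y) {R : ℕ → ℝ} (hR : ∀ j < m, R (j + 1) ≤ R j) (hRm : R 0 ≤ R m + 1) {x0 : ℝ}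
    (h0 : y 1 x0 < R 0 * y 0 x0) (hj : ∀ j ≤ m, y (j + 1) x0 ≤ R j * y j x0) :
    ∀ x, x0 ≤ x → ∀ j ≤ m, y (j + 1) x ≤ R j * y j x := by
  -- the defects
  set e : ℕ → ℝ → ℝ := fun j x => R j * y j x - y (j + 1) x with he
  have hd : ∀ j < m, ∀ x, HasDerivAt (e j) (R j * y (j + 1) x - y (j + 2) x) x := by
    intro j hj x
    exact ((hy.d j (by omega) x).const_mul _).sub (hy.d (j + 1) (by omega) x)
  have hdm : ∀ x, HasDerivAt (e m) (R m * y (m + 1) x -
      (Real.exp (-x) * y 1 x - Real.exp (-x) * y 0 x)) x := by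
    intro x
    have h1 : HasDerivAt (y (m + 1)) (Real.exp (-x) * y 1 x - Real.exp (-x) * y 0 x) x := by
      have e1 : y (m + 1) = fun x => Real.exp (-x) * y 0 x := by funext x; exact hy.last x
      rw [e1]
      have h2 : HasDerivAt (fun x : ℝ => Real.exp (-x)) (Real.exp (-x) * (-1)) x := (hasDerivAt_neg x).exp
      have := h2.mul (hy.d 0 (by omega) x)
      refine this.congr_deriv ?_
      simp only [Nat.zero_add]
      ring
    exact ((hy.d m le_rfl x).const_mul _).sub h1
  have hcont : ∀ j ≤ m, Continuous (e j) := by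
    intro j hj
    rcases Nat.lt_or_ge j m with h | h
    · exact continuous_iff_continuousAt.2 fun x => (hd j h x).continuousAt
    · have : j = m := le_antisymm hj h
      subst this
      exact continuous_iff_continuousAt.2 fun x => (hdm x).continuousAt
  -- downward induction on an interval where `e 0 ≥ 0`
  have step : ∀ x1, x0 ≤ x1 → (∀ x, x0 ≤ x → x ≤ x1 → 0 ≤ e 0 x) → ∀ k ≤ m, ∀ x, x0 ≤ x → x ≤ x1 →
      e (m - k) x0 ≤ e (m - k) x := by
    intro x1 hx1 hpos k
    induction k with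
    | zero =>
      intro _ x h1 h2
      rw [Nat.sub_zero]
      have hmono : MonotoneOn (e m) (Set.Icc x0 x1) := by
        refine monotoneOn_of_deriv_nonneg (convex_Icc _ _) (hcont m le_rfl).continuousOn
          (fun z _ => (hdm z).differentiableAt.differentiableWithinAt) ?_
        intro z hz
        rw [interior_Icc] at hz
        rw [(hdm z).deriv, hy.last]
        have h3 := hpos z hz.1.le hz.2.le
        simp only [he] at h3
        have h4 : 0 < Real.exp (-z) := Real.exp_pos _
        have h5 : 0 < y 0 z := hy.pos _ _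
        have h6 : 0 ≤ R m * y 0 z - y 1 z + y 0 z := by nlinarith
        have h7 := mul_nonneg h4.le h6
        nlinarith
      exact hmono ⟨le_rfl, hx1⟩ ⟨h1, h2⟩ h1
    | succ k ih =>
      intro hk x h1 h2
      have hk' : k ≤ m := by omega
      have hlt : m - (k + 1) < m := by omega
      have hs : m - (k + 1) + 1 = m - k := by omega
      have hmono : MonotoneOn (e (m - (k + 1))) (Set.Icc x0 x1) := by
        refine monotoneOn_of_deriv_nonneg (convex_Icc _ _) (hcont _ hlt.le).continuousOn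
          (fun z _ => (hd _ hlt z).differentiableAt.differentiableWithinAt) ?_
        intro z hz
        rw [interior_Icc] at hz
        rw [(hd _ hlt z).deriv]
        have h3 := ih hk' z hz.1.le hz.2.le
        have h4 := hj (m - k) (by omega)
        simp only [he] at h3
        have h5 := hR _ hlt
        rw [hs] at h5
        rw [show m - (k + 1) + 2 = m - k + 1 by omega, hs]
        have h6 : 0 < y (m - k) z := hy.pos _ _
        nlinarith
      exact hmono ⟨le_rfl, hx1⟩ ⟨h1, h2⟩ h1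
  -- `e 0` stays positive
  have he0 : 0 < e 0 x0 := by simp only [he, Nat.zero_add]; linarith
  have main : ∀ x, x0 ≤ x → 0 ≤ e 0 x := by
    by_contra hcon
    push Not at hcon
    obtain ⟨z, hz0, hz1⟩ := hcon
    set S := {t : ℝ | x0 ≤ t ∧ e 0 t < e 0 x0 / 2} with hS
    have hzS : z ∈ S := ⟨hz0, by linarith⟩
    have hbdd : BddBelow S := ⟨x0, fun t ht => ht.1⟩
    set t := sInf S with ht
    have hxt : x0 ≤ t := le_csInf ⟨z, hzS⟩ fun s hs => hs.1
    have hbefore : ∀ x, x0 ≤ x → x < t → e 0 x0 / 2 ≤ e 0 x := by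
      intro x h1 h2
      by_contra h3
      push Not at h3
      have : t ≤ x := csInf_le hbdd ⟨h1, h3⟩
      linarith
    have hc0 := hcont 0 (Nat.zero_le m)
    have hatt : e 0 x0 / 2 ≤ e 0 t := by
      rcases eq_or_lt_of_le hxt with h | h
      · rw [← h]; linarith
      · have hcl : t ∈ closure (Set.Ico x0 t) := by
          rw [closure_Ico h.ne]
          exact ⟨h.le, le_rfl⟩
        have : t ∈ {s | e 0 x0 / 2 ≤ e 0 s} :=
          closure_minimal (fun s hs => hbefore s hs.1 hs.2) (isClosed_le continuous_const hc0) hcl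
        exact this
    have hup : e 0 x0 ≤ e 0 t := by
      have := step t hxt (fun x h1 h2 => by
        rcases eq_or_lt_of_le h2 with h | h
        · rw [h]; linarith
        · linarith [hbefore x h1 h]) m le_rfl t hxt le_rfl
      rw [Nat.sub_self] at this
      exact this
    -- values just after `t` are large as well
    have hnear : ∀ᶠ s in nhds t, e 0 x0 / 2 < e 0 s := by
      have : Set.Ioi (e 0 x0 / 2) ∈ nhds (e 0 t) := Ioi_mem_nhds (by linarith)
      exact hc0.continuousAt this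
    obtain ⟨ε, hε, hball⟩ := Metric.eventually_nhds_iff.1 hnear
    obtain ⟨s, hs, hst⟩ := exists_lt_of_csInf_lt ⟨z, hzS⟩ (show sInf S < t + ε by linarith)
    have hts : t ≤ s := csInf_le hbdd hs
    have := hball (y := s) (by rw [Real.dist_eq, abs_lt]; constructor <;> linarith)
    linarith [hs.2]
  intro x hx j hjm
  have := step x hx (fun z h1 _ => main z h1) (m - j) (by omega) x hx le_rfl
  rw [show m - (m - j) = j by omega] at this
  have h2 := hj j hjm
  simp only [he] at this
  linarith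

lemma tail_region (hm : 1 ≤ m) (hy : Sol m y) {E : ℕ} (hE : 0 < E) (hW : 0 < W) {Y x0 : ℝ} (hY : 0 < Y)
    {a b : List ℕ} {wl wu : ℕ} (hI : Inv1 m W y Y x0 a b wl wu) {rs : List ℕ}
    (hok : tailOk E (m + 1) W wu rs a b = true)
    {F : List (ℕ × ℕ)} (hc : tailN E (m + 1) rs 0 F = 0) {x : ℝ} (hx : x0 ≤ x) :
    0 ≤ evA (zz m y x) 0 F := by
  have hE' : (0 : ℝ) < E := by exact_mod_cast hE
  have hW' : (0 : ℝ) < W := by exact_mod_cast hW
  unfold tailOk at hok
  simp only [Bool.and_eq_true, List.all_eq_true, List.mem_range, Nat.add_sub_cancel] at hok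
  obtain ⟨⟨⟨h1, h2⟩, h3⟩, h4⟩ := hok
  have h1' := Nat.le_of_ble_eq_true h1
  have h2' := Nat.le_of_ble_eq_true h2
  have h3' := Nat.le_of_ble_eq_true h3
  set R : ℕ → ℝ := fun j => (rs.getD j 0 : ℝ) / E with hR
  have hle : ∀ j < m, y (j + 1) x0 ≤ R j * y j x0 := by
    intro j hj
    have h5 := Nat.le_of_ble_eq_true (h4 j hj).1
    have h6 : (E : ℝ) * vec b (j + 1) ≤ rs.getD j 0 * vec a j := by unfold vec; exact_mod_cast h5
    have h7 := hI.up (j + 1) (by omega)
    have h8 := hI.lo j hj.le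
    have h9 : (E : ℝ) * y (j + 1) x0 ≤ rs.getD j 0 * y j x0 := by
      calc (E : ℝ) * y (j + 1) x0 ≤ E * (Y * vec b (j + 1)) := mul_le_mul_of_nonneg_left h7 hE'.le
        _ = Y * (E * vec b (j + 1)) := by ring
        _ ≤ Y * (rs.getD j 0 * vec a j) := mul_le_mul_of_nonneg_left h6 hY.le
        _ = rs.getD j 0 * (Y * vec a j) := by ring
        _ ≤ rs.getD j 0 * y j x0 := mul_le_mul_of_nonneg_left h8 (Nat.cast_nonneg _)
    simp only [hR]
    rw [div_mul_eq_mul_div, le_div_iff₀ hE']
    linarith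
  have hlt : y 1 x0 < R 0 * y 0 x0 := by
    have h6 : (E : ℝ) * vec b 1 + 1 ≤ rs.getD 0 0 * vec a 0 := by unfold vec; exact_mod_cast h1'
    have h7 := hI.up 1 hm
    have h8 := hI.lo 0 (Nat.zero_le _)
    have h9 : (E : ℝ) * y 1 x0 < rs.getD 0 0 * y 0 x0 := by
      calc (E : ℝ) * y 1 x0 ≤ E * (Y * vec b 1) := mul_le_mul_of_nonneg_left h7 hE'.le
        _ = Y * (E * vec b 1) := by ring
        _ < Y * (rs.getD 0 0 * vec a 0) := mul_lt_mul_of_pos_left (by linarith) hY
        _ = rs.getD 0 0 * (Y * vec a 0) := by ring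
        _ ≤ rs.getD 0 0 * y 0 x0 := mul_le_mul_of_nonneg_left h8 (Nat.cast_nonneg _)
    simp only [hR]
    rw [div_mul_eq_mul_div, lt_div_iff₀ hE']
    linarith
  have hlast : y (m + 1) x0 ≤ R m * y m x0 := by
    have h6 : (E : ℝ) * wu * vec b 0 ≤ rs.getD m 0 * vec a m * W := by unfold vec; exact_mod_cast h2'
    have h7 := hI.up 0 (Nat.zero_le _)
    have h8 := hI.lo m le_rfl
    have hy0 : 0 < y 0 x0 := hy.pos _ _
    have hwu0 : (0 : ℝ) ≤ wu := Nat.cast_nonneg _
    have h9 : W * (E * y (m + 1) x0) ≤ W * (rs.getD m 0 * y m x0) := by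
      rw [hy.last]
      calc W * (E * (Real.exp (-x0) * y 0 x0)) = E * (W * Real.exp (-x0)) * y 0 x0 := by ring
        _ ≤ E * wu * y 0 x0 :=
            mul_le_mul_of_nonneg_right (mul_le_mul_of_nonneg_left hI.wu hE'.le) hy0.le
        _ ≤ E * wu * (Y * vec b 0) := mul_le_mul_of_nonneg_left h7 (by positivity)
        _ = Y * (E * wu * vec b 0) := by ring
        _ ≤ Y * (rs.getD m 0 * vec a m * W) := mul_le_mul_of_nonneg_left h6 hY.le
        _ = W * rs.getD m 0 * (Y * vec a m) := by ring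
        _ ≤ W * rs.getD m 0 * y m x0 := mul_le_mul_of_nonneg_left h8 (by positivity)
        _ = _ := by ring
    have h10 : (E : ℝ) * y (m + 1) x0 ≤ rs.getD m 0 * y m x0 := le_of_mul_le_mul_left h9 hW'
    simp only [hR]
    rw [div_mul_eq_mul_div, le_div_iff₀ hE']
    linarith
  have hRanti : ∀ j < m, R (j + 1) ≤ R j := by
    intro j hj
    have h5 := Nat.le_of_ble_eq_true (h4 j hj).2
    simp only [hR]
    have : (rs.getD (j + 1) 0 : ℝ) ≤ rs.getD j 0 := by exact_mod_cast h5
    gcongr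
  have hRm : R 0 ≤ R m + 1 := by
    have : (rs.getD 0 0 : ℝ) ≤ rs.getD m 0 + E := by exact_mod_cast h3'
    simp only [hR]
    rw [div_add_one hE'.ne']
    gcongr
  have hall := tail_inv hy hRanti hRm hlt (fun j hj => by
    rcases Nat.lt_or_ge j m with h | h
    · exact hle j h
    · have : j = m := le_antisymm hj h
      subst this
      exact hlast) x hx
  have := tailN_sound (E := E) (M := m + 1) (rs := rs) (Z := zz m y x) hE (fun i => (zz_pos hy x i).le)
    (fun i => by
      refine zz_ratio' hy x i ?_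
      have hltm : i % (m + 1) < m + 1 := Nat.mod_lt _ (by omega)
      have h5 := hall (i % (m + 1)) (by omega)
      simp only [hR] at h5
      rw [div_mul_eq_mul_div, le_div_iff₀ hE'] at h5
      linarith) F 0
  rw [hc] at this
  simpa using this

end

end Pool.Agent.Helper22.Opp
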