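import Pool.Agent.Helper22.Opp.Sound

/-!
# Soundness of the tests for functionals
-/

set_option autoImplicit false

open Finset

namespace Pool.Agent.Helper22.Opp

noncomputable section

/-- extended sequence: `z_{r(m+1)+j} = e^{-rx} y_j` -/
def zz (m : ℕ) (y : ℕ → ℝ → ℝ) (x : ℝ) (i : ℕ) : ℝ := Real.exp (-x) ^ (i / (m + 1)) * y (i % (m + 1)) x

/-- value of a functional at offset `i` -/
def evA (Z : ℕ → ℝ) : ℕ → List (ℕ × ℕ) → ℝ
  | _, [] => 0
  | i, c :: cs => ((c.1 : ℝ) - c.2) * Z i + evA Z (i + 1) cs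

/-- positive part -/
def poA (Z : ℕ → ℝ) : ℕ → List (ℕ × ℕ) → ℝ
  | _, [] => 0
  | i, c :: cs => (c.1 : ℝ) * Z i + poA Z (i + 1) cs

/-- negative part -/
def neA (Z : ℕ → ℝ) : ℕ → List (ℕ × ℕ) → ℝ
  | _, [] => 0
  | i, c :: cs => (c.2 : ℝ) * Z i + neA Z (i + 1) cs

lemma evA_eq (Z : ℕ → ℝ) : ∀ (cs : List (ℕ × ℕ)) (i : ℕ), evA Z i cs = poA Z i cs - neA Z i cs
  | [], i => by simp [evA, poA, neA]
  | c :: cs, i => by rw [evA, poA, neA, evA_eq Z cs]; ring

variable {m : ℕ} {y : ℕ → ℝ → ℝ}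

lemma zz_pos (hy : Sol m y) (x : ℝ) (i : ℕ) : 0 < zz m y x i :=
  mul_pos (pow_pos (Real.exp_pos _) _) (hy.pos _ _)

lemma hasDerivAt_zz (hy : Sol m y) (i : ℕ) (x : ℝ) :
    HasDerivAt (fun x => zz m y x i) (zz m y x (i + 1) - ((i / (m + 1) : ℕ) : ℝ) * zz m y x i) x := by
  unfold zz
  set r := i / (m + 1) with hr
  set j := i % (m + 1) with hj
  have hjm : j ≤ m := by
    have := Nat.mod_lt i (show 0 < m + 1 by omega)
    omega
  have h1 : HasDerivAt (fun x : ℝ => Real.exp (-x) ^ r) (-(r : ℝ) * Real.exp (-x) ^ r) x := by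
    have e : (fun x : ℝ => Real.exp (-x) ^ r) = fun x => Real.exp (r * (-x)) := by
      funext x; rw [Real.exp_nat_mul]
    rw [e]
    have h2 : HasDerivAt (fun x : ℝ => (r : ℝ) * (-x)) ((r : ℝ) * (-1)) x :=
      (hasDerivAt_neg x).const_mul _
    have h3 := h2.exp
    rw [Real.exp_nat_mul] at h3
    refine h3.congr_deriv ?_
    ring
  have h2 := h1.mul (hy.d j hjm x)
  refine h2.congr_deriv ?_
  rcases Nat.lt_or_ge j m with h3 | h3
  · have e1 : (i + 1) / (m + 1) = r := by
      rw [hr, Nat.succ_div, if_neg]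
      · simp
      · intro hd
        have h4 := Nat.div_add_mod i (m + 1)
        obtain ⟨q, hq⟩ := hd
        have h5 : (i + 1) % (m + 1) = 0 := by rw [hq]; exact Nat.mul_mod_right _ _
        rw [Nat.add_mod, ← hj] at h5
        have h6 : 1 % (m + 1) = 1 := Nat.mod_eq_of_lt (by omega)
        rw [h6, Nat.mod_eq_of_lt (by omega)] at h5
        omega
    have e2 : (i + 1) % (m + 1) = j + 1 := by
      have h6 : 1 % (m + 1) = 1 := Nat.mod_eq_of_lt (by omega)
      rw [Nat.add_mod, ← hj, h6, Nat.mod_eq_of_lt (by omega)]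
    rw [e1, e2]
    ring
  · have hjm' : j = m := le_antisymm hjm h3
    have h4 := Nat.div_add_mod i (m + 1)
    rw [← hr, ← hj] at h4
    have h5 : i + 1 = (r + 1) * (m + 1) := by rw [← h4, hjm']; ring
    have e1 : (i + 1) / (m + 1) = r + 1 := by rw [h5, Nat.mul_div_cancel _ (Nat.succ_pos m)]
    have e2 : (i + 1) % (m + 1) = 0 := by rw [h5]; exact Nat.mul_mod_left _ _
    rw [e1, e2, hjm', hy.last]
    ring

lemma hasDerivAt_evA (hy : Sol m y) (x : ℝ) : ∀ (cs : List (ℕ × ℕ)) (i : ℕ) (prev : ℕ × ℕ),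
    HasDerivAt (fun x => evA (zz m y x) i cs)
      (evA (zz m y x) i (derF (m + 1) i prev cs) - ((prev.1 : ℝ) - prev.2) * zz m y x i) x
  | [], i, prev => by
    simp only [evA, derF]
    refine (hasDerivAt_const x (0 : ℝ)).congr_deriv ?_
    ring
  | c :: cs, i, prev => by
    simp only [evA, derF]
    have h1 := hasDerivAt_evA hy x cs (i + 1) c
    have h2 := (hasDerivAt_zz hy i x).const_mul ((c.1 : ℝ) - c.2)
    refine (h2.add h1).congr_deriv ?_
    push_cast
    ring

/-- derivative of the functional -/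
def der (M : ℕ) (F : List (ℕ × ℕ)) : List (ℕ × ℕ) := derF M 0 (0, 0) F

lemma hasDerivAt_ev (hy : Sol m y) (F : List (ℕ × ℕ)) (x : ℝ) :
    HasDerivAt (fun x => evA (zz m y x) 0 F) (evA (zz m y x) 0 (der (m + 1) F)) x := by
  have := hasDerivAt_evA hy x F 0 (0, 0)
  refine this.congr_deriv ?_
  unfold der
  simp

/-! ### bounds for the parts -/

lemma dotP_le (Z : ℕ → ℝ) (hZ : ∀ i, 0 ≤ Z i) (Y : ℝ) : ∀ (cs : List (ℕ × ℕ)) (zs : List ℕ) (i : ℕ)
    (_ : ∀ k < zs.length, Y * vec zs k ≤ Z (i + k)), Y * (dotP cs zs : ℝ) ≤ poA Z i cs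
  | [], zs, i, _ => by simp [dotP, poA]
  | c :: cs, [], i, _ => by
    simp only [dotP, Nat.cast_zero, mul_zero]
    have : ∀ (cs : List (ℕ × ℕ)) (i : ℕ), 0 ≤ poA Z i cs := by
      intro cs
      induction cs with
      | nil => intro i; simp [poA]
      | cons c cs ih => intro i; rw [poA]; have := ih (i + 1); have := hZ i; positivity
    exact this _ _
  | c :: cs, v :: vs, i, h => by
    rw [dotP, poA]
    have ih := dotP_le Z hZ Y cs vs (i + 1) (fun k hk => by
      have := h (k + 1) (by simpa using hk)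
      have e : vec (v :: vs) (k + 1) = vec vs k := by simp [vec]
      rw [e] at this
      rw [show i + 1 + k = i + (k + 1) by omega]
      exact this)
    have h0 := h 0 (by simp)
    have e : vec (v :: vs) 0 = v := by simp [vec]
    rw [e, Nat.add_zero] at h0
    push_cast
    have h1 := mul_le_mul_of_nonneg_left h0 (Nat.cast_nonneg (α := ℝ) c.1)
    calc Y * ((c.1 : ℝ) * v + dotP cs vs) = c.1 * (Y * v) + Y * dotP cs vs := by ring
      _ ≤ _ := add_le_add h1 ih

lemma dotN_ge (Z : ℕ → ℝ) (Y : ℝ) : ∀ (cs : List (ℕ × ℕ)) (zs : List ℕ) (i : ℕ) (_ : cs.length ≤ zs.length)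
    (_ : ∀ k < zs.length, Z (i + k) ≤ Y * vec zs k), neA Z i cs ≤ Y * (dotN cs zs : ℝ)
  | [], zs, i, _, _ => by simp [dotN, neA]
  | c :: cs, [], i, hl, _ => by simp at hl
  | c :: cs, v :: vs, i, hl, h => by
    rw [dotN, neA]
    have ih := dotN_ge Z Y cs vs (i + 1) (by simpa using hl) (fun k hk => by
      have := h (k + 1) (by simpa using hk)
      have e : vec (v :: vs) (k + 1) = vec vs k := by simp [vec]
      rw [e] at this
      rw [show i + 1 + k = i + (k + 1) by omega]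
      exact this)
    have h0 := h 0 (by simp)
    have e : vec (v :: vs) 0 = v := by simp [vec]
    rw [e, Nat.add_zero] at h0
    push_cast
    have h1 := mul_le_mul_of_nonneg_left h0 (Nat.cast_nonneg (α := ℝ) c.2)
    calc (c.2 : ℝ) * Z i + neA Z (i + 1) cs ≤ c.2 * (Y * v) + Y * dotN cs vs := add_le_add h1 ih
      _ = _ := by ring

/-- the invariant for one column -/
structure Inv1 (m W : ℕ) (y : ℕ → ℝ → ℝ) (Y : ℝ) (x : ℝ) (a b : List ℕ) (wl wu : ℕ) : Prop where
  pos : 0 ≤ Y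
  la : a.length = m + 1
  lb : b.length = m + 1
  wl : (wl : ℝ) ≤ W * Real.exp (-x)
  wu : W * Real.exp (-x) ≤ (wu : ℝ)
  lo : ∀ j ≤ m, Y * vec a j ≤ y j x
  up : ∀ j ≤ m, y j x ≤ Y * vec b j

variable {H W S : ℕ} {tL tU : List (List ℕ)}

lemma Inv1.step (hT : Tab H S m tL tU) (hS : 0 < S) (hH : 0 < H) (hW : 0 < W) (hy : Sol m y)
    {Y x : ℝ} {a b : List ℕ} {wl wu : ℕ} (hI : Inv1 m W y Y x a b wl wu)
    (hw : 2 * ((1 / (H : ℝ)) ^ (m + 1) * Real.exp (-x)) ≤ ((m + 1).factorial : ℝ)) :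
    Inv1 m W y Y (x + 1 / (H : ℝ)) (stepLo H (W * S) tL wl a) (stepUp H W (W * S) tU wu b)
      (wLo H wl) (wUp H wu) := by
  have h0 : Inv m W y (fun _ => Y) x ⟨[(a, b)], wl, wu⟩ := by
    refine ⟨fun _ => hI.pos, ?_, hI.wl, hI.wu, ?_, ?_⟩
    · intro c hc
      simp only [List.mem_singleton] at hc
      subst hc
      exact ⟨hI.la, hI.lb⟩
    · intro j hj
      simpa [colLo] using hI.lo j hj
    · intro j hj
      simpa [colUp] using hI.up j hj
  have h1 := h0.step hT hS hH hW hy hw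
  refine ⟨hI.pos, stepLo_length hT _ _ hI.la, stepUp_length hT _ _ hI.lb, h1.wl, h1.wu, ?_, ?_⟩
  · intro j hj
    simpa [colLo, stepS, stepC] using h1.lo j hj
  · intro j hj
    simpa [colUp, stepS, stepC] using h1.up j hj

lemma vec_append_left (l l' : List ℕ) {i : ℕ} (h : i < l.length) : vec (l ++ l') i = vec l i := by
  unfold vec
  rw [List.getD_append _ _ _ _ h]

lemma vec_append_right (l l' : List ℕ) {i : ℕ} (h : l.length ≤ i) : vec (l ++ l') i = vec l' (i - l.length) := by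
  unfold vec
  rw [List.getD_append_right _ _ _ _ h]

lemma vec_map (l : List ℕ) (f : ℕ → ℕ) {i : ℕ} (h : i < l.length) :
    vec (l.map f) i = ((f (l.getD i 0) : ℕ) : ℝ) := by
  unfold vec
  rw [List.getD_eq_getElem?_getD, List.getElem?_map, List.getD_eq_getElem?_getD, List.getElem?_eq_getElem h]
  simp

lemma zz_small (x : ℝ) {i : ℕ} (hi : i < m + 1) : zz m y x i = y i x := by
  unfold zz
  rw [Nat.div_eq_of_lt hi, Nat.mod_eq_of_lt hi, pow_zero, one_mul]

lemma zz_add (x : ℝ) (r k : ℕ) : zz m y x (r * (m + 1) + k) = Real.exp (-x) ^ r * zz m y x k := by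
  unfold zz
  rw [Nat.add_comm (r * (m + 1)) k, Nat.add_mul_div_right _ _ (show 0 < m + 1 by omega),
    Nat.add_mul_mod_self_right, pow_add]
  ring

lemma zLo_length (W wl : ℕ) : ∀ (R : ℕ) (a : List ℕ), (zLo W wl R a).length = R * a.length
  | 0, _ => by simp [zLo]
  | R + 1, a => by rw [zLo, List.length_append, zLo_length W wl R, List.length_map]; ring

lemma zUp_length (W wu : ℕ) : ∀ (R : ℕ) (b : List ℕ), (zUp W wu R b).length = R * b.length
  | 0, _ => by simp [zUp]
  | R + 1, b => by rw [zUp, List.length_append, zUp_length W wu R, List.length_map]; ring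

/-- lower bounds for the extended sequence -/
lemma zLo_le (hW : 0 < W) {Y x' : ℝ} (hY : 0 ≤ Y) {wl : ℕ} (hwl : (wl : ℝ) ≤ W * Real.exp (-x')) :
    ∀ (R r : ℕ) (a : List ℕ) (_ : a.length = m + 1) (_ : ∀ j ≤ m, Y * vec a j ≤ Real.exp (-x') ^ r * y j x'),
    ∀ k < (zLo W wl R a).length, Y * vec (zLo W wl R a) k ≤ zz m y x' (r * (m + 1) + k)
  | 0, r, a, la, lo, k, hk => by simp [zLo] at hk
  | R + 1, r, a, la, lo, k, hk => by
    have hW' : (0 : ℝ) < W := by exact_mod_cast hW
    rw [zLo] at hk ⊢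
    rcases Nat.lt_or_ge k (m + 1) with h | h
    · rw [vec_append_left _ _ (by omega), zz_add, zz_small _ h]
      exact lo k (by omega)
    · rw [vec_append_right _ _ (by omega), la]
      have e0 : r * (m + 1) + k = (r + 1) * (m + 1) + (k - (m + 1)) := by
        have : (r + 1) * (m + 1) = r * (m + 1) + (m + 1) := by ring
        omega
      rw [e0]
      refine zLo_le hW hY hwl R (r + 1) _ (by simpa using la) ?_ _ ?_
      · intro j hj
        rw [vec_map _ _ (by omega)]
        have e1 : ((a.getD j 0 * wl / W : ℕ) : ℝ) ≤ (vec a j * wl) / W := by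
          refine (cast_div_le' _ _).trans (le_of_eq ?_)
          unfold vec
          push_cast; ring
        have e2 : (wl : ℝ) / W ≤ Real.exp (-x') := by
          rw [div_le_iff₀ hW', mul_comm]
          exact hwl
        calc Y * ((a.getD j 0 * wl / W : ℕ) : ℝ) ≤ Y * ((vec a j * wl) / W) := mul_le_mul_of_nonneg_left e1 hY
          _ = (wl / W) * (Y * vec a j) := by ring
          _ ≤ Real.exp (-x') * (Y * vec a j) :=
              mul_le_mul_of_nonneg_right e2 (mul_nonneg hY (vec_nonneg _ _))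
          _ ≤ Real.exp (-x') * (Real.exp (-x') ^ r * y j x') :=
              mul_le_mul_of_nonneg_left (lo j hj) (Real.exp_pos _).le
          _ = _ := by ring
      · rw [List.length_append, la] at hk
        omega

/-- upper bounds for the extended sequence -/
lemma zUp_ge (hy : Sol m y) (hW : 0 < W) {Y x' : ℝ} (hY : 0 ≤ Y) {wu : ℕ} (hwu : W * Real.exp (-x') ≤ (wu : ℝ)) :
    ∀ (R r : ℕ) (b : List ℕ) (_ : b.length = m + 1) (_ : ∀ j ≤ m, Real.exp (-x') ^ r * y j x' ≤ Y * vec b j),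
    ∀ k < (zUp W wu R b).length, zz m y x' (r * (m + 1) + k) ≤ Y * vec (zUp W wu R b) k
  | 0, r, b, lb, up, k, hk => by simp [zUp] at hk
  | R + 1, r, b, lb, up, k, hk => by
    have hW' : (0 : ℝ) < W := by exact_mod_cast hW
    rw [zUp] at hk ⊢
    rcases Nat.lt_or_ge k (m + 1) with h | h
    · rw [vec_append_left _ _ (by omega), zz_add, zz_small _ h]
      exact up k (by omega)
    · rw [vec_append_right _ _ (by omega), lb]
      have e0 : r * (m + 1) + k = (r + 1) * (m + 1) + (k - (m + 1)) := by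
        have : (r + 1) * (m + 1) = r * (m + 1) + (m + 1) := by ring
        omega
      rw [e0]
      refine zUp_ge hy hW hY hwu R (r + 1) _ (by simpa using lb) ?_ _ ?_
      · intro j hj
        rw [vec_map _ _ (by omega)]
        have e1 : (vec b j * wu) / W ≤ ((b.getD j 0 * wu / W + 1 : ℕ) : ℝ) := by
          refine le_trans (le_of_eq ?_) (cast_div_ge' _ _ hW)
          unfold vec
          push_cast; ring
        have e2 : Real.exp (-x') ≤ (wu : ℝ) / W := by
          rw [le_div_iff₀ hW', mul_comm]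
          exact hwu
        have e3 : 0 < Real.exp (-x') ^ r * y j x' := mul_pos (pow_pos (Real.exp_pos _) _) (hy.pos _ _)
        calc Real.exp (-x') ^ (r + 1) * y j x' = Real.exp (-x') * (Real.exp (-x') ^ r * y j x') := by ring
          _ ≤ (wu / W) * (Y * vec b j) := mul_le_mul e2 (up j hj) e3.le (by positivity)
          _ = Y * ((vec b j * wu) / W) := by ring
          _ ≤ _ := mul_le_mul_of_nonneg_left e1 hY
      · rw [List.length_append, lb] at hk
        omega

/-- normal form of a coefficient -/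
def nrm (c : ℕ × ℕ) : ℕ × ℕ := (c.1 - c.2, c.2 - c.1)

lemma nrm_sub (c : ℕ × ℕ) : (((nrm c).1 : ℝ) - (nrm c).2) = (c.1 : ℝ) - c.2 := by
  unfold nrm
  rcases le_total c.1 c.2 with h | h
  · simp only [Nat.sub_eq_zero_of_le h, Nat.cast_zero]
    push_cast [Nat.cast_sub h]
    ring
  · simp only [Nat.sub_eq_zero_of_le h, Nat.cast_zero]
    push_cast [Nat.cast_sub h]
    ring

lemma evA_nrm (Z : ℕ → ℝ) : ∀ (cs : List (ℕ × ℕ)) (i : ℕ), evA Z i (cs.map nrm) = evA Z i cs
  | [], i => rfl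
  | c :: cs, i => by rw [List.map_cons, evA, evA, nrm_sub, evA_nrm Z cs]

/-- derivative of the functional, in normal form -/
def derN (M : ℕ) (F : List (ℕ × ℕ)) : List (ℕ × ℕ) := (der M F).map nrm

lemma hasDerivAt_evN (hy : Sol m y) (F : List (ℕ × ℕ)) (x : ℝ) :
    HasDerivAt (fun x => evA (zz m y x) 0 F) (evA (zz m y x) 0 (derN (m + 1) F)) x := by
  unfold derN
  rw [evA_nrm]
  exact hasDerivAt_ev hy F x

/-- a functional with its derivatives, of admissible length -/
def Good (M R : ℕ) (F : Fn) : Prop :=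
  F.2.1 = derN M F.1 ∧ F.2.2.1 = derN M F.2.1 ∧ F.2.2.2 = derN M F.2.2.1 ∧
    F.1.length ≤ R * M ∧ F.2.1.length ≤ R * M ∧ F.2.2.1.length ≤ R * M ∧ F.2.2.2.length ≤ R * M

instance (M R : ℕ) (F : Fn) : Decidable (Good M R F) := by unfold Good; infer_instance

/-- nonnegativity of a quadratic polynomial on a cell -/
lemma quad_nonneg {A B G h s : ℝ} (h0 : 0 ≤ s) (h1 : s ≤ h) (hh : 0 < h)
    (hc : (max 0 (-G) * h ^ 2 / 2 ≤ A ∧ max 0 (-G) * h ^ 2 / 2 ≤ A + B * h) ∨
      (0 ≤ A ∧ 0 ≤ G ∧ (max 0 (-B)) ^ 2 ≤ 2 * A * G)) : 0 ≤ A + B * s + G * (s ^ 2 / 2) := by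
  rcases hc with ⟨c1, c2⟩ | ⟨c1, c2, c3⟩
  · set D := max 0 (-G) with hD
    have hD0 : 0 ≤ D := le_max_left _ _
    have hDG : -G ≤ D := le_max_right _ _
    have hs2 : s ^ 2 ≤ h ^ 2 := pow_le_pow_left₀ h0 h1 2
    have e1 : 0 ≤ (A - D * h ^ 2 / 2) + B * s := by
      have e : (A - D * h ^ 2 / 2) + B * s = (1 - s / h) * (A - D * h ^ 2 / 2) +
          (s / h) * ((A + B * h) - D * h ^ 2 / 2) := by field_simp; ring
      rw [e]
      have t1 : 0 ≤ s / h := by positivity
      have t2 : s / h ≤ 1 := by rw [div_le_one hh]; exact h1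
      have t3 : 0 ≤ 1 - s / h := by linarith
      have t4 : 0 ≤ A - D * h ^ 2 / 2 := by linarith
      have t5 : 0 ≤ (A + B * h) - D * h ^ 2 / 2 := by linarith
      positivity
    have e2 : -(D * h ^ 2 / 2) ≤ G * (s ^ 2 / 2) := by
      have : D * s ^ 2 ≤ D * h ^ 2 := mul_le_mul_of_nonneg_left hs2 hD0
      have : 0 ≤ (G + D) * s ^ 2 := mul_nonneg (by linarith) (sq_nonneg _)
      nlinarith
    linarith
  · set f := max 0 (-B) with hf
    have hf0 : 0 ≤ f := le_max_left _ _
    have hfB : -B ≤ f := le_max_right _ _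
    have e1 : 0 ≤ A - f * s + G * (s ^ 2 / 2) := by
      rcases eq_or_lt_of_le c1 with h | h
      · have : f ^ 2 ≤ 0 := by rw [← h] at c3; simpa using c3
        have hf1 : f = 0 := by nlinarith
        rw [← h, hf1]
        have : 0 ≤ G * (s ^ 2 / 2) := by positivity
        linarith
      · have e : 2 * A * (A - f * s + G * (s ^ 2 / 2)) =
            (2 * A - f * s) ^ 2 / 2 + (2 * A * G - f ^ 2) * s ^ 2 / 2 := by ring
        have : 0 ≤ 2 * A * (A - f * s + G * (s ^ 2 / 2)) := by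
          rw [e]
          have : 0 ≤ 2 * A * G - f ^ 2 := by linarith
          positivity
        exact (mul_nonneg_iff_of_pos_left (by linarith)).1 this
    have e2 : -(f * s) ≤ B * s := by nlinarith
    linarith

lemma chk_sound (hH : 0 < H) (hW : 0 < W) (hy : Sol m y) {Y x : ℝ} {a b a' b' : List ℕ} {wl wu wl' wu' R : ℕ}
    (hI : Inv1 m W y Y x a b wl wu) (hI' : Inv1 m W y Y (x + 1 / (H : ℝ)) a' b' wl' wu')
    {F : Fn} (hF : Good (m + 1) R F)
    (hc : chk H F (zLo W wl R a) (zUp W wu R b) (zLo W wl' R a) (zUp W wu R b') = true)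
    {s : ℝ} (hs0 : 0 ≤ s) (hs1 : s ≤ 1 / (H : ℝ)) : 0 ≤ evA (zz m y (x + s)) 0 F.1 := by
  obtain ⟨hF1, hF2, hF3, l0, l1, l2, l3⟩ := hF
  have hH' : (0 : ℝ) < H := by exact_mod_cast hH
  have hW' : (0 : ℝ) < W := by exact_mod_cast hW
  set h := 1 / (H : ℝ) with hh
  have hh0 : 0 < h := by positivity
  have lzu : ∀ wu b, b.length = m + 1 → (zUp W wu R b).length = R * (m + 1) := by
    intro wu b lb; rw [zUp_length, lb]
  -- the numbers
  set P0 := dotP F.1 (zLo W wl R a) with hP0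
  set N0 := dotN F.1 (zUp W wu R b) with hN0
  set P1 := dotP F.2.1 (zLo W wl R a) with hP1
  set N1 := dotN F.2.1 (zUp W wu R b) with hN1
  set P2 := dotP F.2.2.1 (zLo W wl R a) with hP2
  set N2 := dotN F.2.2.1 (zUp W wu R b) with hN2
  set P3 := dotP F.2.2.2 (zLo W wl' R a) with hP3
  set N3 := dotN F.2.2.2 (zUp W wu R b') with hN3
  set D := N3 - P3 with hD
  have hZ : ∀ x i, 0 ≤ zz m y x i := fun x i => (zz_pos hy x i).le
  have low : ∀ t, 0 ≤ t → ∀ wl : ℕ, (wl : ℝ) ≤ W * Real.exp (-(x + t)) → ∀ k < (zLo W wl R a).length,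
      Y * vec (zLo W wl R a) k ≤ zz m y (x + t) (0 + k) := by
    intro t ht0 wl hwl k hk
    have := zLo_le (y := y) hW hI.pos hwl R 0 a hI.la (fun j hj => by
      rw [pow_zero, one_mul]
      exact (hI.lo j hj).trans (hy.mono hj (by linarith))) k hk
    simpa using this
  have upp : ∀ t, ∀ b, b.length = m + 1 → (∀ j ≤ m, y j (x + t) ≤ Y * vec b j) →
      ∀ wu : ℕ, W * Real.exp (-(x + t)) ≤ (wu : ℝ) → ∀ k < (zUp W wu R b).length,
      zz m y (x + t) (0 + k) ≤ Y * vec (zUp W wu R b) k := by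
    intro t b lb hb wu hwu k hk
    have := zUp_ge (y := y) hy hW hI.pos hwu R 0 b lb (fun j hj => by
      rw [pow_zero, one_mul]
      exact hb j hj) k hk
    simpa using this
  -- values at x
  have v01 : ∀ F : List (ℕ × ℕ), F.length ≤ R * (m + 1) →
      Y * ((dotP F (zLo W wl R a) : ℝ) - dotN F (zUp W wu R b)) ≤ evA (zz m y x) 0 F := by
    intro F hl
    rw [evA_eq]
    have e1 := dotP_le (zz m y x) (hZ x) Y F (zLo W wl R a) 0 (by
      have := low 0 le_rfl wl (by rw [add_zero]; exact hI.wl)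
      rwa [add_zero] at this)
    have e2 := dotN_ge (zz m y x) Y F (zUp W wu R b) 0 (by rw [lzu _ _ hI.lb]; exact hl) (by
      have := upp 0 b hI.lb (by rw [add_zero]; exact hI.up) wu (by rw [add_zero]; exact hI.wu)
      rwa [add_zero] at this)
    rw [mul_sub]
    exact sub_le_sub e1 e2
  have v0 : Y * ((P0 : ℝ) - N0) ≤ evA (zz m y x) 0 F.1 := v01 F.1 l0
  have v1 : Y * ((P1 : ℝ) - N1) ≤ evA (zz m y x) 0 F.2.1 := v01 F.2.1 l1
  have v2 : Y * ((P2 : ℝ) - N2) ≤ evA (zz m y x) 0 F.2.2.1 := v01 F.2.2.1 l2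
  have v3 : ∀ t, 0 ≤ t → t ≤ h → -(Y * D) ≤ evA (zz m y (x + t)) 0 F.2.2.2 := by
    intro t ht0 ht1
    rw [evA_eq]
    have e1 := dotP_le (zz m y (x + t)) (hZ _) Y F.2.2.2 (zLo W wl' R a) 0 (low t ht0 wl' (hI'.wl.trans
      (mul_le_mul_of_nonneg_left (Real.exp_le_exp.2 (by linarith)) hW'.le)))
    have e2 := dotN_ge (zz m y (x + t)) Y F.2.2.2 (zUp W wu R b') 0 (by rw [lzu _ _ hI'.lb]; exact l3)
      (upp t b' hI'.lb (fun j hj => (hy.mono hj (by linarith)).trans (hI'.up j hj)) wu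
        ((mul_le_mul_of_nonneg_left (Real.exp_le_exp.2 (by linarith)) hW'.le).trans hI.wu))
    have e3 : (N3 : ℝ) ≤ P3 + D := by
      have : N3 ≤ P3 + D := by omega
      exact_mod_cast this
    have e4 := mul_le_mul_of_nonneg_left e3 hI.pos
    rw [mul_add] at e4
    linarith
  -- Taylor
  have key := chain_ge (M := 1) x h 3
    (fun i t => match i with
      | 0 => evA (zz m y t) 0 F.1
      | 1 => evA (zz m y t) 0 F.2.1
      | 2 => evA (zz m y t) 0 F.2.2.1
      | _ + 3 => evA (zz m y t) 0 F.2.2.2)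
    (fun l => match l with
      | 0 => Y * ((P0 : ℝ) - N0)
      | 1 => Y * ((P1 : ℝ) - N1)
      | 2 => Y * ((P2 : ℝ) - N2)
      | _ + 3 => -(Y * D))
    (fun i hi t => by
      match i, hi with
      | 0, _ =>
        have := hasDerivAt_evN hy F.1 t
        rw [← hF1] at this
        exact this
      | 1, _ =>
        have := hasDerivAt_evN hy F.2.1 t
        rw [← hF2] at this
        exact this
      | 2, _ =>
        have := hasDerivAt_evN hy F.2.2.1 t
        rw [← hF3] at this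
        exact this)
    (fun l hl => by
      match l, hl with
      | 0, _ => exact v0
      | 1, _ => exact v1
      | 2, _ => exact v2)
    (fun t ht0 ht1 => by
      simp only [tp, range_one, sum_singleton, pow_zero, Nat.factorial_zero, Nat.cast_one, div_one, mul_one]
      exact v3 t ht0 ht1) s hs0 hs1
  simp only [tp, sum_range_succ, range_zero, sum_empty, Nat.factorial] at key
  norm_num at key
  -- final inequality
  set G : ℝ := ((P2 : ℝ) - N2) - D * h / 3 with hG
  have hGH : G * (3 * H) = 3 * H * P2 - (3 * H * N2 + D) := by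
    rw [hG, hh]; field_simp; ring
  have hquad : 0 ≤ ((P0 : ℝ) - N0) + ((P1 : ℝ) - N1) * s + G * (s ^ 2 / 2) := by
    refine quad_nonneg hs0 hs1 hh0 ?_
    unfold chk at hc
    simp only [force_eq, ← hP0, ← hN0, ← hP1, ← hN1, ← hP2, ← hN2, ← hP3, ← hN3, ← hD] at hc
    rw [Bool.or_eq_true, Bool.and_eq_true, Bool.and_eq_true, Bool.and_eq_true] at hc
    set U := 3 * H * P2 with hU
    set V := 3 * H * N2 + D with hV
    have hUV : G * (3 * H) = (U : ℝ) - V := by rw [hGH, hU, hV]; push_cast; ring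
    rcases hc with ⟨c1, c2⟩ | ⟨c1, c3, c2⟩
    · left
      have c1' := Nat.le_of_ble_eq_true c1
      have c2' := Nat.le_of_ble_eq_true c2
      have d1 : ((6 * (H * H * H) * N0 + (V - U) : ℕ) : ℝ) ≤ ((6 * (H * H * H) * P0 : ℕ) : ℝ) := by exact_mod_cast c1'
      have d2 : ((6 * (H * H * H) * N0 + (V - U) + 6 * (H * H) * N1 : ℕ) : ℝ) ≤
          ((6 * (H * H * H) * P0 + 6 * (H * H) * P1 : ℕ) : ℝ) := by exact_mod_cast c2'
      have dG : max 0 (-G) * (3 * H) ≤ ((V - U : ℕ) : ℝ) := by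
        rcases le_total 0 (-G) with hg | hg
        · rw [max_eq_right hg]
          have : (V : ℝ) - U ≤ ((V - U : ℕ) : ℝ) := by
            have : V ≤ (V - U) + U := by omega
            have : (V : ℝ) ≤ ((V - U : ℕ) : ℝ) + U := by exact_mod_cast this
            linarith
          linarith
        · rw [max_eq_left hg, zero_mul]
          exact Nat.cast_nonneg _
      push_cast at d1 d2
      have eh : h ^ 2 = 1 / (H : ℝ) ^ 2 := by rw [hh]; field_simp
      have hD' : max 0 (-G) * h ^ 2 / 2 * (6 * ((H : ℝ) * H * H)) = max 0 (-G) * (3 * H) := by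
        rw [eh]; field_simp; ring
      have hpos : (0 : ℝ) < 6 * ((H : ℝ) * H * H) := by positivity
      constructor
      · refine le_of_mul_le_mul_right ?_ hpos
        rw [hD']
        linarith
      · refine le_of_mul_le_mul_right ?_ hpos
        rw [hD']
        have : ((P1 : ℝ) - N1) * h * (6 * ((H : ℝ) * H * H)) = ((P1 : ℝ) - N1) * (6 * ((H : ℝ) * H)) := by
          rw [hh]; field_simp
        rw [add_mul, this]
        linarith
    · right
      have c1' := Nat.le_of_ble_eq_true c1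
      have c2' := Nat.le_of_ble_eq_true c2
      have d1 : (N0 : ℝ) ≤ P0 := by exact_mod_cast c1'
      have d2 : ((3 * H * ((N1 - P1) * (N1 - P1)) : ℕ) : ℝ) ≤ ((2 * (P0 - N0) * (U - V) : ℕ) : ℝ) := by
        exact_mod_cast c2'
      rw [Nat.cast_mul, Nat.cast_mul (2 * (P0 - N0)), Nat.cast_mul 2, Nat.cast_sub c1'] at d2
      have hfle : max 0 (-((P1 : ℝ) - N1)) ≤ ((N1 - P1 : ℕ) : ℝ) := by
        refine max_le (Nat.cast_nonneg _) ?_
        have : N1 ≤ (N1 - P1) + P1 := by omega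
        have : (N1 : ℝ) ≤ ((N1 - P1 : ℕ) : ℝ) + P1 := by exact_mod_cast this
        linarith
      have c3' : V ≤ U := Nat.le_of_ble_eq_true c3
      have hVU : (V : ℝ) ≤ U := by exact_mod_cast c3'
      have hG0 : 0 ≤ G := by
        have h3H : (0 : ℝ) < 3 * H := by positivity
        have : 0 ≤ G * (3 * H) := by rw [hUV]; linarith
        exact (mul_nonneg_iff_of_pos_right h3H).1 this
      refine ⟨by linarith, hG0, ?_⟩
      have hUV2 : ((U - V : ℕ) : ℝ) = G * (3 * H) := by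
        rw [hUV, Nat.cast_sub c3']
      rw [hUV2] at d2
      push_cast at d2
      have h3 : max 0 (-((P1 : ℝ) - N1)) ^ 2 ≤ ((N1 - P1 : ℕ) : ℝ) ^ 2 :=
        pow_le_pow_left₀ (le_max_left _ _) hfle 2
      refine h3.trans ?_
      have hpos : (0 : ℝ) < 3 * H := by positivity
      refine le_of_mul_le_mul_right ?_ hpos
      linarith
  have h7 := mul_nonneg hI.pos hquad
  have hs3 : s ^ 3 ≤ h * s ^ 2 := by
    have : 0 ≤ s ^ 2 := sq_nonneg s
    nlinarith
  have hYD : 0 ≤ Y * D := mul_nonneg hI.pos (Nat.cast_nonneg _)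
  have h8 : Y * D * s ^ 3 ≤ Y * D * (h * s ^ 2) := mul_le_mul_of_nonneg_left hs3 hYD
  have h9 : Y * (((P0 : ℝ) - N0) + ((P1 : ℝ) - N1) * s + G * (s ^ 2 / 2)) =
      Y * ((P0 : ℝ) - N0) + Y * ((P1 : ℝ) - N1) * s + Y * ((P2 : ℝ) - N2) * (s ^ 2 / 2) -
        Y * D * (h * s ^ 2) / 6 := by rw [hG]; ring
  rw [h9] at h7
  linarith

lemma run2_succ (WS R : ℕ) (Fs : List Fn) (N : ℕ) (a b : List ℕ) (wl wu : ℕ) :
    run2 H W WS tL tU R Fs (N + 1) a b wl wu =
      cond (Fs.all fun F => chk H F (zLo W wl R a) (zUp W wu R b) (zLo W (wLo H wl) R a)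
        (zUp W wu R (stepUp H W WS tU wu b)))
        (run2 H W WS tL tU R Fs N (stepLo H WS tL wl a) (stepUp H W WS tU wu b) (wLo H wl) (wUp H wu)) none := by
  change (forceL (stepLo H WS tL wl a) fun a' => forceL (stepUp H W WS tU wu b) fun b' =>
      force (wLo H wl) fun wl' => force (wUp H wu) fun wu' =>
      forceL (zLo W wl R a) fun z1 => forceL (zUp W wu R b) fun z2 =>
      forceL (zLo W wl' R a) fun z3 => forceL (zUp W wu R b') fun z4 =>
      cond (Fs.all fun F => chk H F z1 z2 z3 z4) (run2 H W WS tL tU R Fs N a' b' wl' wu') none) = _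
  rw [forceL_eq, forceL_eq, force_eq, force_eq, forceL_eq, forceL_eq, forceL_eq, forceL_eq]

/-- soundness of the second phase -/
theorem run2_sound (hT : Tab H S m tL tU) (hS : 0 < S) (hH : 0 < H) (hW : 0 < W) (hy : Sol m y) {R : ℕ}
    {Fs : List Fn} (hFs : ∀ F ∈ Fs, Good (m + 1) R F) {Y : ℝ} :
    ∀ (N : ℕ) (x : ℝ) (a b : List ℕ) (wl wu : ℕ) (a1 b1 : List ℕ) (wl1 wu1 : ℕ)
    (_ : Inv1 m W y Y x a b wl wu)
    (_ : 2 * ((1 / (H : ℝ)) ^ (m + 1) * Real.exp (-x)) ≤ ((m + 1).factorial : ℝ))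
    (_ : run2 H W (W * S) tL tU R Fs N a b wl wu = some (a1, b1, wl1, wu1)),
    Inv1 m W y Y (x + N / H) a1 b1 wl1 wu1 ∧
      ∀ F ∈ Fs, ∀ x', x ≤ x' → x' < x + N / H → 0 ≤ evA (zz m y x') 0 F.1
  | 0, x, a, b, wl, wu, a1, b1, wl1, wu1, hI, _, hr => by
    have : some (a, b, wl, wu) = some (a1, b1, wl1, wu1) := hr
    simp only [Option.some.injEq, Prod.mk.injEq] at this
    obtain ⟨rfl, rfl, rfl, rfl⟩ := this
    refine ⟨by simpa using hI, ?_⟩
    intro F _ x' h1 h2
    simp only [Nat.cast_zero, zero_div, add_zero] at h2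
    linarith
  | N + 1, x, a, b, wl, wu, a1, b1, wl1, wu1, hI, hw, hr => by
    have hH' : (0 : ℝ) < H := by exact_mod_cast hH
    rw [run2_succ] at hr
    rcases hb : (Fs.all fun F => chk H F (zLo W wl R a) (zUp W wu R b) (zLo W (wLo H wl) R a)
        (zUp W wu R (stepUp H W (W * S) tU wu b))) with _ | _
    · rw [hb] at hr
      simp at hr
    · rw [hb] at hr
      simp only [cond_true] at hr
      have hI' := hI.step hT hS hH hW hy hw
      have hw' : 2 * ((1 / (H : ℝ)) ^ (m + 1) * Real.exp (-(x + 1 / (H : ℝ)))) ≤ ((m + 1).factorial : ℝ) := by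
        refine le_trans ?_ hw
        have : Real.exp (-(x + 1 / (H : ℝ))) ≤ Real.exp (-x) :=
          Real.exp_le_exp.2 (by have : 0 < 1 / (H : ℝ) := by positivity
                                linarith)
        gcongr
      obtain ⟨r1, r2⟩ := run2_sound hT hS hH hW hy hFs N (x + 1 / (H : ℝ)) _ _ _ _ a1 b1 wl1 wu1 hI' hw' hr
      have e : x + 1 / (H : ℝ) + N / H = x + ((N + 1 : ℕ) : ℝ) / H := by
        push_cast; field_simp; ring
      rw [e] at r1 r2
      refine ⟨r1, ?_⟩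
      intro F hF x' h1 h2
      rcases le_or_gt x' (x + 1 / (H : ℝ)) with h4 | h4
      · have hc : chk H F (zLo W wl R a) (zUp W wu R b) (zLo W (wLo H wl) R a)
            (zUp W wu R (stepUp H W (W * S) tU wu b)) = true := by
          rw [List.all_eq_true] at hb
          exact hb F hF
        have := chk_sound hH hW hy hI hI' (hFs F hF) hc (s := x' - x) (by linarith) (by linarith)
        rw [show x + (x' - x) = x' by ring] at this
        exact this
      · exact r2 F hF x' h4.le h2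

end

end Pool.Agent.Helper22.Opp
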