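import Pool.Agent.Helper22.Opp.Chain
import Pool.Agent.Helper22.Opp.Kap

/-!
# One-step bounds for positive solutions of `y^{(m+1)} = e^{-x} y`
-/

set_option autoImplicit false

open Finset

namespace Pool.Agent.Helper22.Opp

noncomputable section

/-- positive solution with all its derivatives -/
structure Sol (m : ℕ) (y : ℕ → ℝ → ℝ) : Prop where
  d : ∀ j ≤ m, ∀ x, HasDerivAt (y j) (y (j + 1) x) x
  last : ∀ x, y (m + 1) x = Real.exp (-x) * y 0 x
  pos : ∀ j, ∀ x, 0 < y j x

lemma sol_K (m : ℕ) : Sol m (K m) where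
  d := fun _ hj x => hasDerivAt_K hj x
  last := K_last m
  pos := K_pos m

lemma exp_lo3 {s : ℝ} (hs : 0 ≤ s) : 1 - s + s ^ 2 / 2 - s ^ 3 / 6 ≤ Real.exp (-s) := by
  have h := chain_ge (M := 0) 0 s 4 (fun i t => (-1) ^ i * Real.exp (-t)) (fun i => (-1) ^ i)
    (fun i _ t => by
      have h1 : HasDerivAt (fun t : ℝ => Real.exp (-t)) (Real.exp (-t) * (-1)) t :=
        (hasDerivAt_neg t).exp
      refine (h1.const_mul _).congr_deriv ?_
      ring)
    (fun l _ => by simp)
    (fun s _ _ => by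
      simp only [tp, range_zero, sum_empty]
      have := Real.exp_pos (-(0 + s))
      norm_num
      exact (Real.exp_pos _).le) s hs le_rfl
  simp only [tp, sum_range_succ, range_zero, sum_empty, Nat.factorial] at h
  norm_num at h
  linarith

lemma exp_lo5 {s : ℝ} (hs : 0 ≤ s) :
    1 - s + s ^ 2 / 2 - s ^ 3 / 6 + s ^ 4 / 24 - s ^ 5 / 120 ≤ Real.exp (-s) := by
  have h := chain_ge (M := 0) 0 s 6 (fun i t => (-1) ^ i * Real.exp (-t)) (fun i => (-1) ^ i)
    (fun i _ t => by
      have h1 : HasDerivAt (fun t : ℝ => Real.exp (-t)) (Real.exp (-t) * (-1)) t :=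
        (hasDerivAt_neg t).exp
      refine (h1.const_mul _).congr_deriv ?_
      ring)
    (fun l _ => by simp)
    (fun s _ _ => by
      simp only [tp, range_zero, sum_empty]
      have := Real.exp_pos (-(0 + s))
      norm_num
      exact (Real.exp_pos _).le) s hs le_rfl
  simp only [tp, sum_range_succ, range_zero, sum_empty, Nat.factorial] at h
  norm_num at h
  linarith

lemma exp_up6 {s : ℝ} (hs : 0 ≤ s) :
    Real.exp (-s) ≤ 1 - s + s ^ 2 / 2 - s ^ 3 / 6 + s ^ 4 / 24 - s ^ 5 / 120 + s ^ 6 / 720 := by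
  have h := chain_le (M := 0) 0 s 7 (fun i t => (-1) ^ i * Real.exp (-t)) (fun i => (-1) ^ i)
    (fun i _ t => by
      have h1 : HasDerivAt (fun t : ℝ => Real.exp (-t)) (Real.exp (-t) * (-1)) t :=
        (hasDerivAt_neg t).exp
      refine (h1.const_mul _).congr_deriv ?_
      ring)
    (fun l _ => by simp)
    (fun s _ _ => by
      simp only [tp, range_zero, sum_empty]
      norm_num
      exact (Real.exp_pos _).le) s hs le_rfl
  simp only [tp, sum_range_succ, range_zero, sum_empty, Nat.factorial] at h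
  norm_num at h
  linarith

lemma exp_up2 {s : ℝ} (hs : 0 ≤ s) : Real.exp (-s) ≤ 1 - s + s ^ 2 / 2 := by
  have h := chain_le (M := 0) 0 s 3 (fun i t => (-1) ^ i * Real.exp (-t)) (fun i => (-1) ^ i)
    (fun i _ t => by
      have h1 : HasDerivAt (fun t : ℝ => Real.exp (-t)) (Real.exp (-t) * (-1)) t :=
        (hasDerivAt_neg t).exp
      refine (h1.const_mul _).congr_deriv ?_
      ring)
    (fun l _ => by simp)
    (fun s _ _ => by
      simp only [tp, range_zero, sum_empty]
      norm_num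
      exact (Real.exp_pos _).le) s hs le_rfl
  simp only [tp, sum_range_succ, range_zero, sum_empty, Nat.factorial] at h
  norm_num at h
  linarith

lemma exp_up4 {s : ℝ} (hs : 0 ≤ s) : Real.exp (-s) ≤ 1 - s + s ^ 2 / 2 - s ^ 3 / 6 + s ^ 4 / 24 := by
  have h := chain_le (M := 0) 0 s 5 (fun i t => (-1) ^ i * Real.exp (-t)) (fun i => (-1) ^ i)
    (fun i _ t => by
      have h1 : HasDerivAt (fun t : ℝ => Real.exp (-t)) (Real.exp (-t) * (-1)) t :=
        (hasDerivAt_neg t).exp
      refine (h1.const_mul _).congr_deriv ?_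
      ring)
    (fun l _ => by simp)
    (fun s _ _ => by
      simp only [tp, range_zero, sum_empty]
      norm_num
      exact (Real.exp_pos _).le) s hs le_rfl
  simp only [tp, sum_range_succ, range_zero, sum_empty, Nat.factorial] at h
  norm_num at h
  linarith

variable {m : ℕ} {y : ℕ → ℝ → ℝ}

lemma Sol.mono (hy : Sol m y) {j : ℕ} (hj : j ≤ m) : Monotone (y j) := by
  refine monotone_of_deriv_nonneg (fun x => (hy.d j hj x).differentiableAt) fun x => ?_
  rw [(hy.d j hj x).deriv]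
  exact (hy.pos _ _).le

/-- truncated exponential series -/
def eN (n : ℕ) (s : ℝ) : ℝ := ∑ i ∈ range (n + 1), (-1) ^ i * (s ^ i / (i.factorial : ℝ))

lemma eN5_le {s : ℝ} (hs : 0 ≤ s) : eN 5 s ≤ Real.exp (-s) := by
  have := exp_lo5 hs
  unfold eN
  simp only [sum_range_succ, range_zero, sum_empty, Nat.factorial]
  norm_num
  linarith

lemma eN6_ge {s : ℝ} (hs : 0 ≤ s) : Real.exp (-s) ≤ eN 6 s := by
  have := exp_up6 hs
  unfold eN
  simp only [sum_range_succ, range_zero, sum_empty, Nat.factorial]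
  norm_num
  linarith

lemma eN5_nonneg {s : ℝ} (h0 : 0 ≤ s) (h1 : s ≤ 1) : 0 ≤ eN 5 s := by
  have e : eN 5 s = (1 - s) + s ^ 2 * (3 - s) / 6 + s ^ 4 * (5 - s) / 120 := by
    unfold eN
    simp only [sum_range_succ, range_zero, sum_empty, Nat.factorial]
    push_cast
    ring
  rw [e]
  have h3 : 0 ≤ 3 - s := by linarith
  have h5 : 0 ≤ 5 - s := by linarith
  have h2 : 0 ≤ 1 - s := by linarith
  positivity

/-- signed binomial coefficients -/
def cc (n l k : ℕ) : ℝ := if l ≤ k ∧ k < l + (n + 1) then (-1) ^ (k - l) * (k.choose l : ℝ) else 0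

lemma cc_sum (n l M : ℕ) (hM : l + (n + 1) ≤ M) (g : ℕ → ℝ) :
    ∑ k ∈ range M, cc n l k * g k =
      ∑ i ∈ range (n + 1), (-1) ^ i * ((i + l).choose l : ℝ) * g (i + l) := by
  have h1 : ∑ k ∈ range M, cc n l k * g k = ∑ k ∈ Ico l (l + (n + 1)), cc n l k * g k := by
    refine (sum_subset (fun k hk => ?_) (fun k _ hk => ?_)).symm
    · rw [mem_Ico] at hk
      rw [mem_range]; omega
    · rw [mem_Ico] at hk
      unfold cc
      rw [if_neg hk, zero_mul]
  rw [h1, sum_Ico_eq_sum_range, Nat.add_sub_cancel_left]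
  refine sum_congr rfl fun i hi => ?_
  rw [mem_range] at hi
  unfold cc
  rw [if_pos ⟨by omega, by omega⟩, Nat.add_sub_cancel_left, Nat.add_comm l i]

/-- weights of the source -/
def swt (n : ℕ) (h : ℝ) (p l : ℕ) : ℝ :=
  ∑ i ∈ range (n + 1), (-1) ^ i * ((i + l).choose l : ℝ) *
    (h ^ (i + l) * (p.factorial : ℝ) / ((p + (i + l)).factorial : ℝ))

lemma en_mul (n l : ℕ) (s : ℝ) :
    ∑ i ∈ range (n + 1), (-1) ^ i * ((i + l).choose l : ℝ) * (s ^ (i + l) / ((i + l).factorial : ℝ)) =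
      s ^ l / (l.factorial : ℝ) * eN n s := by
  unfold eN
  rw [mul_sum]
  refine sum_congr rfl fun i _ => ?_
  have h1 : ((i + l).factorial : ℝ) = ((i + l).choose l : ℝ) * i.factorial * l.factorial := by
    have := Nat.add_choose_mul_factorial_mul_factorial i l
    exact_mod_cast this.symm
  have hi : (i.factorial : ℝ) ≠ 0 := by exact_mod_cast i.factorial_ne_zero
  have hl : (l.factorial : ℝ) ≠ 0 := by exact_mod_cast l.factorial_ne_zero
  have hc : ((i + l).choose l : ℝ) ≠ 0 := by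
    exact_mod_cast (Nat.choose_pos (Nat.le_add_left l i)).ne'
  rw [h1, pow_add]
  field_simp

/-- coefficients of the source -/
def qs (n L : ℕ) (w : ℝ) (v : ℕ → ℝ) (k : ℕ) : ℝ := w * ∑ l ∈ range L, v l * cc n l k

lemma qs_sum (n L M : ℕ) (hM : L + n ≤ M) (w : ℝ) (v : ℕ → ℝ) (g : ℕ → ℝ) :
    ∑ k ∈ range M, qs n L w v k * g k =
      w * ∑ l ∈ range L, v l * ∑ i ∈ range (n + 1), (-1) ^ i * ((i + l).choose l : ℝ) * g (i + l) := by
  unfold qs
  have h1 : ∀ k, (w * ∑ l ∈ range L, v l * cc n l k) * g k = w * ∑ l ∈ range L, v l * (cc n l k * g k) := by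
    intro k
    rw [mul_assoc, sum_mul]
    congr 1
    exact sum_congr rfl fun l _ => by ring
  simp only [h1]
  rw [← mul_sum, sum_comm]
  congr 1
  refine sum_congr rfl fun l hl => ?_
  rw [mem_range] at hl
  rw [← mul_sum, cc_sum n l M (by omega)]

lemma tp_qs (n L M : ℕ) (hM : L + n ≤ M) (w : ℝ) (v : ℕ → ℝ) (s : ℝ) :
    tp M (qs n L w v) s = w * (eN n s * tp L v s) := by
  unfold tp
  rw [qs_sum n L M hM w v (fun k => s ^ k / (k.factorial : ℝ))]
  congr 1
  rw [mul_sum]
  refine sum_congr rfl fun l _ => ?_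
  rw [en_mul]
  ring

/-- source of the lower scheme -/
def srcLo (h : ℝ) (m p : ℕ) (v : ℕ → ℝ) : ℝ := ∑ l ∈ range (m + 1), v l * swt 5 h p l

/-- source of the upper scheme -/
def srcUp (h : ℝ) (m p : ℕ) (v : ℕ → ℝ) : ℝ := ∑ l ∈ range (m + 2), v l * swt 6 h p l

/-- lower one-step map -/
def LoR (m : ℕ) (h w : ℝ) (v : ℕ → ℝ) (j : ℕ) : ℝ :=
  hor h 0 (m + 1 - j) (fun l => v (j + l)) (w * srcLo h m (m + 1 - j) v)

/-- crude upper bound for `y_0 (x + h)` -/
def C0R (m : ℕ) (h : ℝ) (v : ℕ → ℝ) : ℝ := 2 * hor h 0 (m + 1) v 0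

/-- the vector extended by one entry -/
def vex (m : ℕ) (h w : ℝ) (v : ℕ → ℝ) (l : ℕ) : ℝ := if l < m + 1 then v l else w * C0R m h v

/-- upper one-step map -/
def UpR (m : ℕ) (h w : ℝ) (v : ℕ → ℝ) (j : ℕ) : ℝ :=
  hor h 0 (m + 1 - j) (fun l => v (j + l)) (w * srcUp h m (m + 1 - j) (vex m h w v))

lemma hor_congr (h : ℝ) (p i : ℕ) (v v' : ℕ → ℝ) (t : ℝ) (hv : ∀ l < p, v l = v' l) :
    hor h i p v t = hor h i p v' t := by
  rw [hor_eq, hor_eq]
  congr 1
  exact sum_congr rfl fun l hl => by rw [hv l (mem_range.1 hl)]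

/-- lower one-step bound -/
theorem lo_step (hy : Sol m y) {h : ℝ} (h0 : 0 ≤ h) (h1 : h ≤ 1) (x : ℝ) {j : ℕ} (hj : j ≤ m) :
    LoR m h (Real.exp (-x)) (fun i => y i x) j ≤ y j (x + h) := by
  set p := m + 1 - j with hp
  set w := Real.exp (-x) with hw
  have hw0 : 0 < w := Real.exp_pos _
  set v : ℕ → ℝ := fun i => y i x with hv
  set u : ℕ → ℝ := fun l => if l < p then y (j + l) x else qs 5 (m + 1) w v (l - p) with hu
  have hu2 : (fun k => u (p + k)) = qs 5 (m + 1) w v := by
    funext k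
    simp [hu]
  have key := chain_ge (M := m + 6) x h p (fun i => y (j + i)) u
    (fun i hi t => by
      have := hy.d (j + i) (by omega) t
      exact this)
    (fun l hl => by simp [hu, hl])
    (fun s hs0 hs1 => by
      have e1 : j + p = m + 1 := by omega
      rw [hu2, tp_qs 5 (m + 1) (m + 6) (by omega), e1, hy.last]
      have hy0 := chain_ge (M := 0) x s (m + 1) y v
        (fun i hi t => hy.d i (by omega) t) (fun l _ => le_rfl)
        (fun s _ _ => by simp only [tp, range_zero, sum_empty]; exact (hy.pos _ _).le) s hs0 le_rfl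
      rw [Nat.add_zero] at hy0
      have e2 : Real.exp (-(x + s)) = w * Real.exp (-s) := by
        rw [hw, ← Real.exp_add]; congr 1; ring
      rw [e2, mul_assoc]
      refine mul_le_mul_of_nonneg_left ?_ hw0.le
      calc eN 5 s * tp (m + 1) v s ≤ eN 5 s * y 0 (x + s) :=
            mul_le_mul_of_nonneg_left hy0 (eN5_nonneg hs0 (hs1.trans h1))
        _ ≤ Real.exp (-s) * y 0 (x + s) := mul_le_mul_of_nonneg_right (eN5_le hs0) (hy.pos _ _).le) h h0 le_rfl
  rw [tp_hor p (m + 6) u h (w * srcLo h m p v) (by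
    have : ∀ k, u (p + k) = qs 5 (m + 1) w v k := fun k => congrFun hu2 k
    simp only [this]
    rw [qs_sum 5 (m + 1) (m + 6) (by omega) w v (fun k => h ^ k * (p.factorial : ℝ) / ((p + k).factorial : ℝ))]
    rfl)] at key
  simp only [Nat.add_zero] at key
  unfold LoR
  rw [hor_congr h p 0 _ u _ (fun l hl => by simp [hu, hl, hv])]
  exact key

/-- crude bound for `y_0` -/
lemma C0_bound (hy : Sol m y) {h : ℝ} (h0 : 0 ≤ h) (x : ℝ)
    (hw : 2 * (h ^ (m + 1) * Real.exp (-x)) ≤ ((m + 1).factorial : ℝ)) :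
    y 0 (x + h) ≤ C0R m h (fun i => y i x) := by
  have hf : (0 : ℝ) < ((m + 1).factorial : ℝ) := by exact_mod_cast (m + 1).factorial_pos
  have key := chain_le (M := 1) x h (m + 1) y
    (fun l => if l < m + 1 then y l x else Real.exp (-x) * y 0 (x + h))
    (fun i hi t => hy.d i (by omega) t) (fun l hl => by simp [hl])
    (fun s hs0 hs1 => by
      rw [hy.last]
      have e1 : tp 1 (fun l => if m + 1 + l < m + 1 then y (m + 1 + l) x else Real.exp (-x) * y 0 (x + h)) s =
        Real.exp (-x) * y 0 (x + h) := by simp [tp]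
      rw [e1]
      have h2 : Real.exp (-(x + s)) ≤ Real.exp (-x) := Real.exp_le_exp.2 (by linarith)
      have h3 : y 0 (x + s) ≤ y 0 (x + h) := hy.mono (Nat.zero_le _) (by linarith)
      exact mul_le_mul h2 h3 (hy.pos _ _).le (Real.exp_pos _).le) h h0 le_rfl
  rw [tp_hor (m + 1) 1 _ h (Real.exp (-x) * y 0 (x + h)) (by
    have : ((m + 1).factorial : ℝ) ≠ 0 := hf.ne'
    simp [this]), hor_eq] at key
  unfold C0R
  rw [hor_eq]
  have e2 : ∑ l ∈ range (m + 1), (if l < m + 1 then y l x else Real.exp (-x) * y 0 (x + h)) *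
      (h ^ l * ((0 : ℕ).factorial : ℝ) / ((0 + l).factorial : ℝ)) =
      ∑ l ∈ range (m + 1), y l x * (h ^ l * ((0 : ℕ).factorial : ℝ) / ((0 + l).factorial : ℝ)) :=
    sum_congr rfl fun l hl => by rw [if_pos (mem_range.1 hl)]
  rw [e2] at key
  set S := ∑ l ∈ range (m + 1), y l x * (h ^ l * ((0 : ℕ).factorial : ℝ) / ((0 + l).factorial : ℝ)) with hS
  have hy0 := hy.pos 0 (x + h)
  have e3 : Real.exp (-x) * y 0 (x + h) * (h ^ (m + 1) * ((0 : ℕ).factorial : ℝ) / ((0 + (m + 1)).factorial : ℝ))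
      ≤ y 0 (x + h) / 2 := by
    rw [Nat.zero_add, Nat.factorial_zero, Nat.cast_one, mul_one]
    have : Real.exp (-x) * y 0 (x + h) * (h ^ (m + 1) / ((m + 1).factorial : ℝ)) =
        (y 0 (x + h) / 2) * ((2 * (h ^ (m + 1) * Real.exp (-x))) / ((m + 1).factorial : ℝ)) := by
      field_simp
    rw [this]
    refine mul_le_of_le_one_right (by positivity) ?_
    rw [div_le_one hf]
    exact hw
  linarith

/-- upper one-step bound -/
theorem up_step (hy : Sol m y) {h : ℝ} (h0 : 0 ≤ h) (x : ℝ)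
    (hw : 2 * (h ^ (m + 1) * Real.exp (-x)) ≤ ((m + 1).factorial : ℝ)) {j : ℕ} (hj : j ≤ m) :
    y j (x + h) ≤ UpR m h (Real.exp (-x)) (fun i => y i x) j := by
  have hC := C0_bound hy h0 x hw
  set p := m + 1 - j with hp
  set w := Real.exp (-x) with hw'
  have hw0 : 0 < w := Real.exp_pos _
  set v : ℕ → ℝ := vex m h w (fun i => y i x) with hv
  have hv1 : ∀ l, l < m + 1 → v l = y l x := fun l hl => by simp [hv, vex, hl]
  have hv2 : v (m + 1) = w * C0R m h (fun i => y i x) := by simp [hv, vex]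
  set u : ℕ → ℝ := fun l => if l < p then y (j + l) x else qs 6 (m + 2) w v (l - p) with hu
  have hu2 : (fun k => u (p + k)) = qs 6 (m + 2) w v := by
    funext k
    simp [hu]
  have key := chain_le (M := m + 8) x h p (fun i => y (j + i)) u
    (fun i hi t => by
      have := hy.d (j + i) (by omega) t
      exact this)
    (fun l hl => by simp [hu, hl])
    (fun s hs0 hs1 => by
      have e1 : j + p = m + 1 := by omega
      rw [hu2, tp_qs 6 (m + 2) (m + 8) (by omega), e1, hy.last]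
      have hy0 := chain_le (M := 1) x s (m + 1) y v
        (fun i hi t => hy.d i (by omega) t) (fun l hl => (hv1 l hl).ge)
        (fun t ht0 ht1 => by
          have e5 : tp 1 (fun l => v (m + 1 + l)) t = v (m + 1) := by simp [tp]
          rw [e5, hv2, hy.last]
          have h2 : Real.exp (-(x + t)) ≤ w := Real.exp_le_exp.2 (by linarith)
          have h3 : y 0 (x + t) ≤ y 0 (x + h) := hy.mono (Nat.zero_le _) (by linarith)
          exact mul_le_mul h2 (h3.trans hC) (hy.pos _ _).le hw0.le) s hs0 le_rfl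
      have e2 : Real.exp (-(x + s)) = w * Real.exp (-s) := by
        rw [hw', ← Real.exp_add]; congr 1; ring
      rw [e2, mul_assoc]
      refine mul_le_mul_of_nonneg_left ?_ hw0.le
      exact mul_le_mul (eN6_ge hs0) hy0 (hy.pos _ _).le ((Real.exp_pos _).le.trans (eN6_ge hs0))) h h0 le_rfl
  rw [tp_hor p (m + 8) u h (w * srcUp h m p v) (by
    have : ∀ k, u (p + k) = qs 6 (m + 2) w v k := fun k => congrFun hu2 k
    simp only [this]
    rw [qs_sum 6 (m + 2) (m + 8) (by omega) w v (fun k => h ^ k * (p.factorial : ℝ) / ((p + k).factorial : ℝ))]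
    rfl)] at key
  simp only [Nat.add_zero] at key
  unfold UpR
  rw [hor_congr h p 0 (fun l => y (j + l) x) u _ (fun l hl => by simp [hu, hl])]
  exact key

/-- the weights of the upper source are nonnegative -/
lemma swt6_nonneg {h : ℝ} (h0 : 0 ≤ h) (h1 : h ≤ 1) (p l : ℕ) : 0 ≤ swt 6 h p l := by
  set T : ℕ → ℝ := fun i => ((i + l).choose l : ℝ) *
    (h ^ (i + l) * (p.factorial : ℝ) / ((p + (i + l)).factorial : ℝ)) with hT
  have hT0 : ∀ i, 0 ≤ T i := fun i => by simp only [hT]; positivity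
  have hstep : ∀ i, T (i + 1) ≤ T i := by
    intro i
    simp only [hT]
    have e1 : ((i + 1 + l).choose l : ℝ) * ((i : ℝ) + 1) = ((i + l).choose l : ℝ) * ((i : ℝ) + l + 1) := by
      have := Nat.add_one_mul_choose_eq (i + l) i
      have h2 : i + l + 1 = i + 1 + l := by omega
      have h3 : (i + 1 + l).choose l = (i + 1 + l).choose (i + 1) := Nat.choose_symm_add.symm
      have h4 : (i + l).choose l = (i + l).choose i := Nat.choose_symm_add.symm
      rw [h3, h4]
      rw [h2] at this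
      have h5 : ((((i + 1 + l) * (i + l).choose i : ℕ)) : ℝ) = (((i + 1 + l).choose (i + 1) * (i + 1) : ℕ) : ℝ) := by
        exact_mod_cast this
      push_cast at h5
      linarith
    have e2 : ((i + 1 + l).choose l : ℝ) ≤ ((i + l).choose l : ℝ) * ((i : ℝ) + l + 1) := by
      rw [← e1]
      have : (0 : ℝ) ≤ ((i + 1 + l).choose l : ℝ) := Nat.cast_nonneg _
      nlinarith [Nat.cast_nonneg (α := ℝ) i]
    have e3 : ((p + (i + 1 + l)).factorial : ℝ) = ((p : ℝ) + i + l + 1) * ((p + (i + l)).factorial : ℝ) := by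
      have : p + (i + 1 + l) = (p + (i + l)) + 1 := by omega
      rw [this, Nat.factorial_succ]; push_cast; ring
    have hf : (0 : ℝ) < ((p + (i + l)).factorial : ℝ) := by exact_mod_cast (p + (i + l)).factorial_pos
    rw [e3]
    have e4 : h ^ (i + 1 + l) = h ^ (i + l) * h := by
      rw [show i + 1 + l = (i + l) + 1 by omega, pow_succ]
    rw [e4]
    have hp1 : (0 : ℝ) < (p : ℝ) + i + l + 1 := by positivity
    have e5 : ((i + 1 + l).choose l : ℝ) * (h ^ (i + l) * h * (p.factorial : ℝ) /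
        (((p : ℝ) + i + l + 1) * ((p + (i + l)).factorial : ℝ))) =
        (((i + 1 + l).choose l : ℝ) * h / ((p : ℝ) + i + l + 1)) *
          (h ^ (i + l) * (p.factorial : ℝ) / ((p + (i + l)).factorial : ℝ)) := by
      field_simp
    rw [e5]
    refine mul_le_mul_of_nonneg_right ?_ (by positivity)
    rw [div_le_iff₀ hp1]
    have hc0 : (0 : ℝ) ≤ ((i + l).choose l : ℝ) := Nat.cast_nonneg _
    have hc1 : (0 : ℝ) ≤ ((i + 1 + l).choose l : ℝ) := Nat.cast_nonneg _
    calc ((i + 1 + l).choose l : ℝ) * h ≤ ((i + 1 + l).choose l : ℝ) * 1 := mul_le_mul_of_nonneg_left h1 hc1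
      _ ≤ ((i + l).choose l : ℝ) * ((i : ℝ) + l + 1) := by rw [mul_one]; exact e2
      _ ≤ ((i + l).choose l : ℝ) * ((p : ℝ) + i + l + 1) := by
          refine mul_le_mul_of_nonneg_left ?_ hc0
          have : (0 : ℝ) ≤ p := Nat.cast_nonneg _
          linarith
  have e : swt 6 h p l = (T 0 - T 1) + (T 2 - T 3) + (T 4 - T 5) + T 6 := by
    unfold swt
    simp only [mul_assoc]
    change ∑ i ∈ range 7, (-1) ^ i * T i = _
    simp only [sum_range_succ, range_zero, sum_empty]
    ring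
  rw [e]
  linarith [hstep 0, hstep 2, hstep 4, hT0 6]

end

end Pool.Agent.Helper22.Opp
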