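import Pool.Agent.Helper22.Opp.Eng
import Pool.Agent.Helper22.Opp.Step

/-!
# Soundness of the computation
-/

set_option autoImplicit false

open Finset

namespace Pool.Agent.Helper22.Opp

noncomputable section

/-- a list of numbers as a real vector -/
def vec (l : List ℕ) (i : ℕ) : ℝ := ((l.getD i 0 : ℕ) : ℝ)

lemma vec_nonneg (l : List ℕ) (i : ℕ) : 0 ≤ vec l i := Nat.cast_nonneg _

lemma vec_drop (l : List ℕ) (j i : ℕ) : vec (l.drop j) i = vec l (j + i) := by
  unfold vec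
  rw [List.getD_eq_getElem?_getD, List.getD_eq_getElem?_getD, List.getElem?_drop]

lemma vec_cons_succ (v : ℕ) (l : List ℕ) : (fun i => vec (v :: l) (i + 1)) = vec l := by
  funext i; simp [vec]

lemma cast_div_le' (a b : ℕ) : ((a / b : ℕ) : ℝ) ≤ (a : ℝ) / b := Nat.cast_div_le

lemma cast_div_ge' (a b : ℕ) (hb : 0 < b) : (a : ℝ) / b ≤ ((a / b + 1 : ℕ) : ℝ) := by
  have hb' : (0 : ℝ) < b := by exact_mod_cast hb
  rw [div_le_iff₀ hb']
  have h : a < (a / b + 1) * b := by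
    have := Nat.lt_div_mul_add (a := a) hb
    linarith
  exact_mod_cast h.le

variable {H W : ℕ}

lemma horLo_le (hH : 0 < H) : ∀ (vs : List ℕ) (i t : ℕ) (T : ℝ) (_ : (t : ℝ) ≤ T),
    (horLo H i vs t : ℝ) ≤ hor (1 / (H : ℝ)) i vs.length (vec vs) T
  | [], i, t, T, hT => by simpa [horLo, hor] using hT
  | v :: vs, i, t, T, hT => by
    have hH' : (0 : ℝ) < H := by exact_mod_cast hH
    rw [List.length_cons, hor, vec_cons_succ, horLo]
    have ih := horLo_le hH vs (i + 1) t T hT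
    push_cast
    have h1 := cast_div_le' (horLo H (i + 1) vs t) (H * (i + 1))
    have h2 : ((H * (i + 1) : ℕ) : ℝ) = (H : ℝ) * (i + 1) := by push_cast; ring
    rw [h2] at h1
    have h3 : vec (v :: vs) 0 = v := by simp [vec]
    rw [h3]
    have h4 : (1 / (H : ℝ)) / (i + 1) * hor (1 / (H : ℝ)) (i + 1) vs.length (vec vs) T =
      hor (1 / (H : ℝ)) (i + 1) vs.length (vec vs) T / ((H : ℝ) * (i + 1)) := by
      field_simp
    rw [h4]
    have h5 : (horLo H (i + 1) vs t : ℝ) / ((H : ℝ) * (i + 1)) ≤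
        hor (1 / (H : ℝ)) (i + 1) vs.length (vec vs) T / ((H : ℝ) * (i + 1)) := by
      apply div_le_div_of_nonneg_right ih (by positivity)
    linarith

lemma horUp_ge (hH : 0 < H) : ∀ (vs : List ℕ) (i t : ℕ) (T : ℝ) (_ : T ≤ (t : ℝ)),
    hor (1 / (H : ℝ)) i vs.length (vec vs) T ≤ (horUp H i vs t : ℝ)
  | [], i, t, T, hT => by simpa [horUp, hor] using hT
  | v :: vs, i, t, T, hT => by
    have hH' : (0 : ℝ) < H := by exact_mod_cast hH
    rw [List.length_cons, hor, vec_cons_succ, horUp]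
    have ih := horUp_ge hH vs (i + 1) t T hT
    have h1 := cast_div_ge' (horUp H (i + 1) vs t) (H * (i + 1)) (by positivity)
    have h2 : ((H * (i + 1) : ℕ) : ℝ) = (H : ℝ) * (i + 1) := by push_cast; ring
    rw [h2] at h1
    have h3 : vec (v :: vs) 0 = v := by simp [vec]
    rw [h3]
    have h4 : (1 / (H : ℝ)) / (i + 1) * hor (1 / (H : ℝ)) (i + 1) vs.length (vec vs) T =
      hor (1 / (H : ℝ)) (i + 1) vs.length (vec vs) T / ((H : ℝ) * (i + 1)) := by
      field_simp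
    rw [h4]
    have h5 : hor (1 / (H : ℝ)) (i + 1) vs.length (vec vs) T / ((H : ℝ) * (i + 1)) ≤
        (horUp H (i + 1) vs t : ℝ) / ((H : ℝ) * (i + 1)) := by
      apply div_le_div_of_nonneg_right ih (by positivity)
    rw [Nat.cast_add]
    linarith

/-! ### tables -/

/-- the tables bound the weights of the sources -/
structure Tab (H S m : ℕ) (tL tU : List (List ℕ)) : Prop where
  ll : tL.length = m + 1
  lu : tU.length = m + 1
  lr : ∀ t ∈ tU, t.length = m + 2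
  lo : ∀ j ≤ m, ∀ l ≤ m, vec (tL.getD j []) l ≤ S * swt 5 (1 / (H : ℝ)) (m + 1 - j) l
  up : ∀ j ≤ m, ∀ l ≤ m + 1, S * swt 6 (1 / (H : ℝ)) (m + 1 - j) l ≤ vec (tU.getD j []) l

lemma svS_eq (n H p l : ℕ) (hH : 0 < H) : ∀ k ≤ n + 1, ((svS n H p l k : ℤ) : ℝ) =
    (∑ i ∈ range k, (-1) ^ i * ((i + l).choose l : ℝ) *
      ((1 / (H : ℝ)) ^ (i + l) * (p.factorial : ℝ) / ((p + (i + l)).factorial : ℝ))) * (svD n H p l : ℝ)
  | 0, _ => by simp [svS]
  | k + 1, hk => by
    rw [svS, sum_range_succ, add_mul, Int.cast_add, svS_eq n H p l hH k (by omega)]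
    congr 1
    have hH' : (H : ℝ) ≠ 0 := by exact_mod_cast hH.ne'
    have hsgn : ((if k % 2 = 0 then (svT n H p l k : ℤ) else -(svT n H p l k : ℤ) : ℤ) : ℝ) =
        (-1) ^ k * (svT n H p l k : ℝ) := by
      rcases Nat.even_or_odd k with h | h
      · rw [if_pos (Nat.even_iff.1 h), h.neg_one_pow]; push_cast; ring
      · rw [if_neg (by rw [Nat.odd_iff.1 h]; norm_num), h.neg_one_pow]; push_cast; ring
    rw [hsgn]
    have hkn : k ≤ n := by omega
    have e1 : ((k + l).factorial : ℝ) = ((k + l).choose l : ℝ) * k.factorial * l.factorial := by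
      have := Nat.add_choose_mul_factorial_mul_factorial k l
      exact_mod_cast this.symm
    have e2 : (n.factorial : ℝ) = k.factorial * (n.descFactorial (n - k) : ℝ) := by
      have := Nat.factorial_mul_descFactorial (n := n) (k := n - k) (by omega)
      rw [show n - (n - k) = k by omega] at this
      exact_mod_cast this.symm
    have e3 : ((p + n + l).factorial : ℝ) = ((p + (k + l)).factorial : ℝ) * ((p + n + l).descFactorial (n - k) : ℝ) := by
      have := Nat.factorial_mul_descFactorial (n := p + n + l) (k := n - k) (by omega)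
      rw [show p + n + l - (n - k) = p + (k + l) by omega] at this
      exact_mod_cast this.symm
    have e4 : (H : ℝ) ^ (n + l) = (H : ℝ) ^ (k + l) * (H : ℝ) ^ (n - k) := by
      rw [← pow_add]; congr 1; omega
    have hf : ((p + (k + l)).factorial : ℝ) ≠ 0 := by exact_mod_cast (p + (k + l)).factorial_ne_zero
    unfold svT svD
    push_cast
    rw [e3, e2, e1, e4]
    rw [one_div, inv_pow]
    field_simp

lemma tab_of_chk {S m : ℕ} {tL tU : List (List ℕ)} (hH : 0 < H) (h : tabChk H S m tL tU = true) :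
    Tab H S m tL tU := by
  unfold tabChk at h
  simp only [Bool.and_eq_true, beq_iff_eq, List.all_eq_true, List.mem_range, decide_eq_true_eq] at h
  obtain ⟨⟨⟨h1, h2⟩, h3⟩, h4⟩ := h
  have hD : ∀ n p l, (0 : ℝ) < svD n H p l := by
    intro n p l
    have : 0 < svD n H p l := by
      unfold svD
      have := (p + n + l).factorial_pos
      have := n.factorial_pos
      have := l.factorial_pos
      positivity
    exact_mod_cast this
  refine ⟨h1, h2, fun t ht => by simpa using h3 t ht, ?_, ?_⟩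
  · intro j hj l hl
    have h5 := (h4 j (by omega)).1 l (by omega)
    have h6 : ((((tL.getD j []).getD l 0 * svD 5 H (m + 1 - j) l : ℕ) : ℤ) : ℝ) ≤
        (((S : ℤ) * svS 5 H (m + 1 - j) l 6 : ℤ) : ℝ) := by exact_mod_cast h5
    rw [Int.cast_mul, svS_eq 5 H (m + 1 - j) l hH 6 (by omega)] at h6
    push_cast at h6
    have h7 : vec (tL.getD j []) l * (svD 5 H (m + 1 - j) l : ℝ) ≤
        (S * swt 5 (1 / (H : ℝ)) (m + 1 - j) l) * (svD 5 H (m + 1 - j) l : ℝ) := by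
      unfold vec swt
      refine h6.trans (le_of_eq ?_)
      ring
    exact le_of_mul_le_mul_right h7 (hD _ _ _)
  · intro j hj l hl
    have h5 := (h4 j (by omega)).2 l (by omega)
    have h6 : (((S : ℤ) * svS 6 H (m + 1 - j) l 7 : ℤ) : ℝ) ≤
        ((((tU.getD j []).getD l 0 * svD 6 H (m + 1 - j) l : ℕ) : ℤ) : ℝ) := by exact_mod_cast h5
    rw [Int.cast_mul, svS_eq 6 H (m + 1 - j) l hH 7 (by omega)] at h6
    push_cast at h6
    have h7 : (S * swt 6 (1 / (H : ℝ)) (m + 1 - j) l) * (svD 6 H (m + 1 - j) l : ℝ) ≤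
        vec (tU.getD j []) l * (svD 6 H (m + 1 - j) l : ℝ) := by
      unfold vec swt
      refine le_trans (le_of_eq ?_) h6
      ring
    exact le_of_mul_le_mul_right h7 (hD _ _ _)

lemma dot_eq : ∀ (t v : List ℕ) (L : ℕ) (_ : v.length ≤ L), (dot t v : ℝ) = ∑ l ∈ range L, vec t l * vec v l
  | [], v, L, _ => by
    simp only [dot, Nat.cast_zero]
    refine (sum_eq_zero fun l _ => ?_).symm
    simp [vec]
  | t :: ts, [], L, _ => by
    simp only [dot, Nat.cast_zero]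
    refine (sum_eq_zero fun l _ => ?_).symm
    simp [vec]
  | t :: ts, v :: vs, 0, h => by simp at h
  | t :: ts, v :: vs, L + 1, h => by
    rw [dot, sum_range_succ']
    push_cast
    rw [dot_eq ts vs L (by simpa using h)]
    have e : ∀ l, vec (t :: ts) (l + 1) * vec (v :: vs) (l + 1) = vec ts l * vec vs l := by
      intro l; simp [vec]
    simp only [e]
    have e0 : vec (t :: ts) 0 * vec (v :: vs) 0 = t * v := by simp [vec]
    rw [e0]
    ring

lemma goLo_length (WS wl : ℕ) (a : List ℕ) : ∀ (ts : List (List ℕ)) (l : List ℕ) (_ : l.length ≤ ts.length),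
    (goLo H WS wl a ts l).length = l.length
  | [], [], _ => rfl
  | _ :: _, [], _ => rfl
  | [], _ :: _, h => by simp at h
  | _ :: ts, _ :: vs, h => by
    rw [goLo, List.length_cons, List.length_cons, goLo_length WS wl a ts vs (by simpa using h)]

lemma goUp_length (WS wu : ℕ) (b : List ℕ) : ∀ (ts : List (List ℕ)) (l : List ℕ) (_ : l.length ≤ ts.length),
    (goUp H WS wu b ts l).length = l.length
  | [], [], _ => rfl
  | _ :: _, [], _ => rfl
  | [], _ :: _, h => by simp at h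
  | _ :: ts, _ :: vs, h => by
    rw [goUp, List.length_cons, List.length_cons, goUp_length WS wu b ts vs (by simpa using h)]

lemma goLo_getD (WS wl : ℕ) (a : List ℕ) : ∀ (ts : List (List ℕ)) (l : List ℕ) (j : ℕ)
    (_ : l.length ≤ ts.length) (_ : j < l.length),
    (goLo H WS wl a ts l).getD j 0 = horLo H 0 (l.drop j) (wl * dot (ts.getD j []) a / WS)
  | [], [], j, _, hj => by simp at hj
  | _ :: _, [], j, _, hj => by simp at hj
  | [], _ :: _, j, h, _ => by simp at h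
  | t :: ts, v :: vs, 0, _, _ => by simp [goLo]
  | t :: ts, v :: vs, j + 1, h, hj => by
    rw [goLo, List.getD_cons_succ, List.drop_succ_cons, List.getD_cons_succ,
      goLo_getD WS wl a ts vs j (by simpa using h) (by simpa using hj)]

lemma goUp_getD (WS wu : ℕ) (b : List ℕ) : ∀ (ts : List (List ℕ)) (l : List ℕ) (j : ℕ)
    (_ : l.length ≤ ts.length) (_ : j < l.length),
    (goUp H WS wu b ts l).getD j 0 = horUp H 0 (l.drop j) (wu * dot (ts.getD j []) b / WS + 1)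
  | [], [], j, _, hj => by simp at hj
  | _ :: _, [], j, _, hj => by simp at hj
  | [], _ :: _, j, h, _ => by simp at h
  | t :: ts, v :: vs, 0, _, _ => by simp [goUp]
  | t :: ts, v :: vs, j + 1, h, hj => by
    rw [goUp, List.getD_cons_succ, List.drop_succ_cons, List.getD_cons_succ,
      goUp_getD WS wu b ts vs j (by simpa using h) (by simpa using hj)]

variable {S m : ℕ} {tL tU : List (List ℕ)}

lemma stepLo_length (hT : Tab H S m tL tU) (WS wl : ℕ) {a : List ℕ} (ha : a.length = m + 1) :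
    (stepLo H WS tL wl a).length = m + 1 := by
  rw [stepLo, goLo_length _ _ _ _ _ (by rw [ha, hT.ll]), ha]

lemma stepUp_length (hT : Tab H S m tL tU) (WS wu : ℕ) {b : List ℕ} (hb : b.length = m + 1) :
    (stepUp H W WS tU wu b).length = m + 1 := by
  unfold stepUp
  rw [force_eq, goUp_length _ _ _ _ _ (by rw [hb, hT.lu]), hb]

lemma stepLo_le (hT : Tab H S m tL tU) (hS : 0 < S) (hH : 0 < H) (hW : 0 < W) {wl : ℕ} {w : ℝ}
    (hw : (wl : ℝ) ≤ W * w) (a : List ℕ) (ha : a.length = m + 1) {j : ℕ} (hj : j ≤ m) :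
    vec (stepLo H (W * S) tL wl a) j ≤ LoR m (1 / (H : ℝ)) w (vec a) j := by
  have hW' : (0 : ℝ) < W := by exact_mod_cast hW
  have hS' : (0 : ℝ) < S := by exact_mod_cast hS
  unfold stepLo
  have hg : vec (goLo H (W * S) wl a tL a) j =
      ((horLo H 0 (a.drop j) (wl * dot (tL.getD j []) a / (W * S)) : ℕ) : ℝ) := by
    unfold vec
    rw [goLo_getD _ _ _ _ _ _ (by rw [ha, hT.ll]) (by omega)]
  rw [hg]
  have hsrc : ((wl * dot (tL.getD j []) a / (W * S) : ℕ) : ℝ) ≤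
      w * srcLo (1 / (H : ℝ)) m (m + 1 - j) (vec a) := by
    refine (cast_div_le' _ _).trans ?_
    push_cast
    rw [dot_eq _ a (m + 1) ha.le, div_le_iff₀ (by positivity)]
    have h1 : ∑ l ∈ range (m + 1), vec (tL.getD j []) l * vec a l ≤
        S * srcLo (1 / (H : ℝ)) m (m + 1 - j) (vec a) := by
      unfold srcLo
      rw [mul_sum]
      refine sum_le_sum fun l hl => ?_
      rw [mem_range] at hl
      have := mul_le_mul_of_nonneg_right (hT.lo j hj l (by omega)) (vec_nonneg a l)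
      linarith
    have h0 : 0 ≤ ∑ l ∈ range (m + 1), vec (tL.getD j []) l * vec a l :=
      sum_nonneg fun l _ => mul_nonneg (vec_nonneg _ _) (vec_nonneg _ _)
    calc (wl : ℝ) * ∑ l ∈ range (m + 1), vec (tL.getD j []) l * vec a l
        ≤ (W * w) * ∑ l ∈ range (m + 1), vec (tL.getD j []) l * vec a l := mul_le_mul_of_nonneg_right hw h0
      _ ≤ (W * w) * (S * srcLo (1 / (H : ℝ)) m (m + 1 - j) (vec a)) := by
          refine mul_le_mul_of_nonneg_left h1 ?_
          exact le_trans (Nat.cast_nonneg _) hw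
      _ = _ := by ring
  refine (horLo_le hH _ _ _ _ hsrc).trans (le_of_eq ?_)
  unfold LoR
  rw [List.length_drop, ha]
  congr 1
  funext i
  exact vec_drop a j i

lemma srcUp_mono (hH : 0 < H) {p : ℕ} {v v' : ℕ → ℝ} (h : ∀ l ≤ m + 1, v l ≤ v' l) :
    srcUp (1 / (H : ℝ)) m p v ≤ srcUp (1 / (H : ℝ)) m p v' := by
  have hH1 : (1 : ℝ) ≤ H := by exact_mod_cast hH
  unfold srcUp
  refine sum_le_sum fun l hl => mul_le_mul_of_nonneg_right (h l ?_) (swt6_nonneg (by positivity) ?_ _ _)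
  · rw [mem_range] at hl; omega
  · rw [div_le_one (by linarith)]; exact hH1

lemma srcLo_mono (hT : Tab H S m tL tU) (hS : 0 < S) {j : ℕ} (hj : j ≤ m) {v v' : ℕ → ℝ}
    (h : ∀ l ≤ m, v l ≤ v' l) :
    srcLo (1 / (H : ℝ)) m (m + 1 - j) v ≤ srcLo (1 / (H : ℝ)) m (m + 1 - j) v' := by
  have hS' : (0 : ℝ) < S := by exact_mod_cast hS
  unfold srcLo
  refine sum_le_sum fun l hl => ?_
  rw [mem_range] at hl
  refine mul_le_mul_of_nonneg_right (h l (by omega)) ?_
  have h1 := hT.lo j hj l (by omega)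
  have h2 : 0 ≤ S * swt 5 (1 / (H : ℝ)) (m + 1 - j) l := (vec_nonneg _ _).trans h1
  exact (mul_nonneg_iff_of_pos_left hS').1 h2

lemma stepUp_ge (hT : Tab H S m tL tU) (hS : 0 < S) (hH : 0 < H) (hW : 0 < W) {wu : ℕ} {w : ℝ}
    (hw : W * w ≤ (wu : ℝ)) (hw0 : 0 ≤ w)
    (b : List ℕ) (hb : b.length = m + 1) {j : ℕ} (hj : j ≤ m) :
    UpR m (1 / (H : ℝ)) w (vec b) j ≤ vec (stepUp H W (W * S) tU wu b) j := by
  have hh : (0 : ℝ) ≤ 1 / (H : ℝ) := by positivity
  have hW' : (0 : ℝ) < W := by exact_mod_cast hW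
  have hS' : (0 : ℝ) < S := by exact_mod_cast hS
  -- C0
  have hC : C0R m (1 / (H : ℝ)) (vec b) ≤ ((2 * horUp H 0 b 0 : ℕ) : ℝ) := by
    unfold C0R
    push_cast
    have := horUp_ge hH b 0 0 0 (by simp)
    rw [hb] at this
    linarith
  set C : ℕ := 2 * horUp H 0 b 0 with hCdef
  have hG : w * C0R m (1 / (H : ℝ)) (vec b) ≤ ((wu * C / W + 1 : ℕ) : ℝ) := by
    refine le_trans ?_ (cast_div_ge' (wu * C) W hW)
    push_cast
    rw [le_div_iff₀ hW']
    calc w * C0R m (1 / (H : ℝ)) (vec b) * W = (W * w) * C0R m (1 / (H : ℝ)) (vec b) := by ring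
      _ ≤ (W * w) * C := mul_le_mul_of_nonneg_left hC (by positivity)
      _ ≤ wu * C := mul_le_mul_of_nonneg_right hw (Nat.cast_nonneg _)
  set Y : ℕ := wu * C / W + 1 with hYdef
  have hstep : vec (stepUp H W (W * S) tU wu b) j =
      ((horUp H 0 (b.drop j) (wu * dot (tU.getD j []) (b ++ [Y]) / (W * S) + 1) : ℕ) : ℝ) := by
    unfold vec stepUp
    rw [force_eq, goUp_getD _ _ _ _ _ _ (by rw [hb, hT.lu]) (by omega)]
  rw [hstep]
  have hvb : ∀ l ≤ m + 1, vex m (1 / (H : ℝ)) w (vec b) l ≤ vec (b ++ [Y]) l := by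
    intro l hl
    unfold vex
    split_ifs with h
    · refine le_of_eq ?_
      unfold vec
      rw [List.getD_append _ _ _ _ (by omega)]
    · have : l = m + 1 := by omega
      subst this
      refine hG.trans (le_of_eq ?_)
      unfold vec
      rw [List.getD_append_right _ _ _ _ (by omega), hb]
      simp
  have hsrc : w * srcUp (1 / (H : ℝ)) m (m + 1 - j) (vex m (1 / (H : ℝ)) w (vec b)) ≤
      ((wu * dot (tU.getD j []) (b ++ [Y]) / (W * S) + 1 : ℕ) : ℝ) := by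
    refine le_trans ?_ (cast_div_ge' _ _ (Nat.mul_pos hW hS))
    push_cast
    rw [dot_eq _ (b ++ [Y]) (m + 2) (by rw [List.length_append, hb]; simp), le_div_iff₀ (by positivity)]
    have h1 : S * srcUp (1 / (H : ℝ)) m (m + 1 - j) (vec (b ++ [Y])) ≤
        ∑ l ∈ range (m + 2), vec (tU.getD j []) l * vec (b ++ [Y]) l := by
      unfold srcUp
      rw [mul_sum]
      refine sum_le_sum fun l hl => ?_
      rw [mem_range] at hl
      have := mul_le_mul_of_nonneg_right (hT.up j hj l (by omega)) (vec_nonneg (b ++ [Y]) l)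
      linarith
    have h2 := srcUp_mono (m := m) (p := m + 1 - j) hH hvb
    have h0 : 0 ≤ srcUp (1 / (H : ℝ)) m (m + 1 - j) (vec (b ++ [Y])) := by
      have := srcUp_mono (m := m) (p := m + 1 - j) hH (v := fun _ => 0) (v' := vec (b ++ [Y]))
        (fun l _ => vec_nonneg _ _)
      refine le_trans (le_of_eq ?_) this
      simp [srcUp]
    calc w * srcUp (1 / (H : ℝ)) m (m + 1 - j) (vex m (1 / (H : ℝ)) w (vec b)) * (W * S)
        ≤ w * srcUp (1 / (H : ℝ)) m (m + 1 - j) (vec (b ++ [Y])) * (W * S) := by gcongr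
      _ = (W * w) * (S * srcUp (1 / (H : ℝ)) m (m + 1 - j) (vec (b ++ [Y]))) := by ring
      _ ≤ wu * (S * srcUp (1 / (H : ℝ)) m (m + 1 - j) (vec (b ++ [Y]))) :=
          mul_le_mul_of_nonneg_right hw (by positivity)
      _ ≤ wu * ∑ l ∈ range (m + 2), vec (tU.getD j []) l * vec (b ++ [Y]) l :=
          mul_le_mul_of_nonneg_left h1 (Nat.cast_nonneg _)
  refine le_trans ?_ (horUp_ge hH _ _ _ _ hsrc)
  unfold UpR
  rw [List.length_drop, hb]
  refine hor_mono hh _ _ _ _ _ _ (fun l _ => le_of_eq (vec_drop b j l).symm) le_rfl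

lemma wLo_le (hH : 0 < H) {w : ℕ} {z : ℝ} (hz : (w : ℝ) ≤ z) : (wLo H w : ℝ) ≤ z * Real.exp (-(1 / (H : ℝ))) := by
  unfold wLo
  refine (cast_div_le' _ _).trans ?_
  have hH' : (0 : ℝ) < H := by exact_mod_cast hH
  have h1 : 120 * H ^ 4 + 20 * H ^ 2 + 1 ≤ 120 * H ^ 5 + 60 * H ^ 3 + 5 * H := by
    have i1 : H ^ 4 ≤ H ^ 5 := Nat.pow_le_pow_right hH (by omega)
    have i2 : H ^ 2 ≤ H ^ 3 := Nat.pow_le_pow_right hH (by omega)
    omega
  push_cast [Nat.cast_sub h1]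
  have h2 := exp_lo5 (s := 1 / (H : ℝ)) (by positivity)
  have h3 : (120 * (H : ℝ) ^ 5 + 60 * (H : ℝ) ^ 3 + 5 * H - (120 * (H : ℝ) ^ 4 + 20 * (H : ℝ) ^ 2 + 1)) / (120 * (H : ℝ) ^ 5) =
      1 - 1 / (H : ℝ) + (1 / (H : ℝ)) ^ 2 / 2 - (1 / (H : ℝ)) ^ 3 / 6 + (1 / (H : ℝ)) ^ 4 / 24 -
        (1 / (H : ℝ)) ^ 5 / 120 := by
    field_simp
    ring
  rw [mul_div_assoc, h3]
  have h4 : (0 : ℝ) ≤ w := Nat.cast_nonneg _
  calc (w : ℝ) * (1 - 1 / (H : ℝ) + (1 / (H : ℝ)) ^ 2 / 2 - (1 / (H : ℝ)) ^ 3 / 6 + (1 / (H : ℝ)) ^ 4 / 24 -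
        (1 / (H : ℝ)) ^ 5 / 120)
      ≤ w * Real.exp (-(1 / (H : ℝ))) := mul_le_mul_of_nonneg_left h2 h4
    _ ≤ z * Real.exp (-(1 / (H : ℝ))) := mul_le_mul_of_nonneg_right hz (Real.exp_pos _).le

lemma wUp_ge (hH : 0 < H) {w : ℕ} {z : ℝ} (hz : z ≤ (w : ℝ)) : z * Real.exp (-(1 / (H : ℝ))) ≤ (wUp H w : ℝ) := by
  unfold wUp
  refine le_trans ?_ (cast_div_ge' _ _ (by positivity))
  have hH' : (0 : ℝ) < H := by exact_mod_cast hH
  have h1 : 720 * H ^ 5 + 120 * H ^ 3 + 6 * H ≤ 720 * H ^ 6 + 360 * H ^ 4 + 30 * H ^ 2 + 1 := by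
    have i1 : H ^ 5 ≤ H ^ 6 := Nat.pow_le_pow_right hH (by omega)
    have i2 : H ^ 3 ≤ H ^ 4 := Nat.pow_le_pow_right hH (by omega)
    have i3 : H ≤ H ^ 2 := by
      calc H = H ^ 1 := (pow_one H).symm
        _ ≤ H ^ 2 := Nat.pow_le_pow_right hH (by omega)
    omega
  push_cast [Nat.cast_sub h1]
  have h2 := exp_up6 (s := 1 / (H : ℝ)) (by positivity)
  have h3 : (720 * (H : ℝ) ^ 6 + 360 * (H : ℝ) ^ 4 + 30 * (H : ℝ) ^ 2 + 1 -
      (720 * (H : ℝ) ^ 5 + 120 * (H : ℝ) ^ 3 + 6 * H)) / (720 * (H : ℝ) ^ 6) =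
      1 - 1 / (H : ℝ) + (1 / (H : ℝ)) ^ 2 / 2 - (1 / (H : ℝ)) ^ 3 / 6 + (1 / (H : ℝ)) ^ 4 / 24 -
        (1 / (H : ℝ)) ^ 5 / 120 + (1 / (H : ℝ)) ^ 6 / 720 := by
    field_simp
    ring
  rw [mul_div_assoc, h3]
  have h4 : (0 : ℝ) ≤ w := Nat.cast_nonneg _
  calc z * Real.exp (-(1 / (H : ℝ))) ≤ w * Real.exp (-(1 / (H : ℝ))) :=
        mul_le_mul_of_nonneg_right hz (Real.exp_pos _).le
    _ ≤ _ := mul_le_mul_of_nonneg_left h2 h4

/-! ### columns -/

lemma LoR_mono (hT : Tab H S m tL tU) (hS : 0 < S) {w : ℝ} (hw : 0 ≤ w) {v v' : ℕ → ℝ}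
    (hv : ∀ i ≤ m, v i ≤ v' i) {j : ℕ} (hj : j ≤ m) :
    LoR m (1 / (H : ℝ)) w v j ≤ LoR m (1 / (H : ℝ)) w v' j := by
  unfold LoR
  refine hor_mono (by positivity) _ _ _ _ _ _ (fun l hl => hv _ (by omega)) ?_
  exact mul_le_mul_of_nonneg_left (srcLo_mono hT hS hj hv) hw

lemma vex_mono {w : ℝ} (hw : 0 ≤ w) {v v' : ℕ → ℝ} (hv : ∀ i ≤ m, v i ≤ v' i) :
    ∀ l ≤ m + 1, vex m (1 / (H : ℝ)) w v l ≤ vex m (1 / (H : ℝ)) w v' l := by
  intro l hl
  unfold vex
  split_ifs with h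
  · exact hv l (by omega)
  · refine mul_le_mul_of_nonneg_left ?_ hw
    unfold C0R
    have := hor_mono (h := 1 / (H : ℝ)) (by positivity) (m + 1) 0 v v' 0 0 (fun l hl => hv l (by omega)) le_rfl
    linarith

lemma UpR_mono (hH : 0 < H) {w : ℝ} (hw : 0 ≤ w) {v v' : ℕ → ℝ} (hv : ∀ i ≤ m, v i ≤ v' i)
    {j : ℕ} (hj : j ≤ m) : UpR m (1 / (H : ℝ)) w v j ≤ UpR m (1 / (H : ℝ)) w v' j := by
  unfold UpR
  refine hor_mono (by positivity) _ _ _ _ _ _ (fun l hl => hv _ (by omega)) ?_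
  exact mul_le_mul_of_nonneg_left (srcUp_mono hH (vex_mono hw hv)) hw

lemma LoR_sum {h w : ℝ} (s : Finset ℕ) (κ : ℕ → ℝ) (v : ℕ → ℕ → ℝ) (j : ℕ) :
    LoR m h w (fun i => ∑ k ∈ s, κ k * v k i) j = ∑ k ∈ s, κ k * LoR m h w (v k) j := by
  unfold LoR
  rw [← hor_sum h s κ (m + 1 - j) 0 (fun k l => v k (j + l))
    (fun k => w * srcLo h m (m + 1 - j) (v k))]
  congr 1
  unfold srcLo
  simp only [sum_mul, mul_sum]
  rw [sum_comm]
  exact sum_congr rfl fun k _ => sum_congr rfl fun l _ => by ring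

lemma C0R_sum {h : ℝ} (s : Finset ℕ) (κ : ℕ → ℝ) (v : ℕ → ℕ → ℝ) :
    C0R m h (fun i => ∑ k ∈ s, κ k * v k i) = ∑ k ∈ s, κ k * C0R m h (v k) := by
  unfold C0R
  have := hor_sum h s κ (m + 1) 0 (fun k l => v k l) (fun _ => 0)
  simp only [mul_zero, sum_const_zero] at this
  rw [this, mul_sum]
  exact sum_congr rfl fun k _ => by ring

lemma vex_sum {h w : ℝ} (s : Finset ℕ) (κ : ℕ → ℝ) (v : ℕ → ℕ → ℝ) (l : ℕ) :
    vex m h w (fun i => ∑ k ∈ s, κ k * v k i) l = ∑ k ∈ s, κ k * vex m h w (v k) l := by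
  unfold vex
  split_ifs with hl
  · rfl
  · rw [C0R_sum, mul_sum]
    exact sum_congr rfl fun k _ => by ring

lemma UpR_sum {h w : ℝ} (s : Finset ℕ) (κ : ℕ → ℝ) (v : ℕ → ℕ → ℝ) (j : ℕ) :
    UpR m h w (fun i => ∑ k ∈ s, κ k * v k i) j = ∑ k ∈ s, κ k * UpR m h w (v k) j := by
  unfold UpR
  rw [← hor_sum h s κ (m + 1 - j) 0 (fun k l => v k (j + l))
    (fun k => w * srcUp h m (m + 1 - j) (vex m h w (v k)))]
  congr 1
  unfold srcUp
  simp only [vex_sum, sum_mul, mul_sum]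
  rw [sum_comm]
  exact sum_congr rfl fun k _ => sum_congr rfl fun l _ => by ring

/-- lower part of column `k` -/
def colLo (cs : List (List ℕ × List ℕ)) (k j : ℕ) : ℝ := vec (cs.getD k ([], [])).1 j
/-- upper part of column `k` -/
def colUp (cs : List (List ℕ × List ℕ)) (k j : ℕ) : ℝ := vec (cs.getD k ([], [])).2 j

/-- the invariant of the computation -/
structure Inv (m W : ℕ) (y : ℕ → ℝ → ℝ) (κ : ℕ → ℝ) (x : ℝ) (s : St) : Prop where
  pos : ∀ k, 0 ≤ κ k
  len : ∀ c ∈ s.cols, c.1.length = m + 1 ∧ c.2.length = m + 1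
  wl : (s.wl : ℝ) ≤ W * Real.exp (-x)
  wu : W * Real.exp (-x) ≤ (s.wu : ℝ)
  lo : ∀ j ≤ m, ∑ k ∈ range s.cols.length, κ k * colLo s.cols k j ≤ y j x
  up : ∀ j ≤ m, y j x ≤ ∑ k ∈ range s.cols.length, κ k * colUp s.cols k j

/-- one step of the computation -/
def stepS (H W WS : ℕ) (tL tU : List (List ℕ)) (s : St) : St :=
  ⟨s.cols.map (stepC H W WS tL tU s.wl s.wu), wLo H s.wl, wUp H s.wu⟩

lemma Inv.step (hT : Tab H S m tL tU) (hS : 0 < S) (hH : 0 < H) (hW : 0 < W)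
    {y : ℕ → ℝ → ℝ} (hy : Sol m y) {κ : ℕ → ℝ}
    {x : ℝ} {s : St} (hI : Inv m W y κ x s)
    (hw : 2 * ((1 / (H : ℝ)) ^ (m + 1) * Real.exp (-x)) ≤ ((m + 1).factorial : ℝ)) :
    Inv m W y κ (x + 1 / (H : ℝ)) (stepS H W (W * S) tL tU s) := by
  have hh0 : (0 : ℝ) ≤ 1 / (H : ℝ) := by positivity
  have hH1 : (1 : ℝ) ≤ H := by exact_mod_cast hH
  have hh1 : 1 / (H : ℝ) ≤ 1 := by rw [div_le_one (by linarith)]; exact hH1
  have hlen : (stepS H W (W * S) tL tU s).cols.length = s.cols.length := by simp [stepS]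
  have hget : ∀ k < s.cols.length, (stepS H W (W * S) tL tU s).cols.getD k ([], []) =
      stepC H W (W * S) tL tU s.wl s.wu (s.cols.getD k ([], [])) := by
    intro k hk
    simp only [stepS, List.getD_eq_getElem?_getD, List.getElem?_map]
    rw [List.getElem?_eq_getElem hk]
    simp
  have hmem : ∀ k < s.cols.length, s.cols.getD k ([], []) ∈ s.cols := by
    intro k hk
    rw [List.getD_eq_getElem?_getD, List.getElem?_eq_getElem hk]
    simp
  have hexp : Real.exp (-(x + 1 / (H : ℝ))) = Real.exp (-x) * Real.exp (-(1 / (H : ℝ))) := by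
    rw [← Real.exp_add]; congr 1; ring
  refine ⟨hI.pos, ?_, ?_, ?_, ?_, ?_⟩
  · intro c hc
    simp only [stepS, List.mem_map] at hc
    obtain ⟨c', hc', rfl⟩ := hc
    have := hI.len c' hc'
    exact ⟨stepLo_length hT _ _ this.1, stepUp_length hT _ _ this.2⟩
  · rw [hexp, ← mul_assoc]
    exact wLo_le hH hI.wl
  · rw [hexp, ← mul_assoc]
    exact wUp_ge hH hI.wu
  · intro j hj
    rw [hlen]
    refine le_trans ?_ (lo_step hy hh0 hh1 x hj)
    refine le_trans ?_ (LoR_mono hT hS (Real.exp_pos _).le (fun i hi => hI.lo i hi) hj)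
    rw [LoR_sum]
    refine sum_le_sum fun k hk => mul_le_mul_of_nonneg_left ?_ (hI.pos k)
    rw [mem_range] at hk
    unfold colLo
    rw [hget k hk]
    exact stepLo_le hT hS hH hW hI.wl _ (hI.len _ (hmem k hk)).1 hj
  · intro j hj
    rw [hlen]
    refine (up_step hy hh0 x hw hj).trans ?_
    refine (UpR_mono hH (Real.exp_pos _).le (fun i hi => hI.up i hi) hj).trans ?_
    rw [UpR_sum]
    refine sum_le_sum fun k hk => mul_le_mul_of_nonneg_left ?_ (hI.pos k)
    rw [mem_range] at hk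
    unfold colUp
    rw [hget k hk]
    exact stepUp_ge hT hS hH hW hI.wu (Real.exp_pos _).le _ (hI.len _ (hmem k hk)).2 hj

end

end Pool.Agent.Helper22.Opp
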