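import Pool.Agent.Helper22.Opp.Fin

/-!
# The computation in pieces
-/

set_option autoImplicit false

namespace Pool.Agent.Helper22.Opp

variable {H W WS : ℕ} {tL tU : List (List ℕ)}

theorem run1_add (M : ℕ) : ∀ (N : ℕ) (cs : List (List ℕ × List ℕ)) (wl wu : ℕ),
    run1 H W WS tL tU (M + N) cs wl wu =
      run1 H W WS tL tU M (run1 H W WS tL tU N cs wl wu).cols (run1 H W WS tL tU N cs wl wu).wl
        (run1 H W WS tL tU N cs wl wu).wu
  | 0, _, _, _ => rfl
  | N + 1, cs, wl, wu => by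
    rw [← Nat.add_assoc, run1_succ, run1_succ, run1_add M N]

theorem run1_chain {M N : ℕ} {cs : List (List ℕ × List ℕ)} {wl wu : ℕ} {s t : St}
    (h1 : run1 H W WS tL tU N cs wl wu = s) (h2 : run1 H W WS tL tU M s.cols s.wl s.wu = t) :
    run1 H W WS tL tU (M + N) cs wl wu = t := by
  rw [run1_add, h1, h2]

theorem run2_chain {R : ℕ} {Fs : List Fn} {M : ℕ} {r : Option (List ℕ × List ℕ × ℕ × ℕ)} :
    ∀ {N : ℕ} {a b : List ℕ} {wl wu : ℕ} {a1 b1 : List ℕ} {wl1 wu1 : ℕ}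
    (_ : run2 H W WS tL tU R Fs N a b wl wu = some (a1, b1, wl1, wu1))
    (_ : run2 H W WS tL tU R Fs M a1 b1 wl1 wu1 = r), run2 H W WS tL tU R Fs (M + N) a b wl wu = r
  | 0, a, b, wl, wu, a1, b1, wl1, wu1, h1, h2 => by
    have h3 : run2 H W WS tL tU R Fs 0 a b wl wu = some (a, b, wl, wu) := rfl
    rw [h3] at h1
    obtain ⟨rfl, rfl, rfl, rfl⟩ : a = a1 ∧ b = b1 ∧ wl = wl1 ∧ wu = wu1 := by simpa using h1
    exact h2
  | N + 1, a, b, wl, wu, a1, b1, wl1, wu1, h1, h2 => by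
    rw [run2_succ] at h1
    rw [← Nat.add_assoc, run2_succ]
    cases hc : Fs.all fun F => chk H F (zLo W wl R a) (zUp W wu R b) (zLo W (wLo H wl) R a)
        (zUp W wu R (stepUp H W WS tU wu b)) with
    | false => rw [hc] at h1; simp at h1
    | true =>
      rw [hc] at h1
      simp only [cond_true] at h1 ⊢
      exact run2_chain h1 h2

theorem ph1_of {g : Seg} {W WS D M w0 : ℕ} {a b : List ℕ} {wl wu N : ℕ} (s : St) (hN : g.N = N)
    (h1 : run1 g.H W WS g.tL g.tU N (idCols D M) (W * w0) (W * w0) = s)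
    (h2 : (Nat.beq s.wl wl && Nat.beq s.wu wu && mergeChk D s.cols a b) = true) :
    ph1 g W WS D M w0 a b wl wu = true := by
  unfold ph1
  rw [hN, h1]
  exact h2

theorem ph2_of {g : Seg} {W WS R : ℕ} {Fs : List Fn} {a b : List ℕ} {wl wu N : ℕ}
    {r : Option (List ℕ × List ℕ × ℕ × ℕ)} (hN : g.N = N)
    (h : run2 g.H W WS g.tL g.tU R Fs N a b wl wu = r) : ph2 g W WS R Fs a b wl wu = r := by
  unfold ph2
  rw [hN, h]

end Pool.Agent.Helper22.Opp
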